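import Pool.Agent.TH369.MU.Defs
import Pool.Agent.H4R2.LO.Defs
import Pool.Agent.TH369.AN.RES
import Pool.Agent.TH369.AN.OP

/-!
# Passage to functions on the lattice (job MU-CO, helper858)
-/

set_option autoImplicit false

open MeasureTheory Filter Topology
open scoped InnerProductSpace

namespace Pool.Agent.TH369.MU

open Pool.Agent.TH369.AN

variable {d : ℕ}

namespace CO

open Pool.Agent.H4R2.LO (L2f Hg IsSpec) in
theorem mem_l2 {u : Zd d → ℂ} (hu : L2f u) : Memℓp u 2 := by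
  rw [memℓp_gen_iff (by norm_num)]
  simpa [L2f] using hu

open Pool.Agent.H4R2.LO (L2f Hg IsSpec) in
theorem l2_mem (u : L2 d) : L2f (u : Zd d → ℂ) := by
  have h := (lp.memℓp u).summable (by simp)
  simpa [L2f] using h

open Pool.Agent.H4R2.LO (L2f Hg IsSpec) in
theorem act_Hg (c : ℝ) (ω : Zd d → ℝ) (h : ∀ x, |ω x| ≤ c) (u : Zd d → ℂ) (x : Zd d) :
    act ∅ c ω u x = Hg (-1) (fun x => ω x + 2 * d) u x := by
  have hcl : cl c (ω x) = ω x := by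
    unfold cl
    have := abs_le.1 (h x)
    rw [min_eq_right this.2, max_eq_right this.1]
  simp only [act, Hg, hcl, ee, Finset.notMem_empty, if_false]
  push_cast
  ring

open Pool.Agent.H4R2.LO (L2f Hg IsSpec) in
theorem spec_eq (c : ℝ) (ω : Zd d → ℝ) (h : ∀ x, |ω x| ≤ c) (g : Zd d → ℂ) (φ : L2 d)
    (hφ : ∀ x, φ x = g x) (m : Measure ℝ) (hm : IsSpec (-1) (fun x => ω x + 2 * d) g m) (z : ℂ)
    (hz : z.im ≠ 0) : ∫ E : ℝ, ((E : ℂ) - z)⁻¹ ∂m = ⟪φ, Rz (TT ∅ c ω) z φ⟫_ℂ := by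
  obtain ⟨-, hm⟩ := hm
  obtain ⟨u, hu, hu1, hu2⟩ := hm z hz
  let w : L2 d := ⟨u, mem_l2 hu⟩
  have hwx : ∀ x, w x = u x := fun x => rfl
  have hw : TT ∅ c ω w - z • w = φ := by
    refine lp.ext ?_
    funext x
    rw [hφ x, lp.coeFn_sub, Pi.sub_apply, TT_apply, lp.coeFn_smul, Pi.smul_apply, act_Hg c ω h,
      smul_eq_mul, hwx]
    exact hu1 x
  rw [hu2, ← rz_uniq (TT ∅ c ω) (TT_sa ∅ c ω) z hz w φ hw, lp.inner_eq_tsum]
  refine tsum_congr fun x => ?_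
  rw [hφ x, hwx, RCLike.inner_apply, mul_comm]

open Pool.Agent.H4R2.LO (L2f Hg IsSpec) in
theorem spec_rev (c : ℝ) (ω : Zd d → ℝ) (h : ∀ x, |ω x| ≤ c) (g : Zd d → ℂ) (φ : L2 d)
    (hφ : ∀ x, φ x = g x) (m : Measure ℝ) (hm : SpM (TT (∅ : Finset (Zd d)) c ω) φ m) :
    IsSpec (-1) (fun x => ω x + 2 * d) g m := by
  refine ⟨hm.1, fun z hz => ?_⟩
  obtain ⟨w, hw⟩ : ∃ w : L2 d, w = Rz (TT ∅ c ω) z φ := ⟨_, rfl⟩
  have h1 : TT ∅ c ω w - z • w = φ := by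
    rw [hw]
    exact rz_eq (TT ∅ c ω) (TT_sa ∅ c ω) z hz φ
  refine ⟨fun x => w x, l2_mem w, fun x => ?_, ?_⟩
  · have h2 : ((TT ∅ c ω w - z • w : L2 d) : Zd d → ℂ) x = (φ : Zd d → ℂ) x := by rw [h1]
    rw [hφ x, lp.coeFn_sub, Pi.sub_apply, TT_apply, lp.coeFn_smul, Pi.smul_apply, act_Hg c ω h,
      smul_eq_mul] at h2
    exact h2
  · rw [← hm.2 z hz, ← hw, lp.inner_eq_tsum]
    refine tsum_congr fun x => ?_
    rw [hφ x, RCLike.inner_apply, mul_comm]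

end CO

/-- passage from the functions of the problem file to `L2 d` and `TT` -/
theorem conv_spec (c : ℝ) (hc : 0 ≤ c) (ω : Zd d → ℝ) (hω : ∀ x, |ω x| ≤ c)
    (g : Zd d → ℂ) (hg : Summable fun x => ‖g x‖ ^ 2) (G : L2 d) (hG : ∀ x, G x = g x)
    (m : Measure ℝ) :
    Pool.Agent.H4R2.LO.IsSpec (-1) (fun x => ω x + 2 * d) g m ↔
      SpM (TT (∅ : Finset (Zd d)) c ω) G m :=
  ⟨fun h => ⟨h.1, fun z hz => (CO.spec_eq c ω hω g G hG m h z hz).symm⟩,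
    fun h => CO.spec_rev c ω hω g G hG m h⟩

theorem conv_pow (c : ℝ) (hc : 0 ≤ c) (ω : Zd d → ℝ) (hω : ∀ x, |ω x| ≤ c)
    (f : Zd d → ℂ) (F : L2 d) (hF : ∀ x, F x = f x) (l : ℕ) (x : Zd d) :
    ((TT (∅ : Finset (Zd d)) c ω ^ l) F : Zd d → ℂ) x =
      ((Pool.Agent.H4R2.LO.Hg (-1) fun x => ω x + 2 * d)^[l] f) x := by
  induction l generalizing x with
  | zero => exact hF x
  | succ l ih =>
    rw [Function.iterate_succ_apply', pow_succ', ContinuousLinearMap.mul_apply, TT_apply,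
      CO.act_Hg c ω hω]
    congr 1
    funext y
    exact ih y

end Pool.Agent.TH369.MU
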