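import Pool.Agent.TH369.MU.Defs
import Pool.Agent.TH369.AN.SB
import Pool.Agent.TH369.AN.KM

/-!
# Existence of spectral measures
(job MU-SM of helper369, written by helper857)
-/

set_option autoImplicit false

open MeasureTheory Filter Topology
open scoped InnerProductSpace

namespace Pool.Agent.TH369.MU

open Pool.Agent.TH369.AN

variable {X : Type} [NormedAddCommGroup X] [InnerProductSpace ℂ X] [CompleteSpace X]

theorem spm_exists (T : X →L[ℂ] X) (hT : IsSelfAdjoint T) (φ : X) :
    ∃ m : Measure ℝ, SpM T φ m ∧ m Set.univ = ENNReal.ofReal (‖φ‖ ^ 2) := by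
  obtain ⟨m, hf, -, h0, hm, -, -⟩ :=
    Pool.Agent.H54R3.Spec508.exists_spectral T hT φ
  refine ⟨m, ⟨hf, fun z hz => spec_borel T hT φ m hm z hz⟩, ?_⟩
  have h1 := h0 0
  simp only [pow_zero, one_apply_eq_self, integral_const, smul_eq_mul, mul_one] at h1
  rw [inner_self_eq_norm_sq_to_K] at h1
  have h2 : m.real Set.univ = ‖φ‖ ^ 2 := by
    apply Complex.ofReal_injective
    rw [h1]
    push_cast
    rfl
  rw [← h2, measureReal_def, ENNReal.ofReal_toReal (measure_ne_top m _)]

end Pool.Agent.TH369.MU
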