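import Pool.Agent.TH369.MU.Defs

set_option autoImplicit false

open MeasureTheory Filter Topology
open scoped InnerProductSpace

namespace Pool.Agent.TH369.MU

open Pool.Agent.TH369.AN

variable {d : ℕ}

lemma CY.alg : IsSetAlgebra (measurableCylinders fun _ : Zd d => ℝ) where
  empty_mem := empty_mem_measurableCylinders _
  compl_mem := fun _ h => compl_mem_measurableCylinders h
  union_mem := fun _ _ h h' => union_mem_measurableCylinders h h'

lemma CY.dense (ν : Measure (Zd d → ℝ)) [IsFiniteMeasure ν] :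
    ν.MeasureDense (measurableCylinders fun _ : Zd d => ℝ) :=
  Measure.MeasureDense.of_generateFrom_isSetAlgebra_finite ν CY.alg
    generateFrom_measurableCylinders.symm

theorem cyl (μ : Measure ℝ) [IsProbabilityMeasure μ] (A : Set (Zd d → ℝ)) (hA : MeasurableSet A)
    (δ : ℝ) (hδ : 0 < δ) :
    ∃ (B : Finset (Zd d)) (C : Set (Zd d → ℝ)), MeasurableSet C ∧
      (∀ ω ω' : Zd d → ℝ, (∀ x ∈ B, ω x = ω' x) → (ω ∈ C ↔ ω' ∈ C)) ∧
      iid d μ (symmDiff A C) ≤ ENNReal.ofReal δ := by
  have : IsProbabilityMeasure (iid d μ) := by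
    unfold iid
    infer_instance
  obtain ⟨C, hC, h⟩ := (CY.dense (iid d μ)).approx A hA (measure_ne_top _ _) δ hδ
  obtain ⟨B, S, hS, rfl⟩ := (mem_measurableCylinders C).1 hC
  refine ⟨B, cylinder B S, hS.cylinder, ?_, h.le⟩
  intro ω ω' hω
  have h1 : B.restrict ω = B.restrict ω' := by
    funext x
    exact hω x x.2
  rw [mem_cylinder, mem_cylinder, h1]

end Pool.Agent.TH369.MU
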