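import Pool.Agent.TH369.MU.Defs
import Pool.Agent.TH369.AN.RES
import Pool.Agent.TH369.AN.OP

/-!
# Symmetry of the Green function (MU-SY)
-/

set_option autoImplicit false
open MeasureTheory Filter Topology
open scoped InnerProductSpace
namespace Pool.Agent.TH369.MU
open Pool.Agent.TH369.AN
variable {d : ℕ}

namespace SY

theorem star_apply (u : L2 d) (x : Zd d) : ((star u : L2 d) : Zd d → ℂ) x = star ((u : Zd d → ℂ) x) :=
  rfl

theorem star_TT (c : ℝ) (ω : Zd d → ℝ) (u : L2 d) :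
    TT (∅ : Finset (Zd d)) c ω (star u) = star (TT (∅ : Finset (Zd d)) c ω u) := by
  ext x
  rw [star_apply, TT_apply, TT_apply]
  unfold act
  simp only [Finset.notMem_empty, if_false, star_apply, star_sub, star_mul', star_add, star_sum]
  simp

theorem star_dl (x : Zd d) : star (dl x) = dl x := by
  ext y
  rw [star_apply, dl_apply]
  split_ifs <;> simp

theorem zk_im (E : ℝ) (k : ℕ) : (zk E k).im = ep k := by
  unfold zk
  simp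

theorem ep_pos (k : ℕ) : 0 < ep k := by
  unfold ep
  positivity

theorem inner_rz {X : Type} [NormedAddCommGroup X] [InnerProductSpace ℂ X] [CompleteSpace X]
    (T : X →L[ℂ] X) (hT : IsSelfAdjoint T) (E : ℝ) (k : ℕ) (φ ψ : X) :
    (ep k : ℂ) * ⟪Rz T (zk E k) φ, Rz T (zk E k) ψ⟫_ℂ =
      (⟪φ, Rz T (zk E k) ψ⟫_ℂ - (starRingEnd ℂ) ⟪ψ, Rz T (zk E k) φ⟫_ℂ) / (2 * Complex.I) := by
  have hz : (zk E k).im ≠ 0 := by rw [zk_im]; exact (ep_pos k).ne'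
  have hs := ContinuousLinearMap.isSelfAdjoint_iff_isSymmetric.1 hT
  have hu := rz_eq T hT (zk E k) hz φ
  have hv := rz_eq T hT (zk E k) hz ψ
  obtain ⟨u, hu'⟩ : ∃ u, u = Rz T (zk E k) φ := ⟨_, rfl⟩
  obtain ⟨v, hv'⟩ : ∃ v, v = Rz T (zk E k) ψ := ⟨_, rfl⟩
  rw [← hu'] at hu ⊢
  rw [← hv'] at hv ⊢
  have h1 : ⟪φ, v⟫_ℂ = ⟪T u, v⟫_ℂ - (starRingEnd ℂ (zk E k)) * ⟪u, v⟫_ℂ := by
    rw [← hu, inner_sub_left, inner_smul_left]
  have h2 : (starRingEnd ℂ) ⟪ψ, u⟫_ℂ = ⟪u, T v⟫_ℂ - zk E k * ⟪u, v⟫_ℂ := by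
    rw [inner_conj_symm, ← hv, inner_sub_right, inner_smul_right]
  have h3 : ⟪T u, v⟫_ℂ = ⟪u, T v⟫_ℂ := hs u v
  have h4 := Complex.sub_conj (zk E k)
  rw [zk_im] at h4
  have hI : (2 : ℂ) * Complex.I ≠ 0 := mul_ne_zero two_ne_zero Complex.I_ne_zero
  rw [eq_div_iff hI, h1, h2, h3]
  have h5 : ⟪u, T v⟫_ℂ - (starRingEnd ℂ (zk E k)) * ⟪u, v⟫_ℂ -
      (⟪u, T v⟫_ℂ - zk E k * ⟪u, v⟫_ℂ) = (zk E k - starRingEnd ℂ (zk E k)) * ⟪u, v⟫_ℂ := by ring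
  rw [h5, h4]
  push_cast
  ring

end SY

theorem rz_symm (c : ℝ) (ω : Zd d → ℝ) (z : ℂ) (hz : z.im ≠ 0) (x y : Zd d) :
    ⟪dl x, Rz (TT (∅ : Finset (Zd d)) c ω) z (dl y)⟫_ℂ =
      ⟪dl y, Rz (TT (∅ : Finset (Zd d)) c ω) z (dl x)⟫_ℂ := by
  have hT := TT_sa (∅ : Finset (Zd d)) c ω
  have hs := ContinuousLinearMap.isSelfAdjoint_iff_isSymmetric.1 hT
  obtain ⟨T, hTT⟩ : ∃ T, T = TT (∅ : Finset (Zd d)) c ω := ⟨_, rfl⟩
  have hu := rz_eq (TT (∅ : Finset (Zd d)) c ω) hT z hz (dl y)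
  have hv := rz_eq (TT (∅ : Finset (Zd d)) c ω) hT z hz (dl x)
  have hst := SY.star_TT c ω (Rz (TT (∅ : Finset (Zd d)) c ω) z (dl x))
  rw [← hTT] at hs hu hv hst ⊢
  obtain ⟨u, hu'⟩ : ∃ u, u = Rz T z (dl y) := ⟨_, rfl⟩
  obtain ⟨v, hv'⟩ : ∃ v, v = Rz T z (dl x) := ⟨_, rfl⟩
  rw [← hu'] at hu ⊢
  rw [← hv'] at hv hst ⊢
  have h1 : ⟪dl x, u⟫_ℂ = ⟪star (T v - z • v), u⟫_ℂ := by rw [hv, SY.star_dl]
  have h2 : star (T v - z • v) = T (star v) - (starRingEnd ℂ z) • star v := by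
    rw [star_sub, star_smul, hst]
    rfl
  have h3 : ⟪T (star v), u⟫_ℂ = ⟪star v, T u⟫_ℂ := hs (star v) u
  rw [h1, h2, inner_sub_left, inner_smul_left, h3, Complex.conj_conj, ← inner_smul_right,
    ← inner_sub_right, hu, ← inner_conj_symm, inner_dl, inner_dl, SY.star_apply]
  exact Complex.conj_conj _

theorem gk_symm (c : ℝ) (ω : Zd d → ℝ) (E : ℝ) (k : ℕ) (x y : Zd d) :
    Gk c ω E k x y = Gk c ω E k y x := by
  unfold Gk
  exact rz_symm c ω _ (by rw [SY.zk_im]; exact (SY.ep_pos k).ne') x y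

theorem gk_inner (c : ℝ) (ω : Zd d → ℝ) (E : ℝ) (k : ℕ) (x y : Zd d) :
    (ep k : ℂ) * ⟪Rz (TT (∅ : Finset (Zd d)) c ω) (zk E k) (dl x),
      Rz (TT (∅ : Finset (Zd d)) c ω) (zk E k) (dl y)⟫_ℂ = ((Gk c ω E k x y).im : ℂ) := by
  rw [SY.inner_rz _ (TT_sa _ c ω)]
  have h := gk_symm c ω E k y x
  unfold Gk at h
  rw [h]
  change (Gk c ω E k x y - (starRingEnd ℂ) (Gk c ω E k x y)) / (2 * Complex.I) = _
  rw [Complex.sub_conj]
  have : (2 : ℂ) * Complex.I ≠ 0 := mul_ne_zero two_ne_zero Complex.I_ne_zero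
  field_simp
  push_cast
  ring

theorem gk_pos (c : ℝ) (ω : Zd d → ℝ) (E : ℝ) (k : ℕ) (x : Zd d) : 0 < (Gk c ω E k x x).im := by
  have h := gk_inner c ω E k x x
  have hz : (zk E k).im ≠ 0 := by rw [SY.zk_im]; exact (SY.ep_pos k).ne'
  have hne : Rz (TT (∅ : Finset (Zd d)) c ω) (zk E k) (dl x) ≠ 0 := by
    intro h0
    have h1 := rz_eq _ (TT_sa (∅ : Finset (Zd d)) c ω) (zk E k) hz (dl x)
    rw [h0, map_zero, smul_zero, sub_zero] at h1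
    have h2 := norm_dl x
    rw [← h1, norm_zero] at h2
    exact zero_ne_one h2
  rw [inner_self_eq_norm_sq_to_K] at h
  have h1 : ep k * ‖Rz (TT (∅ : Finset (Zd d)) c ω) (zk E k) (dl x)‖ ^ 2 =
      (Gk c ω E k x x).im := by
    apply Complex.ofReal_injective
    rw [← h, Complex.ofReal_mul]
    congr 1
    exact Complex.ofReal_pow _ _
  rw [← h1]
  have := SY.ep_pos k
  have := norm_pos_iff.2 hne
  positivity

end Pool.Agent.TH369.MU
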