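import Pool.Agent.TH369.MU.Defs
import Pool.Agent.TH369.AN.RES
import Pool.Agent.TH369.AN.OP
import Pool.Agent.TH369.AN.UPD
import Pool.Agent.TH369.AN.RO
import Pool.Agent.TH369.MU.SY

/-!
# The effect of one coordinate on the Green function (job MU-GU, helper902 for helper369)
-/

set_option autoImplicit false
open MeasureTheory Filter Topology
open scoped InnerProductSpace
namespace Pool.Agent.TH369.MU
open Pool.Agent.TH369.AN
variable {d : ℕ}

namespace GU

lemma zk_im (E : ℝ) (k : ℕ) : (zk E k).im ≠ 0 := by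
  unfold zk ep
  have h : ((E : ℂ) + (((1 / ((k : ℝ) + 1) : ℝ)) : ℂ) * Complex.I).im = 1 / ((k : ℝ) + 1) := by
    rw [Complex.add_im, Complex.ofReal_im, Complex.im_ofReal_mul, Complex.I_im]
    ring
  rw [h]
  positivity

end GU

theorem gk_update (c : ℝ) (hc : 0 ≤ c) (ω : Zd d → ℝ) (E : ℝ) (k : ℕ) (x y : Zd d) (s : ℝ) :
    (Gk c (Function.update ω y s) E k x x - Gk c ω E k x x) *
      (1 + ((cl c s - cl c (ω y) : ℝ) : ℂ) * Gk c ω E k y y) =
      -(((cl c s - cl c (ω y) : ℝ) : ℂ) * Gk c ω E k x y ^ 2) := by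
  have hz := GU.zk_im E k
  have hT : IsSelfAdjoint (TT (∅ : Finset (Zd d)) c (Function.update ω y 0)) := TT_sa _ _ _
  have h1 : TT (∅ : Finset (Zd d)) c (Function.update ω y s) =
      pt (TT ∅ c (Function.update ω y 0)) (dl y) (cl c s) :=
    TT_update ∅ c hc ω y (Finset.notMem_empty y) s
  have h2 : TT (∅ : Finset (Zd d)) c ω =
      pt (TT ∅ c (Function.update ω y 0)) (dl y) (cl c (ω y)) := by
    have := TT_update ∅ c hc ω y (Finset.notMem_empty y) (ω y)
    rwa [Function.update_eq_self] at this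
  have r1 := rank_one _ hT (dl y) (dl x) (cl c (ω y)) (cl c s) (zk E k) hz
  have r2 := rank_one _ hT (dl y) (dl y) (cl c (ω y)) (cl c s) (zk E k) hz
  rw [← h1, ← h2] at r1 r2
  have q1 := congrArg (fun u => ⟪dl x, u⟫_ℂ) r1
  have q2 := congrArg (fun u => ⟪dl x, u⟫_ℂ) r2
  simp only [inner_sub_right, inner_smul_right] at q1 q2
  have hs := gk_symm c ω E k x y
  unfold Gk at hs ⊢
  rw [← hs] at q1
  generalize ((cl c s - cl c (ω y) : ℝ) : ℂ) = τ at *
  linear_combination (1 + τ * ⟪dl y, Rz (TT (∅ : Finset (Zd d)) c ω) (zk E k) (dl y)⟫_ℂ) * q1 -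
    (τ * ⟪dl x, Rz (TT (∅ : Finset (Zd d)) c ω) (zk E k) (dl y)⟫_ℂ) * q2

end Pool.Agent.TH369.MU
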