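import Pool.Agent.TH369.MU.Defs
import Pool.Agent.TH369.AN.FUB
set_option autoImplicit false
open MeasureTheory Filter Topology
open scoped InnerProductSpace
namespace Pool.Agent.TH369.MU
open Pool.Agent.TH369.AN
variable {d : ℕ}

theorem upd_mp (μ : Measure ℝ) [IsProbabilityMeasure μ] (y : Zd d) :
    MeasurePreserving (fun p : (Zd d → ℝ) × ℝ => Function.update p.1 y p.2)
      ((iid d μ).prod μ) (iid d μ) :=
  ⟨FUB.measurable_upd y, FUB.map_upd μ y⟩

end Pool.Agent.TH369.MU
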