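import Pool.Agent.TH369.MU.Defs
import Pool.Agent.TH369.MU.CY
import Pool.Agent.TH369.MU.UP
set_option autoImplicit false
open MeasureTheory Filter Topology
open scoped InnerProductSpace
namespace Pool.Agent.TH369.MU
open Pool.Agent.TH369.AN
variable {d : ℕ}

namespace IN

/-- the map which resamples the coordinate `y` -/
def up (y : Zd d) (p : (Zd d → ℝ) × ℝ) : Zd d → ℝ := Function.update p.1 y p.2

/-- the influence of far coordinates on an event -/
theorem event (μ : Measure ℝ) [IsProbabilityMeasure μ] (A : Set (Zd d → ℝ)) (hA : MeasurableSet A)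
    (δ : ℝ) (hδ : 0 < δ) :
    ∃ B : Finset (Zd d), ∀ y : Zd d, y ∉ B →
      ((iid d μ).prod μ) {p : (Zd d → ℝ) × ℝ | p.1 ∈ A ∧ up y p ∉ A} ≤
        ENNReal.ofReal (2 * δ) := by
  obtain ⟨B, C, hC, hB, hAC⟩ := cyl μ A hA δ hδ
  refine ⟨B, fun y hy => ?_⟩
  have hm : MeasurableSet (symmDiff A C) := hA.symmDiff hC
  have h1 : ((iid d μ).prod μ) (up y ⁻¹' symmDiff A C) ≤ ENNReal.ofReal δ := by
    have h3 : ((iid d μ).prod μ) (up y ⁻¹' symmDiff A C) = iid d μ (symmDiff A C) :=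
      (upd_mp μ y).measure_preimage hm.nullMeasurableSet
    rw [h3]
    exact hAC
  have h2 : ((iid d μ).prod μ) (Prod.fst ⁻¹' symmDiff A C) ≤ ENNReal.ofReal δ := by
    have h3 : ((iid d μ).prod μ) (Prod.fst ⁻¹' symmDiff A C) = iid d μ (symmDiff A C) := by
      rw [← Set.prod_univ, Measure.prod_prod, measure_univ, mul_one]
    rw [h3]
    exact hAC
  have hsub : {p : (Zd d → ℝ) × ℝ | p.1 ∈ A ∧ up y p ∉ A} ⊆
      (up y ⁻¹' symmDiff A C) ∪ (Prod.fst ⁻¹' symmDiff A C) := by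
    rintro p ⟨hp1, hp2⟩
    by_cases hpC : p.1 ∈ C
    · left
      have : up y p ∈ C := (hB p.1 (up y p) (fun x hx => by
        unfold up
        rw [Function.update_of_ne]
        rintro rfl
        exact hy hx)).1 hpC
      exact Or.inr ⟨this, hp2⟩
    · right
      exact Or.inl ⟨hp1, hpC⟩
  calc ((iid d μ).prod μ) {p : (Zd d → ℝ) × ℝ | p.1 ∈ A ∧ up y p ∉ A}
      ≤ ((iid d μ).prod μ) ((up y ⁻¹' symmDiff A C) ∪ (Prod.fst ⁻¹' symmDiff A C)) :=
        measure_mono hsub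
    _ ≤ ENNReal.ofReal δ + ENNReal.ofReal δ := (measure_union_le _ _).trans (add_le_add h1 h2)
    _ = ENNReal.ofReal (2 * δ) := by rw [← ENNReal.ofReal_add hδ.le hδ.le, two_mul]

/-- an integer valued measurable function is bounded outside of a small set -/
theorem bdd (μ : Measure ℝ) [IsProbabilityMeasure μ] (g : (Zd d → ℝ) → ℤ) (hg : Measurable g)
    (δ : ℝ) (hδ : 0 < δ) : ∃ S : Finset ℤ, iid d μ {ω | g ω ∉ S} ≤ ENNReal.ofReal δ := by
  let s : ℕ → Set (Zd d → ℝ) := fun n => {ω | g ω ∉ Finset.Icc (-(n : ℤ)) n}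
  have hs : ∀ n, MeasurableSet (s n) := fun n => by
    have : s n = g ⁻¹' ((Finset.Icc (-(n : ℤ)) n : Set ℤ)ᶜ) := by
      ext ω
      simp [s]
    rw [this]
    exact hg (MeasurableSet.of_discrete)
  have hanti : Antitone s := by
    intro m n hmn ω hω
    simp only [s, Set.mem_ofPred_eq, Finset.mem_Icc, not_and, not_le] at hω ⊢
    intro h
    have := hω (by omega)
    omega
  have hinter : ⋂ n, s n = ∅ := by
    rw [Set.eq_empty_iff_forall_notMem]
    intro ω hω
    rw [Set.mem_iInter] at hω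
    have := hω (g ω).natAbs
    simp only [s, Set.mem_ofPred_eq, Finset.mem_Icc, not_and, not_le] at this
    have h1 := this (by omega)
    omega
  have ht := tendsto_measure_iInter_atTop (μ := iid d μ) (fun n => (hs n).nullMeasurableSet) hanti
    ⟨0, measure_ne_top _ _⟩
  rw [hinter, measure_empty] at ht
  have h1 : ∀ᶠ n in atTop, (iid d μ) (s n) < ENNReal.ofReal δ :=
    ht.eventually_lt_const (ENNReal.ofReal_pos.2 hδ)
  obtain ⟨n, hn⟩ := h1.exists
  exact ⟨_, hn.le⟩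

end IN

theorem influence (μ : Measure ℝ) [IsProbabilityMeasure μ] (f : (Zd d → ℝ) → ℝ)
    (hf : Measurable f) (δ : ℝ) (hδ : 0 < δ) :
    ∃ B : Finset (Zd d), ∀ y : Zd d, y ∉ B →
      ((iid d μ).prod μ) {p : (Zd d → ℝ) × ℝ | δ < |f (Function.update p.1 y p.2) - f p.1|} ≤
        ENNReal.ofReal δ := by
  classical
  let g : (Zd d → ℝ) → ℤ := fun ω => ⌊f ω / δ⌋
  have hg : Measurable g := (hf.div_const δ).floor
  obtain ⟨S, hS⟩ := IN.bdd μ g hg (δ / 2) (by linarith)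
  let δ' : ℝ := δ / (4 * (S.card + 1))
  have hδ' : 0 < δ' := by positivity
  have hA : ∀ i : ℤ, MeasurableSet (g ⁻¹' {i}) := fun i => hg (measurableSet_singleton i)
  choose B hB using fun i : ℤ => IN.event μ (g ⁻¹' {i}) (hA i) δ' hδ'
  refine ⟨S.biUnion B, fun y hy => ?_⟩
  have hy' : ∀ i ∈ S, y ∉ B i := fun i hi h => hy (Finset.mem_biUnion.2 ⟨i, hi, h⟩)
  have hsub : {p : (Zd d → ℝ) × ℝ | δ < |f (Function.update p.1 y p.2) - f p.1|} ⊆
      (Prod.fst ⁻¹' {ω | g ω ∉ S}) ∪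
        ⋃ i ∈ S, {p : (Zd d → ℝ) × ℝ | p.1 ∈ g ⁻¹' {i} ∧ IN.up y p ∉ g ⁻¹' {i}} := by
    intro p hp
    rw [Set.mem_ofPred_eq] at hp
    by_cases hpS : g p.1 ∈ S
    · right
      rw [Set.mem_iUnion₂]
      refine ⟨g p.1, hpS, rfl, fun h => ?_⟩
      have h1 : ⌊f (Function.update p.1 y p.2) / δ⌋ = ⌊f p.1 / δ⌋ := h
      have h2 := Int.abs_sub_lt_one_of_floor_eq_floor h1
      rw [← sub_div, abs_div, abs_of_pos hδ, div_lt_one hδ] at h2
      linarith
    · left
      exact hpS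
  have h0 : ((iid d μ).prod μ) (Prod.fst ⁻¹' {ω | g ω ∉ S}) ≤ ENNReal.ofReal (δ / 2) := by
    rw [← Set.prod_univ, Measure.prod_prod, measure_univ, mul_one]
    exact hS
  calc ((iid d μ).prod μ) {p : (Zd d → ℝ) × ℝ | δ < |f (Function.update p.1 y p.2) - f p.1|}
      ≤ ((iid d μ).prod μ) ((Prod.fst ⁻¹' {ω | g ω ∉ S}) ∪
        ⋃ i ∈ S, {p : (Zd d → ℝ) × ℝ | p.1 ∈ g ⁻¹' {i} ∧ IN.up y p ∉ g ⁻¹' {i}}) :=
        measure_mono hsub
    _ ≤ ENNReal.ofReal (δ / 2) + ∑ i ∈ S, ENNReal.ofReal (2 * δ') := by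
        refine (measure_union_le _ _).trans (add_le_add h0 ?_)
        refine (measure_biUnion_finset_le S _).trans (Finset.sum_le_sum fun i hi => ?_)
        exact hB i y (hy' i hi)
    _ = ENNReal.ofReal (δ / 2) + ENNReal.ofReal (S.card * (2 * δ')) := by
        rw [Finset.sum_const, nsmul_eq_mul, ENNReal.ofReal_mul (p := (S.card : ℝ)) (by positivity),
          ENNReal.ofReal_natCast]
    _ = ENNReal.ofReal (δ / 2 + S.card * (2 * δ')) := by
        rw [ENNReal.ofReal_add (by positivity) (by positivity)]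
    _ ≤ ENNReal.ofReal δ := by
        apply ENNReal.ofReal_le_ofReal
        have h1 : (S.card : ℝ) * (2 * δ') ≤ δ / 2 := by
          have h2 : δ' * (4 * (S.card + 1)) = δ := by
            simp only [δ']
            field_simp
          nlinarith
        linarith

end Pool.Agent.TH369.MU
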