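import Pool.Agent.TH369.MU.Defs
import Pool.Agent.TH369.AN.RES
import Pool.Agent.TH369.AN.OP
import Pool.Agent.TH369.AN.MEAS
import Pool.Agent.TH369.AN.SB

/-!
# Measurability of the Green function (job MU-MJ of helper369, written by helper989)
-/

set_option autoImplicit false

open MeasureTheory Filter Topology
open scoped InnerProductSpace

namespace Pool.Agent.TH369.MU

open Pool.Agent.TH369.AN

variable {d : ℕ}

namespace MJ

section abs

variable {X : Type} [NormedAddCommGroup X] [InnerProductSpace ℂ X] [CompleteSpace X]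

/-- real part of `1 / (x - p - i q)` -/
noncomputable def f1 (p q x : ℝ) : ℝ := (x - p) / ((x - p) ^ 2 + q ^ 2)

/-- imaginary part of `1 / (x - p - i q)` -/
noncomputable def f2 (p q x : ℝ) : ℝ := q / ((x - p) ^ 2 + q ^ 2)

theorem den_pos {q : ℝ} (hq : q ≠ 0) (p x : ℝ) : 0 < (x - p) ^ 2 + q ^ 2 := by
  positivity

theorem f1_cont {q : ℝ} (hq : q ≠ 0) (p : ℝ) : Continuous (f1 p q) := by
  unfold f1
  exact Continuous.div (by fun_prop) (by fun_prop) fun x => (den_pos hq p x).ne'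

theorem f2_cont {q : ℝ} (hq : q ≠ 0) (p : ℝ) : Continuous (f2 p q) := by
  unfold f2
  exact Continuous.div (by fun_prop) (by fun_prop) fun x => (den_pos hq p x).ne'

theorem rel1 {q : ℝ} (hq : q ≠ 0) (p x : ℝ) : (x - p) * f1 p q x + q * f2 p q x = 1 := by
  have h := den_pos hq p x
  unfold f1 f2
  field_simp

theorem rel2 {q : ℝ} (hq : q ≠ 0) (p x : ℝ) : (x - p) * f2 p q x - q * f1 p q x = 0 := by
  have h := den_pos hq p x
  unfold f1 f2
  field_simp
  ring

theorem mul_cfc (T : X →L[ℂ] X) (hT : IsSelfAdjoint T) {f : ℝ → ℝ} (hf : Continuous f) :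
    T * cfc f T = cfc (fun x => x * f x) T := by
  have h := cfc_mul (fun x : ℝ => x) f T (continuous_id.continuousOn) hf.continuousOn
  rw [cfc_id' ℝ T] at h
  exact h.symm

theorem eq1 (T : X →L[ℂ] X) (hT : IsSelfAdjoint T) {q : ℝ} (hq : q ≠ 0) (p : ℝ) :
    T * cfc (f1 p q) T - (p : ℂ) • cfc (f1 p q) T + (q : ℂ) • cfc (f2 p q) T = 1 := by
  have c1 := f1_cont hq p
  have c2 := f2_cont hq p
  have c3 : Continuous fun x => x * f1 p q x := continuous_id.mul c1
  rw [mul_cfc T hT c1]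
  have e1 : (p : ℂ) • cfc (f1 p q) T = cfc (fun x => p * f1 p q x) T := by
    rw [cfc_const_mul p (f1 p q) T c1.continuousOn]
    exact (Complex.coe_smul p _)
  have e2 : (q : ℂ) • cfc (f2 p q) T = cfc (fun x => q * f2 p q x) T := by
    rw [cfc_const_mul q (f2 p q) T c2.continuousOn]
    exact (Complex.coe_smul q _)
  rw [e1, e2, ← cfc_sub (fun x => x * f1 p q x) (fun x => p * f1 p q x) T c3.continuousOn
    (continuous_const.mul c1).continuousOn, ← cfc_add T (fun x => x * f1 p q x - p * f1 p q x)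
    (fun x => q * f2 p q x) (c3.sub (continuous_const.mul c1)).continuousOn
    (continuous_const.mul c2).continuousOn]
  have e3 : (fun x => x * f1 p q x - p * f1 p q x + q * f2 p q x) = fun _ => (1 : ℝ) := by
    funext x
    linarith [rel1 hq p x]
  rw [e3]
  exact cfc_const_one ℝ T

theorem eq2 (T : X →L[ℂ] X) (hT : IsSelfAdjoint T) {q : ℝ} (hq : q ≠ 0) (p : ℝ) :
    T * cfc (f2 p q) T - (p : ℂ) • cfc (f2 p q) T - (q : ℂ) • cfc (f1 p q) T = 0 := by
  have c1 := f1_cont hq p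
  have c2 := f2_cont hq p
  have c3 : Continuous fun x => x * f2 p q x := continuous_id.mul c2
  rw [mul_cfc T hT c2]
  have e1 : (p : ℂ) • cfc (f2 p q) T = cfc (fun x => p * f2 p q x) T := by
    rw [cfc_const_mul p (f2 p q) T c2.continuousOn]
    exact (Complex.coe_smul p _)
  have e2 : (q : ℂ) • cfc (f1 p q) T = cfc (fun x => q * f1 p q x) T := by
    rw [cfc_const_mul q (f1 p q) T c1.continuousOn]
    exact (Complex.coe_smul q _)
  rw [e1, e2, ← cfc_sub (fun x => x * f2 p q x) (fun x => p * f2 p q x) T c3.continuousOn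
    (continuous_const.mul c2).continuousOn, ← cfc_sub (fun x => x * f2 p q x - p * f2 p q x)
    (fun x => q * f1 p q x) T (c3.sub (continuous_const.mul c2)).continuousOn
    (continuous_const.mul c1).continuousOn]
  have e3 : (fun x => x * f2 p q x - p * f2 p q x - q * f1 p q x) = fun _ => (0 : ℝ) := by
    funext x
    linarith [rel2 hq p x]
  rw [e3]
  exact cfc_const_zero ℝ T

theorem rz_fc (T : X →L[ℂ] X) (hT : IsSelfAdjoint T) (φ : X) (z : ℂ) (hz : z.im ≠ 0) :
    Rz T z φ = fc (f1 z.re z.im) T φ + Complex.I • fc (f2 z.re z.im) T φ := by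
  have k1 : T (cfc (f1 z.re z.im) T φ) - (z.re : ℂ) • cfc (f1 z.re z.im) T φ +
      (z.im : ℂ) • cfc (f2 z.re z.im) T φ = φ :=
    congrArg (fun A : X →L[ℂ] X => A φ) (eq1 T hT hz z.re)
  have k2 : T (cfc (f2 z.re z.im) T φ) - (z.re : ℂ) • cfc (f2 z.re z.im) T φ -
      (z.im : ℂ) • cfc (f1 z.re z.im) T φ = 0 :=
    congrArg (fun A : X →L[ℂ] X => A φ) (eq2 T hT hz z.re)
  unfold fc
  symm
  refine rz_uniq T hT z hz _ φ ?_
  generalize cfc (f1 z.re z.im) T φ = u at k1 k2 ⊢
  generalize cfc (f2 z.re z.im) T φ = w at k1 k2 ⊢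
  have hzz : z = (z.re : ℂ) + (z.im : ℂ) * Complex.I := (Complex.re_add_im z).symm
  rw [map_add, map_smul]
  have e : T u + Complex.I • T w - z • (u + Complex.I • w) =
      (T u - (z.re : ℂ) • u + (z.im : ℂ) • w) +
        Complex.I • (T w - (z.re : ℂ) • w - (z.im : ℂ) • u) := by
    have hI : (Complex.I * Complex.I + 1) • w = 0 := by
      rw [Complex.I_mul_I, neg_add_cancel, zero_smul]
    conv_lhs => rw [hzz]
    linear_combination (norm := module) (-(z.im : ℂ)) • hI
  rw [e, k1, k2, smul_zero, add_zero]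

end abs

theorem ep_pos (k : ℕ) : 0 < ep k := by
  unfold ep
  positivity

theorem zk_im (E : ℝ) (k : ℕ) : (zk E k).im = ep k := by
  simp [zk]

theorem zk_im_ne (E : ℝ) (k : ℕ) : (zk E k).im ≠ 0 := by
  rw [zk_im]
  exact (ep_pos k).ne'

theorem gk_cont (c : ℝ) (ω : Zd d → ℝ) (k : ℕ) (x y : Zd d) :
    Continuous fun E : ℝ => Gk c ω E k x y := by
  rw [continuous_iff_continuousAt]
  intro E
  unfold Gk
  have h := (rz_diff (TT (∅ : Finset (Zd d)) c ω) (TT_sa ∅ c ω) (dl x) (dl y) (zk E k)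
    (zk_im_ne E k)).continuousAt
  have h2 : ContinuousAt (fun E : ℝ => zk E k) E := by
    unfold zk
    fun_prop
  exact ContinuousAt.comp (f := fun E : ℝ => zk E k) h h2

/-- Caratheodory functions are measurable -/
theorem cara {A : Type} [MeasurableSpace A] (f : A → ℝ → ℂ) (h1 : ∀ a, Continuous (f a))
    (h2 : ∀ E, Measurable fun a => f a E) : Measurable fun p : A × ℝ => f p.1 p.2 := by
  have h : Measurable (Function.uncurry fun (E : ℝ) (a : A) => f a E) :=
    measurable_uncurry_of_continuous_of_measurable (fun a => h1 a) (fun E => h2 E)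
  exact h.comp measurable_swap

end MJ

open MJ

theorem gk_meas (c : ℝ) (hc : 0 ≤ c) (E : ℝ) (k : ℕ) (x y : Zd d) :
    Measurable fun ω : Zd d → ℝ => Gk c ω E k x y := by
  have e : (fun ω : Zd d → ℝ => Gk c ω E k x y) = fun ω =>
      ⟪dl x, fc (f1 (zk E k).re (zk E k).im) (TT (∅ : Finset (Zd d)) c ω) (dl y)⟫_ℂ +
        Complex.I * ⟪dl x, fc (f2 (zk E k).re (zk E k).im) (TT (∅ : Finset (Zd d)) c ω) (dl y)⟫_ℂ := by
    funext ω
    unfold Gk
    rw [rz_fc (TT (∅ : Finset (Zd d)) c ω) (TT_sa ∅ c ω) (dl y) (zk E k) (zk_im_ne E k),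
      inner_add_right, inner_smul_right]
  rw [e]
  exact (meas_entry ∅ c hc _ (f1_cont (zk_im_ne E k) _) x y).add
    ((meas_entry ∅ c hc _ (f2_cont (zk_im_ne E k) _) x y).const_mul _)

theorem gk_meas2 (c : ℝ) (hc : 0 ≤ c) (k : ℕ) (x y : Zd d) :
    Measurable fun p : (Zd d → ℝ) × ℝ => Gk c p.1 p.2 k x y :=
  cara (fun (ω : Zd d → ℝ) (E : ℝ) => Gk c ω E k x y) (fun ω => gk_cont c ω k x y)
    (fun E => gk_meas c hc E k x y)

end Pool.Agent.TH369.MU
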