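import Pool.Agent.TH369.MU.Defs
import Pool.Agent.TH369.AN.RES
import Pool.Agent.TH369.AN.OP

/-!
# Translation covariance (job MU-SH of helper369, written by helper574)
-/

set_option autoImplicit false

open MeasureTheory Filter Topology
open scoped InnerProductSpace

namespace Pool.Agent.TH369.MU

open Pool.Agent.TH369.AN

variable {d : ℕ}

namespace SH

/-- the action is translation covariant -/
lemma act_shift (c : ℝ) (ω : Zd d → ℝ) (a : Zd d) (u : Zd d → ℂ) (x : Zd d) :
    act (∅ : Finset (Zd d)) c (sh a ω) (fun y => u (y + a)) x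
      = act (∅ : Finset (Zd d)) c ω u (x + a) := by
  unfold act sh
  simp only [Finset.notMem_empty, if_false]
  congr 1
  refine Finset.sum_congr rfl fun i _ => ?_
  rw [show x + ee i + a = x + a + ee i by abel, show x - ee i + a = x + a - ee i by abel]

end SH

theorem gk_shift (c : ℝ) (ω : Zd d → ℝ) (E : ℝ) (k : ℕ) (a x y : Zd d) :
    Gk c (sh a ω) E k x y = Gk c ω E k (x + a) (y + a) := by
  have hz : (zk E k).im ≠ 0 := by
    unfold zk ep
    simp only [Complex.add_im, Complex.ofReal_im, zero_add, Complex.mul_im, Complex.ofReal_re,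
      Complex.I_im, mul_one, Complex.I_re, mul_zero, add_zero]
    positivity
  unfold Gk
  rw [inner_dl, inner_dl]
  obtain ⟨v, hv⟩ : ∃ v, v = Rz (TT (∅ : Finset (Zd d)) c ω) (zk E k) (dl (y + a)) := ⟨_, rfl⟩
  have hv1 : TT (∅ : Finset (Zd d)) c ω v - zk E k • v = dl (y + a) := by
    rw [hv]
    exact rz_eq _ (TT_sa _ _ _) _ hz _
  obtain ⟨S, hS, -⟩ := OP.exists_W (Equiv.addRight a) (fun _ : Zd d => (1 : ℂ)) 1 zero_le_one
    (fun _ => by simp)
  have hS' : ∀ (u : L2 d) (x : Zd d), (S u : Zd d → ℂ) x = (u : Zd d → ℂ) (x + a) := by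
    intro u x
    rw [hS, one_mul]
    rfl
  have hw : S v = Rz (TT (∅ : Finset (Zd d)) c (sh a ω)) (zk E k) (dl y) := by
    refine rz_uniq _ (TT_sa _ _ _) _ hz _ _ ?_
    apply lp.ext
    funext x
    rw [lp.coeFn_sub, Pi.sub_apply, TT_apply, lp.coeFn_smul, Pi.smul_apply, dl_apply]
    have h1 := congrArg (fun u : L2 d => (u : Zd d → ℂ) (x + a)) hv1
    simp only [lp.coeFn_sub, Pi.sub_apply, TT_apply, lp.coeFn_smul, Pi.smul_apply, dl_apply] at h1
    simp only [hS']
    rw [SH.act_shift c ω a (fun y => (v : Zd d → ℂ) y) x, h1]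
    simp only [add_left_inj]
  rw [← hv, ← hw, hS']

theorem sh_mp (μ : Measure ℝ) [IsProbabilityMeasure μ] (a : Zd d) :
    MeasurePreserving (sh a) (iid d μ) (iid d μ) := by
  refine ⟨?_, ?_⟩
  · exact measurable_pi_lambda _ fun x => measurable_pi_apply _
  · unfold iid
    have h := Measure.infinitePi_map_piCongrLeft (fun _ : Zd d => μ) (Equiv.addRight (-a))
    have e : (MeasurableEquiv.piCongrLeft (fun _ : Zd d => ℝ) (Equiv.addRight (-a)) :
        (Zd d → ℝ) → (Zd d → ℝ)) = sh a := by
      funext ω x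
      have h2 := Equiv.piCongrLeft_apply_apply (fun _ : Zd d => ℝ) (Equiv.addRight (-a)) ω (x + a)
      have h3 : (Equiv.addRight (-a)) (x + a) = x := by
        show x + a + -a = x
        abel
      unfold sh
      rw [← h2]
      show _ = (Equiv.piCongrLeft (fun _ : Zd d => ℝ) (Equiv.addRight (-a))) ω _
      rw [h3]
      rfl
    rw [e] at h
    exact h

end Pool.Agent.TH369.MU
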