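import Pool.Agent.TH369.MU.Defs
import Pool.Agent.TH369.MU.SH
import Pool.Agent.TH369.MU.UP
import Pool.Agent.TH369.MU.GU
import Pool.Agent.TH369.MU.MJ
import Pool.Agent.TH369.MU.IN

/-!
# Decay in probability of the Green function (job MU-DE, helper537)
-/

set_option autoImplicit false
open MeasureTheory Filter Topology
open scoped InnerProductSpace
namespace Pool.Agent.TH369.MU
open Pool.Agent.TH369.AN
variable {d : ℕ}

namespace DE

/-- a law which is not a point mass is spread out, uniformly -/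
theorem spread (μ : Measure ℝ) [IsProbabilityMeasure μ] (hnd : ∀ x : ℝ, μ {x} ≠ 1) :
    ∃ t0 p0 : ℝ, 0 < t0 ∧ 0 < p0 ∧ ∀ t : ℝ, ENNReal.ofReal p0 ≤ μ {s | t0 ≤ |s - t|} := by
  have h1 : ∃ n : ℕ, (μ.prod μ) {p : ℝ × ℝ | 1 / ((n : ℝ) + 1) ≤ |p.1 - p.2|} ≠ 0 := by
    by_contra hcon
    push Not at hcon
    have h2 : (μ.prod μ) {p : ℝ × ℝ | p.1 ≠ p.2} = 0 := by
      have : {p : ℝ × ℝ | p.1 ≠ p.2} =
          ⋃ n : ℕ, {p : ℝ × ℝ | 1 / ((n : ℝ) + 1) ≤ |p.1 - p.2|} := by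
        ext p
        simp only [Set.mem_ofPred_eq, Set.mem_iUnion]
        constructor
        · intro h
          obtain ⟨n, hn⟩ := exists_nat_one_div_lt (abs_pos.2 (sub_ne_zero.2 h))
          exact ⟨n, hn.le⟩
        · rintro ⟨n, hn⟩ h
          rw [h, sub_self, abs_zero] at hn
          have : (0 : ℝ) < 1 / ((n : ℝ) + 1) := by positivity
          linarith
      rw [this]
      exact measure_iUnion_null hcon
    have h3 : ∀ᵐ p ∂(μ.prod μ), p.1 = p.2 := by
      rw [ae_iff]; exact h2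
    have h4 := Measure.ae_ae_of_ae_prod h3
    obtain ⟨x, hx⟩ := h4.exists
    apply hnd x
    have h5 : ({x} : Set ℝ)ᶜ = {y | ¬ x = y} := by
      ext y
      simp [eq_comm]
    have h6 : μ ({x} : Set ℝ)ᶜ = 0 := by
      rw [h5]
      exact hx
    exact (prob_compl_eq_zero_iff (measurableSet_singleton x)).1 h6
  obtain ⟨n, hn⟩ := h1
  set q : ENNReal := (μ.prod μ) {p : ℝ × ℝ | 1 / ((n : ℝ) + 1) ≤ |p.1 - p.2|} with hq
  refine ⟨1 / ((n : ℝ) + 1) / 2, q.toReal / 2, by positivity, ?_, fun t => ?_⟩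
  · have : 0 < q.toReal := ENNReal.toReal_pos hn (measure_ne_top _ _)
    linarith
  · have hsub : {p : ℝ × ℝ | 1 / ((n : ℝ) + 1) ≤ |p.1 - p.2|} ⊆
        ({s | 1 / ((n : ℝ) + 1) / 2 ≤ |s - t|} ×ˢ Set.univ) ∪
          (Set.univ ×ˢ {s | 1 / ((n : ℝ) + 1) / 2 ≤ |s - t|}) := by
      intro p hp
      simp only [Set.mem_union, Set.mem_prod, Set.mem_ofPred_eq, Set.mem_univ, and_true,
        true_and] at hp ⊢
      by_contra hcon
      push Not at hcon
      have := abs_sub_le p.1 t p.2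
      rw [abs_sub_comm t p.2] at this
      linarith [hcon.1, hcon.2]
    have h2 : q ≤ μ {s | 1 / ((n : ℝ) + 1) / 2 ≤ |s - t|} +
        μ {s | 1 / ((n : ℝ) + 1) / 2 ≤ |s - t|} := by
      refine (measure_mono hsub).trans ((measure_union_le _ _).trans ?_)
      rw [Measure.prod_prod, Measure.prod_prod]
      simp
    have h3 := ENNReal.toReal_mono (by
      exact ENNReal.add_ne_top.2 ⟨measure_ne_top _ _, measure_ne_top _ _⟩) h2
    rw [ENNReal.toReal_add (measure_ne_top _ _) (measure_ne_top _ _)] at h3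
    rw [ENNReal.ofReal_le_iff_le_toReal (measure_ne_top _ _)]
    linarith

theorem cl_id {c x : ℝ} (h : |x| ≤ c) : cl c x = x := by
  have := abs_le.1 h
  simp only [cl]
  rw [min_eq_right this.2, max_eq_right this.1]

theorem det (c : ℝ) (hc : 0 ≤ c) (ω : Zd d → ℝ) (E : ℝ) (y : Zd d) (s : ℝ) (L L' Ly : ℂ)
    (t0 δ M η : ℝ) (ht0 : 0 < t0) (hδ : 0 < δ)
    (h1 : Tendsto (fun k => Gk c ω E k 0 0) atTop (𝓝 L))
    (h2 : Tendsto (fun k => Gk c (Function.update ω y s) E k 0 0) atTop (𝓝 L'))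
    (h3 : Tendsto (fun k => Gk c ω E k y y) atTop (𝓝 Ly)) (hM : ‖Ly‖ ≤ M)
    (hη : ‖L' - L‖ ≤ η) (hs : |s| ≤ c) (hy : |ω y| ≤ c) (ht : t0 ≤ |s - ω y|)
    (hsmall : η * (1 + 2 * c * M) < t0 * δ ^ 2) :
    ∀ᶠ k in atTop, ‖Gk c ω E k 0 y‖ ≤ δ := by
  set τ : ℝ := s - ω y with hτ
  have hcl : cl c s - cl c (ω y) = τ := by rw [cl_id hs, cl_id hy]
  have hτc : |τ| ≤ 2 * c := by
    have := abs_sub s (ω y)
    linarith
  have h4 : Tendsto (fun k => ‖(τ : ℂ) * Gk c ω E k 0 y ^ 2‖) atTop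
      (𝓝 ‖(L' - L) * (1 + (τ : ℂ) * Ly)‖) := by
    have h5 : Tendsto (fun k => ‖(Gk c (Function.update ω y s) E k 0 0 - Gk c ω E k 0 0) *
        (1 + (τ : ℂ) * Gk c ω E k y y)‖) atTop (𝓝 ‖(L' - L) * (1 + (τ : ℂ) * Ly)‖) :=
      ((h2.sub h1).mul (tendsto_const_nhds.add (tendsto_const_nhds.mul h3))).norm
    refine h5.congr fun k => ?_
    have := gk_update c hc ω E k 0 y s
    rw [hcl] at this
    rw [this, norm_neg]
  have h6 : ‖(L' - L) * (1 + (τ : ℂ) * Ly)‖ < t0 * δ ^ 2 := by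
    rw [norm_mul]
    have h7 : ‖1 + (τ : ℂ) * Ly‖ ≤ 1 + 2 * c * M := by
      refine (norm_add_le _ _).trans ?_
      rw [norm_one, norm_mul, Complex.norm_real, Real.norm_eq_abs]
      have : |τ| * ‖Ly‖ ≤ 2 * c * M := mul_le_mul hτc hM (norm_nonneg _) (by positivity)
      linarith
    calc ‖L' - L‖ * ‖1 + (τ : ℂ) * Ly‖ ≤ η * (1 + 2 * c * M) :=
          mul_le_mul hη h7 (norm_nonneg _) ((norm_nonneg _).trans hη)
      _ < _ := hsmall
  filter_upwards [h4.eventually_lt_const h6] with k hk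
  rw [norm_mul, norm_pow, Complex.norm_real, Real.norm_eq_abs] at hk
  have hτ0 : 0 < |τ| := ht0.trans_le ht
  have h8 : |τ| * ‖Gk c ω E k 0 y‖ ^ 2 < |τ| * δ ^ 2 := by
    refine hk.trans_le ?_
    exact mul_le_mul_of_nonneg_right ht (by positivity)
  have h9 := lt_of_mul_lt_mul_left h8 hτ0.le
  exact (lt_of_pow_lt_pow_left₀ 2 hδ.le h9).le

theorem tail (P : Measure (Zd d → ℝ)) [IsProbabilityMeasure P] (f : (Zd d → ℝ) → ℂ)
    (hf : Measurable f) (η : ℝ) (hη : 0 < η) :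
    ∃ M : ℝ, 0 ≤ M ∧ P {ω | M < ‖f ω‖} ≤ ENNReal.ofReal η := by
  have h1 : Tendsto (P ∘ fun n : ℕ => {ω | (n : ℝ) < ‖f ω‖}) atTop
      (𝓝 (P (⋂ n : ℕ, {ω | (n : ℝ) < ‖f ω‖}))) := by
    refine tendsto_measure_iInter_atTop (fun n => ?_) ?_ ⟨0, measure_ne_top _ _⟩
    · exact (measurableSet_lt measurable_const hf.norm).nullMeasurableSet
    · intro m n hmn ω hω
      simp only [Set.mem_ofPred_eq] at hω ⊢
      have : (m : ℝ) ≤ n := by exact_mod_cast hmn
      linarith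
  have h2 : (⋂ n : ℕ, {ω | (n : ℝ) < ‖f ω‖}) = ∅ := by
    ext ω
    simp only [Set.mem_iInter, Set.mem_ofPred_eq, Set.mem_empty_iff_false, iff_false, not_forall,
      not_lt]
    obtain ⟨n, hn⟩ := exists_nat_ge ‖f ω‖
    exact ⟨n, hn⟩
  rw [h2, measure_empty] at h1
  have h3 : ∀ᶠ n : ℕ in atTop, P {ω | (n : ℝ) < ‖f ω‖} < ENNReal.ofReal η :=
    h1.eventually_lt_const (ENNReal.ofReal_pos.2 hη)
  obtain ⟨n, hn⟩ := h3.exists
  exact ⟨n, Nat.cast_nonneg n, hn.le⟩

instance iid_prob (μ : Measure ℝ) [IsProbabilityMeasure μ] : IsProbabilityMeasure (iid d μ) := by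
  unfold iid
  infer_instance

theorem kap_meas (c : ℝ) (hc : 0 ≤ c) (E : ℝ) (x : Zd d) : Measurable (kap (d := d) c E x) := by
  unfold kap
  refine Measurable.liminf fun k => ?_
  exact ENNReal.measurable_ofReal.comp (Complex.measurable_im.comp (gk_meas c hc E k x x))

theorem kap_shift (c E : ℝ) (y : Zd d) (ω : Zd d → ℝ) : kap c E 0 (sh y ω) = kap c E y ω := by
  unfold kap
  simp only [gk_shift, zero_add]

end DE

open DE in
theorem decay (c : ℝ) (hc : 0 ≤ c) (μ : Measure ℝ) [IsProbabilityMeasure μ]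
    (hμ : μ (Set.Icc (-c) c)ᶜ = 0) (hnd : ∀ x : ℝ, μ {x} ≠ 1) (E : ℝ)
    (hE : ∀ᵐ ω ∂(iid d μ), Good c E ω) (δ : ℝ) (hδ : 0 < δ) :
    ∃ B : Finset (Zd d), ∀ y : Zd d, y ∉ B →
      iid d μ {ω | 0 < kap c E 0 ω ∧ 0 < kap c E y ω ∧
        ¬ ∀ᶠ k in atTop, ‖Gk c ω E k 0 y‖ ≤ δ} ≤ ENNReal.ofReal δ := by
  classical
  obtain ⟨t0, p0, ht0, hp0, hsp⟩ := spread μ hnd
  set K0 : Set (Zd d → ℝ) := {ω | 0 < kap c E 0 ω} with hK0
  have hK0m : MeasurableSet K0 := measurableSet_lt measurable_const (kap_meas c hc E 0)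
  -- the limit
  have hae : ∀ᵐ ω ∂(iid d μ), ∃ l : ℂ,
      Tendsto (fun k => K0.indicator (fun ω => Gk c ω E k 0 0) ω) atTop (𝓝 l) := by
    filter_upwards [hE] with ω hω
    by_cases h : ω ∈ K0
    · obtain ⟨L, hL⟩ := (hω 0).2 h
      exact ⟨L, by simpa only [Set.indicator_of_mem h] using hL⟩
    · exact ⟨0, by simp only [Set.indicator_of_notMem h]; exact tendsto_const_nhds⟩
  obtain ⟨f, hfm, hf⟩ := measurable_limit_of_tendsto_metrizable_ae
    (μ := iid d μ) (L := atTop)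
    (f := fun (k : ℕ) (ω : Zd d → ℝ) => K0.indicator (fun ω => Gk c ω E k 0 0) ω)
    (fun k => ((gk_meas c hc E k 0 0).indicator hK0m).aemeasurable) hae
  -- the parameters
  set η : ℝ := p0 * δ / 4 with hη
  have hη0 : 0 < η := by positivity
  obtain ⟨M, hM0, hM⟩ := tail (iid d μ) f hfm η hη0
  set η' : ℝ := min η (min (1 / 2) (t0 * δ ^ 2 / (4 * (1 + 2 * c * M)))) with hη'
  have hcM : 0 < 1 + 2 * c * M := by positivity
  have hη'0 : 0 < η' := by
    refine lt_min hη0 (lt_min (by norm_num) (by positivity))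
  have hη'1 : η' ≤ η := min_le_left _ _
  have hη'2 : η' ≤ 1 / 2 := (min_le_right _ _).trans (min_le_left _ _)
  have hη'3 : η' ≤ t0 * δ ^ 2 / (4 * (1 + 2 * c * M)) := (min_le_right _ _).trans (min_le_right _ _)
  have hsmall : 2 * η' * (1 + 2 * c * M) < t0 * δ ^ 2 := by
    rw [le_div_iff₀ (by positivity)] at hη'3
    have : 0 < t0 * δ ^ 2 := by positivity
    nlinarith
  -- the influence of far away coordinates
  obtain ⟨B1, hB1⟩ := influence μ (fun ω => (f ω).re) (Complex.measurable_re.comp hfm) η' hη'0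
  obtain ⟨B2, hB2⟩ := influence μ (fun ω => (f ω).im) (Complex.measurable_im.comp hfm) η' hη'0
  obtain ⟨B3, hB3⟩ := influence μ (K0.indicator (fun _ => (1 : ℝ)))
    (measurable_const.indicator hK0m) η' hη'0
  refine ⟨B1 ∪ B2 ∪ B3, fun y hy => ?_⟩
  have hy1 : y ∉ B1 := fun h => hy (Finset.mem_union_left _ (Finset.mem_union_left _ h))
  have hy2 : y ∉ B2 := fun h => hy (Finset.mem_union_left _ (Finset.mem_union_right _ h))
  have hy3 : y ∉ B3 := fun h => hy (Finset.mem_union_right _ h)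
  set Bd : Set (Zd d → ℝ) := {ω | 0 < kap c E 0 ω ∧ 0 < kap c E y ω ∧
        ¬ ∀ᶠ k in atTop, ‖Gk c ω E k 0 y‖ ≤ δ} with hBd
  have hBdm : MeasurableSet Bd := by
    have h1 : MeasurableSet {ω : Zd d → ℝ | ∀ᶠ k in atTop, ‖Gk c ω E k 0 y‖ ≤ δ} := by
      have : {ω : Zd d → ℝ | ∀ᶠ k in atTop, ‖Gk c ω E k 0 y‖ ≤ δ} =
          ⋃ N : ℕ, ⋂ k ∈ Set.Ici N, {ω | ‖Gk c ω E k 0 y‖ ≤ δ} := by
        ext ω
        simp [eventually_atTop]
      rw [this]
      refine MeasurableSet.iUnion fun N => MeasurableSet.biInter (Set.to_countable _) fun k _ => ?_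
      exact measurableSet_le (gk_meas c hc E k 0 y).norm measurable_const
    exact hK0m.inter ((measurableSet_lt measurable_const (kap_meas c hc E y)).inter h1.compl)
  set Ey : Set ((Zd d → ℝ) × ℝ) := {p | p.1 ∈ Bd ∧ t0 ≤ |p.2 - p.1 y|} with hEy
  have hEym : MeasurableSet Ey := by
    have h1 : MeasurableSet {p : (Zd d → ℝ) × ℝ | t0 ≤ |p.2 - p.1 y|} := by
      refine measurableSet_le measurable_const ?_
      exact (measurable_snd.sub ((measurable_pi_apply y).comp measurable_fst)).abs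
    exact (measurable_fst hBdm).inter h1
  -- lower bound for the measure of `Ey`
  have hlow : ENNReal.ofReal p0 * iid d μ Bd ≤ ((iid d μ).prod μ) Ey := by
    rw [Measure.prod_apply hEym, ← lintegral_indicator_const hBdm]
    refine lintegral_mono fun ω => ?_
    by_cases h : ω ∈ Bd
    · rw [Set.indicator_of_mem h]
      refine (hsp (ω y)).trans (measure_mono fun s hs => ?_)
      exact ⟨h, hs⟩
    · rw [Set.indicator_of_notMem h]
      exact zero_le
  -- the almost sure properties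
  have hμ' : ∀ᵐ s ∂μ, |s| ≤ c := by
    rw [ae_iff]
    refine measure_mono_null (fun s hs => ?_) hμ
    intro h
    exact hs (abs_le.2 h)
  have hs2 : ∀ᵐ p ∂((iid d μ).prod μ), |p.2| ≤ c :=
    Measure.quasiMeasurePreserving_snd.ae hμ'
  have hωy : ∀ᵐ ω ∂(iid d μ), |ω y| ≤ c := by
    have h1 := upd_mp (d := d) μ y
    have h2 : iid d μ {ω | ¬ |ω y| ≤ c} = 0 := by
      rw [← h1.measure_preimage]
      · rw [ae_iff] at hs2
        refine measure_mono_null (fun p hp => ?_) hs2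
        simpa using hp
      · exact (measurableSet_le (measurable_pi_apply y).abs measurable_const).compl.nullMeasurableSet
    exact ae_iff.2 h2
  have ha1 : ∀ᵐ p ∂((iid d μ).prod μ), |p.1 y| ≤ c := Measure.quasiMeasurePreserving_fst.ae hωy
  have ha2 := (Measure.quasiMeasurePreserving_fst (μ := iid d μ) (ν := μ)).ae hf
  have ha3 := (upd_mp (d := d) μ y).quasiMeasurePreserving.ae hf
  have ha4 := (Measure.quasiMeasurePreserving_fst (μ := iid d μ) (ν := μ)).ae
    ((sh_mp (d := d) μ y).quasiMeasurePreserving.ae hf)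
  -- the exceptional events
  set A1 : Set ((Zd d → ℝ) × ℝ) :=
    {p | η' < |(f (Function.update p.1 y p.2)).re - (f p.1).re|} with hA1
  set A2 : Set ((Zd d → ℝ) × ℝ) :=
    {p | η' < |(f (Function.update p.1 y p.2)).im - (f p.1).im|} with hA2
  set A3 : Set ((Zd d → ℝ) × ℝ) :=
    {p | η' < |K0.indicator (fun _ => (1 : ℝ)) (Function.update p.1 y p.2) -
      K0.indicator (fun _ => (1 : ℝ)) p.1|} with hA3
  set A4 : Set ((Zd d → ℝ) × ℝ) := Prod.fst ⁻¹' (sh y ⁻¹' {ω | M < ‖f ω‖}) with hA4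
  have hm4 : ((iid d μ).prod μ) A4 ≤ ENNReal.ofReal η := by
    have hms : MeasurableSet {ω | M < ‖f ω‖} := measurableSet_lt measurable_const hfm.norm
    have h1 : ((iid d μ).prod μ) A4 = iid d μ (sh y ⁻¹' {ω | M < ‖f ω‖}) := by
      have h2 : A4 = (sh y ⁻¹' {ω | M < ‖f ω‖}) ×ˢ Set.univ := by
        ext p
        simp [hA4]
      rw [h2, Measure.prod_prod, measure_univ, mul_one]
    rw [h1, (sh_mp (d := d) μ y).measure_preimage hms.nullMeasurableSet]
    exact hM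
  have hup : ((iid d μ).prod μ) Ey ≤ ((iid d μ).prod μ) (A1 ∪ A2 ∪ A3 ∪ A4) := by
    refine measure_mono_ae ?_
    filter_upwards [hs2, ha1, ha2, ha3, ha4] with p q1 q2 q3 q4 q5 hp
    by_contra hcon
    have hcon' : p ∉ A1 ∪ A2 ∪ A3 ∪ A4 := hcon
    simp only [Set.mem_union, not_or] at hcon'
    obtain ⟨⟨⟨n1, n2⟩, n3⟩, n4⟩ := hcon'
    have hpE : p.1 ∈ Bd ∧ t0 ≤ |p.2 - p.1 y| := hp
    obtain ⟨⟨k0, ky, hnot⟩, ht⟩ := hpE
    have k0' : p.1 ∈ K0 := k0
    have n1' : |(f (Function.update p.1 y p.2)).re - (f p.1).re| ≤ η' := not_lt.1 n1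
    have n2' : |(f (Function.update p.1 y p.2)).im - (f p.1).im| ≤ η' := not_lt.1 n2
    have n3' : |K0.indicator (fun _ => (1 : ℝ)) (Function.update p.1 y p.2) -
      K0.indicator (fun _ => (1 : ℝ)) p.1| ≤ η' := not_lt.1 n3
    have n4' : ‖f (sh y p.1)‖ ≤ M := not_lt.1 n4
    have ku : Function.update p.1 y p.2 ∈ K0 := by
      by_contra h
      rw [Set.indicator_of_notMem h, Set.indicator_of_mem k0'] at n3'
      norm_num at n3'
      linarith
    have ks : sh y p.1 ∈ K0 := by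
      show 0 < kap c E 0 (sh y p.1)
      rw [kap_shift]
      exact ky
    apply hnot
    have l1 : Tendsto (fun k => Gk c p.1 E k 0 0) atTop (𝓝 (f p.1)) := by
      simpa only [Set.indicator_of_mem k0'] using q3
    have l2 : Tendsto (fun k => Gk c (Function.update p.1 y p.2) E k 0 0) atTop
        (𝓝 (f (Function.update p.1 y p.2))) := by
      simpa only [Set.indicator_of_mem ku] using q4
    have l3 : Tendsto (fun k => Gk c p.1 E k y y) atTop (𝓝 (f (sh y p.1))) := by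
      simpa only [Set.indicator_of_mem ks, gk_shift, zero_add] using q5
    refine det c hc p.1 E y p.2 _ _ _ t0 δ M (2 * η') ht0 hδ l1 l2 l3 n4' ?_ q1 q2 ht hsmall
    refine (Complex.norm_le_abs_re_add_abs_im _).trans ?_
    rw [Complex.sub_re, Complex.sub_im]
    linarith
  have hsum : ((iid d μ).prod μ) (A1 ∪ A2 ∪ A3 ∪ A4) ≤ ENNReal.ofReal (4 * η) := by
    have e1 : ((iid d μ).prod μ) A1 ≤ ENNReal.ofReal η :=
      (hB1 y hy1).trans (ENNReal.ofReal_le_ofReal hη'1)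
    have e2 : ((iid d μ).prod μ) A2 ≤ ENNReal.ofReal η :=
      (hB2 y hy2).trans (ENNReal.ofReal_le_ofReal hη'1)
    have e3 : ((iid d μ).prod μ) A3 ≤ ENNReal.ofReal η :=
      (hB3 y hy3).trans (ENNReal.ofReal_le_ofReal hη'1)
    have e4 : ENNReal.ofReal (4 * η) = ENNReal.ofReal η + ENNReal.ofReal η + ENNReal.ofReal η +
        ENNReal.ofReal η := by
      rw [← ENNReal.ofReal_add hη0.le hη0.le, ← ENNReal.ofReal_add (by positivity) hη0.le,
        ← ENNReal.ofReal_add (by positivity) hη0.le]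
      congr 1
      ring
    rw [e4]
    refine (measure_union_le _ _).trans (add_le_add ?_ hm4)
    refine (measure_union_le _ _).trans (add_le_add ?_ e3)
    exact (measure_union_le _ _).trans (add_le_add e1 e2)
  have hfin : ENNReal.ofReal p0 * iid d μ Bd ≤ ENNReal.ofReal p0 * ENNReal.ofReal δ := by
    refine (hlow.trans (hup.trans hsum)).trans (le_of_eq ?_)
    rw [← ENNReal.ofReal_mul hp0.le]
    congr 1
    rw [hη]
    ring
  have hp0' : ENNReal.ofReal p0 ≠ 0 := (ENNReal.ofReal_pos.2 hp0).ne'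
  exact (ENNReal.mul_le_mul_iff_right hp0' ENNReal.ofReal_ne_top).1 hfin

end Pool.Agent.TH369.MU
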