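import Pool.Agent.TH369.AN.Defs

/-!
# Infinite multiplicity of the absolutely continuous spectrum of the Anderson model.
Definitions (team MU, helper369).
-/

set_option autoImplicit false

open MeasureTheory Filter Topology
open scoped InnerProductSpace

namespace Pool.Agent.TH369.MU

open Pool.Agent.TH369.AN

/-- the height `1 / (k + 1)` -/
noncomputable def ep (k : ℕ) : ℝ := 1 / ((k : ℝ) + 1)

/-- the point `E + i / (k + 1)` -/
noncomputable def zk (E : ℝ) (k : ℕ) : ℂ := (E : ℂ) + (ep k : ℂ) * Complex.I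

section abs

variable {X : Type} [NormedAddCommGroup X] [InnerProductSpace ℂ X]

/-- `√ε_k ‖(T - z_k)⁻¹ φ‖` -/
noncomputable def qk (T : X →L[ℂ] X) (E : ℝ) (k : ℕ) (φ : X) : ℝ :=
  Real.sqrt (ep k) * ‖Rz T (zk E k) φ‖

/-- `⟨φ, (T - z_k)⁻¹ φ⟩` -/
noncomputable def Fk (T : X →L[ℂ] X) (E : ℝ) (k : ℕ) (φ : X) : ℂ := ⟪φ, Rz T (zk E k) φ⟫_ℂ

/-- `m` is the spectral measure of `φ` -/
def SpM (T : X →L[ℂ] X) (φ : X) (m : Measure ℝ) : Prop :=
  IsFiniteMeasure m ∧ ∀ z : ℂ, z.im ≠ 0 → ⟪φ, Rz T z φ⟫_ℂ = ∫ x : ℝ, ((x : ℂ) - z)⁻¹ ∂m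

/-- the span of the vectors `T^l f_i` -/
def cyc (T : X →L[ℂ] X) {n : ℕ} (f : Fin n → X) : Submodule ℂ X :=
  Submodule.span ℂ {v | ∃ (i : Fin n) (l : ℕ), v = (T ^ l) (f i)}

end abs

variable {d : ℕ}

/-- Green's function of the lattice operator at `z_k` -/
noncomputable def Gk (c : ℝ) (ω : Zd d → ℝ) (E : ℝ) (k : ℕ) (x y : Zd d) : ℂ :=
  ⟪dl x, Rz (TT (∅ : Finset (Zd d)) c ω) (zk E k) (dl y)⟫_ℂ

/-- `π` times the density at `E` of the spectral measure of the site `x` -/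
noncomputable def kap (c E : ℝ) (x : Zd d) (ω : Zd d → ℝ) : ENNReal :=
  liminf (fun k => ENNReal.ofReal (Gk c ω E k x x).im) atTop

/-- the shift by `a` -/
def sh (a : Zd d) (ω : Zd d → ℝ) : Zd d → ℝ := fun x => ω (x + a)

/-- boundary values exist at `E` -/
def Good (c E : ℝ) (ω : Zd d → ℝ) : Prop := ∀ x : Zd d,
  (∃ l : ℝ, Tendsto (fun k => (Gk c ω E k x x).im) atTop (𝓝 l)) ∧
  (0 < kap c E x ω → ∃ L : ℂ, Tendsto (fun k => Gk c ω E k x x) atTop (𝓝 L))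

/-- if the density is positive somewhere then it is positive and almost diagonal on `n` sites -/
def Star (c E : ℝ) (ω : Zd d → ℝ) : Prop := (∃ x : Zd d, 0 < kap c E x ω) → ∀ n : ℕ,
  ∃ (x : Fin n → Zd d) (m : ℕ), ∀ᶠ k in atTop,
    (∀ i, ep m ≤ (Gk c ω E k (x i) (x i)).im) ∧
    ∀ i j, i ≠ j → ‖Gk c ω E k (x i) (x j)‖ ≤ ep m / (2 * ((n : ℝ) + 1))

end Pool.Agent.TH369.MU
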