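import Pool.Agent.TH369.MU.Defs

/-! # MU-PO1: Poisson integrals at a point where the measure has a derivative -/

set_option autoImplicit false
open MeasureTheory Filter Topology
open scoped InnerProductSpace
namespace Pool.Agent.TH369.MU
open Pool.Agent.TH369.AN

namespace PO1

open Set

/-- minus the derivative of `1 / (1 + t ^ 2)` -/
noncomputable def ker (t : ℝ) : ℝ := 2 * t / (1 + t ^ 2) ^ 2

theorem ker_nonneg {t : ℝ} (ht : 0 ≤ t) : 0 ≤ ker t := by
  unfold ker; positivity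

theorem ker_deriv (t : ℝ) : HasDerivAt (fun t : ℝ => -(1 + t ^ 2)⁻¹) (ker t) t := by
  have h1 : HasDerivAt (fun t : ℝ => 1 + t ^ 2) (2 * t) t := by
    simpa using ((hasDerivAt_id t).pow 2).const_add 1
  have h2 := (h1.inv (by positivity : (1 + t ^ 2) ≠ 0)).neg
  refine h2.congr_deriv ?_
  unfold ker
  ring

theorem ker_tendsto : Tendsto (fun t : ℝ => -(1 + t ^ 2)⁻¹) atTop (𝓝 0) := by
  have h1 : Tendsto (fun t : ℝ => 1 + t ^ 2) atTop atTop :=
    tendsto_atTop_add_const_left _ _ (tendsto_pow_atTop (by norm_num))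
  simpa using (tendsto_inv_atTop_zero.comp h1).neg

theorem ker_integrable (u : ℝ) (hu : 0 ≤ u) : IntegrableOn ker (Ioi u) :=
  integrableOn_Ioi_deriv_of_nonneg' (fun x _ => ker_deriv x)
    (fun _ hx => ker_nonneg (hu.trans (le_of_lt hx))) ker_tendsto

theorem ker_integral (u : ℝ) (hu : 0 ≤ u) : ∫ t in Ioi u, ker t = (1 + u ^ 2)⁻¹ := by
  rw [integral_Ioi_of_hasDerivAt_of_nonneg' (fun x _ => ker_deriv x)
    (fun _ hx => ker_nonneg (hu.trans (le_of_lt hx))) ker_tendsto]
  ring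

/-- the limit kernel -/
noncomputable def k2 (t : ℝ) : ℝ := 4 * t ^ 2 / (1 + t ^ 2) ^ 2

theorem k2_nonneg (t : ℝ) : 0 ≤ k2 t := by
  unfold k2; positivity

theorem k2_deriv (t : ℝ) :
    HasDerivAt (fun t : ℝ => 2 * Real.arctan t - 2 * t / (1 + t ^ 2)) (k2 t) t := by
  have h1 : HasDerivAt (fun t : ℝ => 1 + t ^ 2) (2 * t) t := by
    simpa using ((hasDerivAt_id t).pow 2).const_add 1
  have h2 : HasDerivAt (fun t : ℝ => 2 * t) 2 t := by
    simpa using (hasDerivAt_id t).const_mul 2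
  have h3 := ((Real.hasDerivAt_arctan t).const_mul 2).sub
    (h2.div h1 (by positivity : (1 + t ^ 2) ≠ 0))
  refine h3.congr_deriv ?_
  unfold k2
  field_simp
  ring

theorem k2_tendsto :
    Tendsto (fun t : ℝ => 2 * Real.arctan t - 2 * t / (1 + t ^ 2)) atTop (𝓝 Real.pi) := by
  have h1 : Tendsto Real.arctan atTop (𝓝 (Real.pi / 2)) :=
    Real.tendsto_arctan_atTop.mono_right nhdsWithin_le_nhds
  have h2 : Tendsto (fun t : ℝ => 2 * t / (1 + t ^ 2)) atTop (𝓝 0) := by
    have h3 : Tendsto (fun t : ℝ => 2 * t⁻¹) atTop (𝓝 0) := by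
      simpa using tendsto_inv_atTop_zero.const_mul (2 : ℝ)
    refine squeeze_zero' ?_ ?_ h3
    · filter_upwards [eventually_ge_atTop 0] with t ht
      positivity
    · filter_upwards [eventually_gt_atTop 0] with t ht
      rw [div_le_iff₀ (by positivity)]
      have : 2 * t⁻¹ * (1 + t ^ 2) = 2 * t⁻¹ + 2 * t := by field_simp
      rw [this]
      have : 0 ≤ 2 * t⁻¹ := by positivity
      linarith
  have h4 := (h1.const_mul 2).sub h2
  simpa [mul_div_cancel₀] using h4

theorem k2_integrable : IntegrableOn k2 (Ioi 0) :=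
  integrableOn_Ioi_deriv_of_nonneg' (fun x _ => k2_deriv x) (fun x _ => k2_nonneg x) k2_tendsto

theorem k2_integral : ∫ t in Ioi 0, k2 t = Real.pi := by
  rw [integral_Ioi_of_hasDerivAt_of_nonneg' (fun x _ => k2_deriv x) (fun x _ => k2_nonneg x)
    k2_tendsto]
  simp

/-- the Poisson kernel as an average of indicators -/
theorem poisson_eq {ε : ℝ} (hε : 0 < ε) (y : ℝ) :
    ∫ t in Ioi (0 : ℝ), ({t : ℝ | |y| ≤ ε * t}.indicator (fun t => ε⁻¹ * ker t)) t =
      ε / (y ^ 2 + ε ^ 2) := by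
  have hu : 0 ≤ |y| / ε := by positivity
  have hset : {t : ℝ | |y| ≤ ε * t} = Ici (|y| / ε) := by
    ext t
    rw [mem_ofPred_eq, mem_Ici, div_le_iff₀ hε, mul_comm]
  rw [hset, setIntegral_indicator measurableSet_Ici]
  have hae : (Ioi (0 : ℝ) ∩ Ici (|y| / ε) : Set ℝ) =ᵐ[volume] Ioi (|y| / ε) := by
    have h1 : (Ioi (0 : ℝ) ∩ Ici (|y| / ε) : Set ℝ) =ᵐ[volume]
      (Ioi (0 : ℝ) ∩ Ioi (|y| / ε) : Set ℝ) := (ae_eq_refl _).inter Ioi_ae_eq_Ici.symm
    rwa [Ioi_inter_Ioi, sup_eq_right.2 hu] at h1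
  rw [setIntegral_congr_set hae, integral_const_mul, ker_integral _ hu, div_pow, sq_abs]
  field_simp
  ring

theorem swap (m : Measure ℝ) [IsFiniteMeasure m] (E : ℝ) {ε : ℝ} (hε : 0 < ε) :
    ∫ x, ε / ((x - E) ^ 2 + ε ^ 2) ∂m =
      ∫ t in Ioi (0 : ℝ), k2 t * (m.real (Icc (E - ε * t) (E + ε * t)) / (2 * (ε * t))) := by
  have h1 : ∀ x : ℝ, ε / ((x - E) ^ 2 + ε ^ 2) =
      ∫ t in Ioi (0 : ℝ), ({t : ℝ | |x - E| ≤ ε * t}.indicator (fun t => ε⁻¹ * ker t)) t :=
    fun x => (poisson_eq hε (x - E)).symm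
  simp only [h1]
  have hS : MeasurableSet {z : ℝ × ℝ | |z.1 - E| ≤ ε * z.2} :=
    measurableSet_le (by fun_prop) (by fun_prop)
  have hfun : (Function.uncurry fun (x t : ℝ) =>
      ({t : ℝ | |x - E| ≤ ε * t}.indicator (fun t => ε⁻¹ * ker t)) t) =
      {z : ℝ × ℝ | |z.1 - E| ≤ ε * z.2}.indicator (fun z => ε⁻¹ * ker z.2) := by
    funext z
    obtain ⟨x, t⟩ := z
    simp only [Function.uncurry_apply_pair, indicator, mem_ofPred_eq]
  have hint : Integrable (Function.uncurry fun (x t : ℝ) =>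
      ({t : ℝ | |x - E| ≤ ε * t}.indicator (fun t => ε⁻¹ * ker t)) t)
      (m.prod (volume.restrict (Ioi (0 : ℝ)))) := by
    rw [hfun]
    apply Integrable.indicator _ hS
    have h2 : Integrable (fun z : ℝ × ℝ => (1 : ℝ) * (ε⁻¹ * ker z.2))
        (m.prod (volume.restrict (Ioi (0 : ℝ)))) :=
      Integrable.mul_prod (f := fun _ : ℝ => (1 : ℝ)) (integrable_const _)
        ((ker_integrable 0 le_rfl).const_mul ε⁻¹)
    simpa using h2
  rw [integral_integral_swap hint]
  refine setIntegral_congr_fun measurableSet_Ioi fun t ht => ?_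
  have ht0 : (0 : ℝ) < t := ht
  have h3 : (fun x : ℝ => ({t : ℝ | |x - E| ≤ ε * t}.indicator (fun t => ε⁻¹ * ker t)) t) =
      (Icc (E - ε * t) (E + ε * t)).indicator (fun _ => ε⁻¹ * ker t) := by
    funext x
    simp only [indicator, mem_ofPred_eq, mem_Icc]
    have : |x - E| ≤ ε * t ↔ E - ε * t ≤ x ∧ x ≤ E + ε * t := by
      rw [abs_le]
      constructor
      · rintro ⟨h1, h2⟩; exact ⟨by linarith, by linarith⟩
      · rintro ⟨h1, h2⟩; exact ⟨by linarith, by linarith⟩
    simp only [this]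
  simp only [h3]
  rw [integral_indicator_const _ measurableSet_Icc, smul_eq_mul]
  unfold ker k2
  field_simp
  ring

end PO1

open PO1 in
theorem poisson_lim (m : Measure ℝ) [IsFiniteMeasure m] (E ρ : ℝ)
    (h : Tendsto (fun r : ℝ => m.real (Set.Icc (E - r) (E + r)) / (2 * r)) (𝓝[>] 0) (𝓝 ρ)) :
    Tendsto (fun ε : ℝ => ∫ x, ε / ((x - E) ^ 2 + ε ^ 2) ∂m) (𝓝[>] 0) (𝓝 (Real.pi * ρ)) := by
  -- the quotient is bounded
  obtain ⟨B, hB⟩ : ∃ B : ℝ, ∀ r : ℝ, 0 < r → m.real (Set.Icc (E - r) (E + r)) / (2 * r) ≤ B := by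
    have h1 : ∀ᶠ r : ℝ in 𝓝[>] 0, m.real (Set.Icc (E - r) (E + r)) / (2 * r) ≤ ρ + 1 :=
      (h.eventually (eventually_le_nhds (by linarith : ρ < ρ + 1)))
    rw [eventually_nhdsWithin_iff, Metric.eventually_nhds_iff] at h1
    obtain ⟨r0, hr0, h2⟩ := h1
    refine ⟨max (ρ + 1) (m.real Set.univ / (2 * r0)), fun r hr => ?_⟩
    rcases lt_or_ge r r0 with h3 | h3
    · refine le_max_of_le_left (h2 ?_ hr)
      rw [Real.dist_eq, sub_zero, abs_of_pos hr]
      exact h3
    · refine le_max_of_le_right ?_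
      have h4 : m.real (Set.Icc (E - r) (E + r)) ≤ m.real Set.univ :=
        measureReal_mono (Set.subset_univ _)
      gcongr
  have key : Tendsto (fun ε : ℝ => ∫ t in Set.Ioi (0 : ℝ),
      k2 t * (m.real (Set.Icc (E - ε * t) (E + ε * t)) / (2 * (ε * t)))) (𝓝[>] 0)
      (𝓝 (∫ t in Set.Ioi (0 : ℝ), k2 t * ρ)) := by
    refine tendsto_integral_filter_of_dominated_convergence (fun t => k2 t * B) ?_ ?_ ?_ ?_
    · filter_upwards [self_mem_nhdsWithin] with ε hε
      have hε0 : (0 : ℝ) < ε := hε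
      apply Measurable.aestronglyMeasurable
      have hm : Measurable fun r : ℝ => m.real (Set.Icc (E - r) (E + r)) := by
        have hmono : Monotone fun r : ℝ => m.real (Set.Icc (E - r) (E + r)) := by
          intro a b hab
          exact measureReal_mono (Set.Icc_subset_Icc (by linarith) (by linarith))
        exact hmono.measurable
      have hk : Measurable k2 := by unfold k2; fun_prop
      have hm2 : Measurable fun t : ℝ => m.real (Set.Icc (E - ε * t) (E + ε * t)) :=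
        hm.comp (measurable_const_mul ε)
      exact hk.mul (hm2.div (by fun_prop))
    · filter_upwards [self_mem_nhdsWithin] with ε hε
      have hε0 : (0 : ℝ) < ε := hε
      refine (ae_restrict_iff' measurableSet_Ioi).2 (Eventually.of_forall fun t ht => ?_)
      have ht0 : (0 : ℝ) < t := ht
      have h5 : 0 ≤ m.real (Set.Icc (E - ε * t) (E + ε * t)) / (2 * (ε * t)) := by positivity
      rw [Real.norm_of_nonneg (mul_nonneg (k2_nonneg t) h5)]
      exact mul_le_mul_of_nonneg_left (hB (ε * t) (by positivity)) (k2_nonneg t)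
    · exact k2_integrable.mul_const B
    · refine (ae_restrict_iff' measurableSet_Ioi).2 (Eventually.of_forall fun t ht => ?_)
      have ht0 : (0 : ℝ) < t := ht
      have h6 : Tendsto (fun ε : ℝ => ε * t) (𝓝[>] 0) (𝓝[>] 0) := by
        refine tendsto_nhdsWithin_iff.2 ⟨?_, ?_⟩
        · have : Tendsto (fun ε : ℝ => ε * t) (𝓝 0) (𝓝 (0 * t)) :=
            (continuous_id.mul continuous_const).tendsto 0
          rw [zero_mul] at this
          exact this.mono_left nhdsWithin_le_nhds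
        · filter_upwards [self_mem_nhdsWithin] with ε hε
          exact mul_pos hε ht0
      exact (h.comp h6).const_mul (k2 t)
  rw [integral_mul_const, k2_integral] at key
  refine key.congr' ?_
  filter_upwards [self_mem_nhdsWithin] with ε hε
  exact (swap m E hε).symm

end Pool.Agent.TH369.MU
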