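import Pool.Agent.TH369.MU.Defs
import Pool.Agent.TH369.MU.PO1

/-!
# Poisson integrals of a finite measure converge almost everywhere to `π` times the density
-/

set_option autoImplicit false
open MeasureTheory Filter Topology
open scoped InnerProductSpace
namespace Pool.Agent.TH369.MU
open Pool.Agent.TH369.AN

namespace PO2

lemma ep_pos (k : ℕ) : 0 < ep k := by
  unfold ep
  positivity

lemma ep_tendsto : Tendsto ep atTop (𝓝[>] 0) := by
  rw [tendsto_nhdsWithin_iff]
  exact ⟨tendsto_one_div_add_atTop_nhds_zero_nat, Eventually.of_forall fun k => ep_pos k⟩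

end PO2

theorem poisson_ae (m : Measure ℝ) [IsFiniteMeasure m] :
    ∀ᵐ E : ℝ, Tendsto (fun k : ℕ => ∫ x, ep k / ((x - E) ^ 2 + ep k ^ 2) ∂m) atTop
      (𝓝 (Real.pi * (m.rnDeriv volume E).toReal)) := by
  filter_upwards [Besicovitch.ae_tendsto_rnDeriv m (volume : Measure ℝ),
    m.rnDeriv_lt_top (volume : Measure ℝ)] with E h1 h2
  have h3 : Tendsto (fun r : ℝ => m.real (Set.Icc (E - r) (E + r)) / (2 * r)) (𝓝[>] 0)
      (𝓝 (m.rnDeriv volume E).toReal) := by
    have h4 := (ENNReal.tendsto_toReal h2.ne).comp h1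
    refine h4.congr' ?_
    filter_upwards [self_mem_nhdsWithin] with r hr
    have hr0 : (0 : ℝ) < r := hr
    simp only [Function.comp]
    rw [ENNReal.toReal_div, Real.closedBall_eq_Icc, Real.volume_Icc,
      ENNReal.toReal_ofReal (by linarith)]
    rw [Measure.real]
    congr 1
    ring
  exact (poisson_lim m E _ h3).comp PO2.ep_tendsto

end Pool.Agent.TH369.MU
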