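import Pool.Agent.TH369.MU.Defs
import Pool.Agent.TH369.AN.RES

/-!
# Basic facts on the seminorms `qk`
(job MU-QB of helper369, written by helper113)
-/

set_option autoImplicit false

open MeasureTheory Filter Topology
open scoped InnerProductSpace

namespace Pool.Agent.TH369.MU

open Pool.Agent.TH369.AN

variable {X : Type} [NormedAddCommGroup X] [InnerProductSpace ℂ X] [CompleteSpace X]

namespace QB

theorem ep_pos (k : ℕ) : 0 < ep k := by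
  unfold ep
  positivity

theorem zk_im (E : ℝ) (k : ℕ) : (zk E k).im = ep k := by
  unfold zk
  simp

theorem zk_im_ne (E : ℝ) (k : ℕ) : (zk E k).im ≠ 0 := by
  rw [zk_im]
  exact (ep_pos k).ne'

theorem zk_sub_conj (E : ℝ) (k : ℕ) :
    zk E k - (starRingEnd ℂ) (zk E k) = 2 * Complex.I * (ep k : ℂ) := by
  unfold zk
  simp only [map_add, map_mul, Complex.conj_ofReal, Complex.conj_I]
  ring

/-- the two scalar products -/
theorem inner_diff (T : X →L[ℂ] X) (hT : IsSelfAdjoint T) (E : ℝ) (k : ℕ) (φ ψ : X) :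
    ⟪φ, Rz T (zk E k) ψ⟫_ℂ - (starRingEnd ℂ) ⟪ψ, Rz T (zk E k) φ⟫_ℂ =
      2 * Complex.I * (ep k : ℂ) * ⟪Rz T (zk E k) φ, Rz T (zk E k) ψ⟫_ℂ := by
  have hu : T (Rz T (zk E k) φ) - zk E k • Rz T (zk E k) φ = φ :=
    rz_eq T hT (zk E k) (zk_im_ne E k) φ
  have hv : T (Rz T (zk E k) ψ) - zk E k • Rz T (zk E k) ψ = ψ :=
    rz_eq T hT (zk E k) (zk_im_ne E k) ψ
  obtain ⟨u, hu'⟩ : ∃ u : X, u = Rz T (zk E k) φ := ⟨_, rfl⟩
  obtain ⟨v, hv'⟩ : ∃ v : X, v = Rz T (zk E k) ψ := ⟨_, rfl⟩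
  rw [← hu'] at hu ⊢
  rw [← hv'] at hv ⊢
  have h1 : ⟪φ, v⟫_ℂ = ⟪T u, v⟫_ℂ - (starRingEnd ℂ) (zk E k) * ⟪u, v⟫_ℂ := by
    conv_lhs => rw [← hu]
    rw [inner_sub_left, inner_smul_left]
  have h2 : (starRingEnd ℂ) ⟪ψ, u⟫_ℂ = ⟪u, T v⟫_ℂ - zk E k * ⟪u, v⟫_ℂ := by
    rw [inner_conj_symm]
    conv_lhs => rw [← hv]
    rw [inner_sub_right, inner_smul_right]
  have h3 : ⟪T u, v⟫_ℂ = ⟪u, T v⟫_ℂ :=
    (ContinuousLinearMap.isSelfAdjoint_iff_isSymmetric.mp hT) u v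
  rw [h1, h2, h3, ← zk_sub_conj]
  ring

end QB

theorem qk_nonneg (T : X →L[ℂ] X) (E : ℝ) (k : ℕ) (φ : X) : 0 ≤ qk T E k φ := by
  unfold qk
  positivity

theorem qk_add (T : X →L[ℂ] X) (E : ℝ) (k : ℕ) (φ ψ : X) :
    qk T E k (φ + ψ) ≤ qk T E k φ + qk T E k ψ := by
  unfold qk
  rw [map_add, ← mul_add]
  exact mul_le_mul_of_nonneg_left (norm_add_le _ _) (Real.sqrt_nonneg _)

theorem qk_smul (T : X →L[ℂ] X) (E : ℝ) (k : ℕ) (a : ℂ) (φ : X) :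
    qk T E k (a • φ) = ‖a‖ * qk T E k φ := by
  unfold qk
  rw [map_smul, norm_smul]
  ring

theorem qk_sum (T : X →L[ℂ] X) (E : ℝ) (k : ℕ) {ι : Type} (s : Finset ι) (a : ι → ℂ) (g : ι → X) :
    qk T E k (∑ j ∈ s, a j • g j) ≤ ∑ j ∈ s, ‖a j‖ * qk T E k (g j) := by
  classical
  induction s using Finset.induction_on with
  | empty => simp [qk]
  | insert i s hi ih =>
    rw [Finset.sum_insert hi, Finset.sum_insert hi]
    refine (qk_add T E k _ _).trans ?_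
    rw [qk_smul]
    linarith

theorem qk_sq (T : X →L[ℂ] X) (hT : IsSelfAdjoint T) (E : ℝ) (k : ℕ) (φ : X) :
    qk T E k φ ^ 2 = (Fk T E k φ).im := by
  have h := QB.inner_diff T hT E k φ φ
  have h2 := congrArg Complex.im h
  rw [inner_self_eq_norm_sq_to_K] at h2
  unfold qk Fk
  rw [mul_pow, Real.sq_sqrt (QB.ep_pos k).le]
  have h3 : (2 * Complex.I * (ep k : ℂ) * ((‖Rz T (zk E k) φ‖ : ℝ) : ℂ) ^ 2).im =
      2 * (ep k * ‖Rz T (zk E k) φ‖ ^ 2) := by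
    have : 2 * Complex.I * (ep k : ℂ) * ((‖Rz T (zk E k) φ‖ : ℝ) : ℂ) ^ 2 =
        ((2 * (ep k * ‖Rz T (zk E k) φ‖ ^ 2) : ℝ) : ℂ) * Complex.I := by
      push_cast
      ring
    rw [this, Complex.im_ofReal_mul, Complex.I_im, mul_one]
  have h4 : (⟪φ, Rz T (zk E k) φ⟫_ℂ - (starRingEnd ℂ) ⟪φ, Rz T (zk E k) φ⟫_ℂ).im =
      2 * (⟪φ, Rz T (zk E k) φ⟫_ℂ).im := by
    rw [Complex.sub_im, Complex.conj_im]
    ring
  rw [h4] at h2
  have h5 : 2 * (⟪φ, Rz T (zk E k) φ⟫_ℂ).im = 2 * (ep k * ‖Rz T (zk E k) φ‖ ^ 2) := h2.trans h3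
  linarith

theorem qk_mul (T : X →L[ℂ] X) (hT : IsSelfAdjoint T) (E : ℝ) (k : ℕ) (ψ : X) :
    qk T E k (T ψ - (E : ℂ) • ψ) ≤ Real.sqrt (ep k) * ‖ψ‖ + ep k * qk T E k ψ := by
  have h1 : ψ = Rz T (zk E k) (T ψ - zk E k • ψ) :=
    rz_uniq T hT (zk E k) (QB.zk_im_ne E k) ψ _ rfl
  have h2 : T ψ - (E : ℂ) • ψ = (T ψ - zk E k • ψ) + ((ep k : ℂ) * Complex.I) • ψ := by
    unfold zk
    rw [add_smul]
    abel
  have h3 : Rz T (zk E k) (T ψ - (E : ℂ) • ψ) =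
      ψ + ((ep k : ℂ) * Complex.I) • Rz T (zk E k) ψ := by
    rw [h2, map_add, map_smul, ← h1]
  have h4 : ‖(ep k : ℂ) * Complex.I‖ = ep k := by
    rw [norm_mul, Complex.norm_I, mul_one, Complex.norm_real, Real.norm_eq_abs,
      abs_of_pos (QB.ep_pos k)]
  unfold qk
  rw [h3]
  calc Real.sqrt (ep k) * ‖ψ + ((ep k : ℂ) * Complex.I) • Rz T (zk E k) ψ‖
      ≤ Real.sqrt (ep k) * (‖ψ‖ + ep k * ‖Rz T (zk E k) ψ‖) := by
        refine mul_le_mul_of_nonneg_left ?_ (Real.sqrt_nonneg _)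
        refine (norm_add_le _ _).trans ?_
        rw [norm_smul, h4]
    _ = _ := by ring

theorem inner_rz (T : X →L[ℂ] X) (hT : IsSelfAdjoint T) (E : ℝ) (k : ℕ) (φ ψ : X) :
    (ep k : ℂ) * ⟪Rz T (zk E k) φ, Rz T (zk E k) ψ⟫_ℂ =
      (⟪φ, Rz T (zk E k) ψ⟫_ℂ - (starRingEnd ℂ) ⟪ψ, Rz T (zk E k) φ⟫_ℂ) / (2 * Complex.I) := by
  rw [QB.inner_diff T hT E k φ ψ, eq_div_iff (by simp)]
  ring

end Pool.Agent.TH369.MU
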