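import Pool.Agent.TH369.MU.Defs
import Pool.Agent.TH369.AN.RES
import Pool.Agent.TH369.MU.PO2
import Pool.Agent.TH369.MU.QB
set_option autoImplicit false
open MeasureTheory Filter Topology
open scoped InnerProductSpace
namespace Pool.Agent.TH369.MU
open Pool.Agent.TH369.AN
variable {X : Type} [NormedAddCommGroup X] [InnerProductSpace ℂ X] [CompleteSpace X]

namespace QA

theorem ep_pos (k : ℕ) : 0 < ep k := by
  unfold ep
  positivity

theorem im_inv (x E : ℝ) (k : ℕ) :
    (((x : ℂ) - zk E k)⁻¹).im = ep k / ((x - E) ^ 2 + ep k ^ 2) := by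
  have h1 : ((x : ℂ) - zk E k) = ⟨x - E, -ep k⟩ := by
    apply Complex.ext <;> simp [zk]
  rw [h1, Complex.inv_im, Complex.normSq_mk]
  congr 1
  · simp
  · ring

theorem integrable_inv (m : Measure ℝ) [IsFiniteMeasure m] (E : ℝ) (k : ℕ) :
    Integrable (fun x : ℝ => ((x : ℂ) - zk E k)⁻¹) m := by
  have he := ep_pos k
  have hcont : Continuous (fun x : ℝ => ((x : ℂ) - zk E k)⁻¹) := by
    apply Continuous.inv₀ (by fun_prop)
    intro x hx
    have := congrArg Complex.im hx
    simp [zk] at this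
    linarith
  apply Integrable.of_bound hcont.aestronglyMeasurable (C := 1 / ep k)
  refine ae_of_all _ fun x => ?_
  rw [norm_inv, one_div]
  apply inv_anti₀ he
  have h1 := Complex.abs_im_le_norm ((x : ℂ) - zk E k)
  have h2 : ((x : ℂ) - zk E k).im = -ep k := by simp [zk]
  rw [h2, abs_neg, abs_of_pos he] at h1
  exact h1

end QA

theorem qk_ae (T : X →L[ℂ] X) (hT : IsSelfAdjoint T) (φ : X) (m : Measure ℝ) (hm : SpM T φ m) :
    ∀ᵐ E : ℝ, Tendsto (fun k => qk T E k φ ^ 2) atTop
      (𝓝 (Real.pi * (m.rnDeriv volume E).toReal)) := by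
  obtain ⟨hfin, hF⟩ := hm
  filter_upwards [poisson_ae m] with E hE
  refine hE.congr fun k => ?_
  have he := QA.ep_pos k
  rw [qk_sq T hT E k φ]
  unfold Fk
  have him : (zk E k).im ≠ 0 := by
    simp [zk]
    exact he.ne'
  rw [hF _ him]
  have h1 := integral_im (QA.integrable_inv m E k)
  simp only [RCLike.im_to_complex] at h1
  rw [← h1]
  congr 1
  funext x
  exact (QA.im_inv x E k).symm

end Pool.Agent.TH369.MU
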