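import Pool.Agent.TH369.MU.Defs
import Pool.Agent.TH369.AN.RES
import Pool.Agent.TH369.MU.QB
import Pool.Agent.TH369.MU.SM
import Pool.Agent.TH369.MU.QA
set_option autoImplicit false
open MeasureTheory Filter Topology
open scoped InnerProductSpace
namespace Pool.Agent.TH369.MU
open Pool.Agent.TH369.AN
variable {X : Type} [NormedAddCommGroup X] [InnerProductSpace ℂ X] [CompleteSpace X]

theorem qk_lim (T : X →L[ℂ] X) (hT : IsSelfAdjoint T) (g : ℕ → X) (C : ℝ)
    (hg : ∀ m, ‖g m‖ ≤ C * (1 / 2) ^ m) :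
    ∀ᵐ E : ℝ, ∀ δ > 0, ∃ M, ∀ m ≥ M, ∀ᶠ k in atTop, qk T E k (g m) ≤ δ := by
  choose μ hμ hmass using fun m => spm_exists T hT (g m)
  have h1 : ∀ᵐ E : ℝ, ∀ m, Tendsto (fun k => qk T E k (g m) ^ 2) atTop
      (𝓝 (Real.pi * ((μ m).rnDeriv volume E).toReal)) :=
    ae_all_iff.2 fun m => qk_ae T hT (g m) (μ m) (hμ m)
  have hC0 : 0 ≤ C := by
    have := (norm_nonneg _).trans (hg 0)
    simpa using this
  have h2 : ∑' m, ∫⁻ E, (μ m).rnDeriv volume E ≠ ⊤ := by
    have h3 : ∑' m, ∫⁻ E, (μ m).rnDeriv volume E ≤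
        ∑' m : ℕ, ENNReal.ofReal (C ^ 2 * (1 / 4) ^ m) := by
      refine ENNReal.tsum_le_tsum fun m => ?_
      refine Measure.lintegral_rnDeriv_le.trans ?_
      rw [hmass m]
      apply ENNReal.ofReal_le_ofReal
      calc ‖g m‖ ^ 2 ≤ (C * (1 / 2) ^ m) ^ 2 :=
            pow_le_pow_left₀ (norm_nonneg _) (hg m) 2
        _ = C ^ 2 * (1 / 4) ^ m := by
            rw [mul_pow, ← pow_mul, mul_comm m 2, pow_mul]
            norm_num
    refine ne_top_of_le_ne_top ?_ h3
    have hs : Summable fun m : ℕ => C ^ 2 * (1 / 4 : ℝ) ^ m :=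
      (summable_geometric_of_lt_one (by norm_num) (by norm_num)).mul_left _
    rw [← ENNReal.ofReal_tsum_of_nonneg (fun m => by positivity) hs]
    exact ENNReal.ofReal_ne_top
  have h4 : ∀ᵐ E : ℝ, ∑' m, (μ m).rnDeriv volume E < ⊤ := by
    refine ae_lt_top ?_ ?_
    · exact Measurable.tsum fun m => Measure.measurable_rnDeriv _ _
    · rw [lintegral_tsum fun m => (Measure.measurable_rnDeriv _ _).aemeasurable]
      exact h2
  filter_upwards [h1, h4] with E hE1 hE2
  intro δ hδ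
  have h5 : Tendsto (fun m => (μ m).rnDeriv volume E) atTop (𝓝 0) :=
    ENNReal.tendsto_atTop_zero_of_tsum_ne_top hE2.ne
  have h6 : Tendsto (fun m => Real.pi * ((μ m).rnDeriv volume E).toReal) atTop (𝓝 0) := by
    have := ((ENNReal.tendsto_toReal ENNReal.zero_ne_top).comp h5).const_mul Real.pi
    simpa using this
  have h7 : ∀ᶠ m in atTop, Real.pi * ((μ m).rnDeriv volume E).toReal < δ ^ 2 :=
    h6.eventually (gt_mem_nhds (by positivity))
  obtain ⟨M, hM⟩ := eventually_atTop.1 h7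
  refine ⟨M, fun m hm => ?_⟩
  filter_upwards [(hE1 m).eventually (gt_mem_nhds (hM m hm))] with k hk
  exact (abs_le_of_sq_le_sq' hk.le hδ.le).2

end Pool.Agent.TH369.MU
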