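import Pool.Agent.TH369.MU.Defs
import Pool.Agent.TH369.AN.RES
import Pool.Agent.TH369.MU.QB

/-!
# Rank bound, algebraic version (job MU-RK1 of helper369, written by helper247)
-/

set_option autoImplicit false
open MeasureTheory Filter Topology
open scoped InnerProductSpace
namespace Pool.Agent.TH369.MU
open Pool.Agent.TH369.AN
variable {X : Type} [NormedAddCommGroup X] [InnerProductSpace ℂ X] [CompleteSpace X]

namespace RK1

omit [CompleteSpace X] in
open Polynomial in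
theorem cyc_rep (T : X →L[ℂ] X) {n : ℕ} (f : Fin n → X) (v : X) (hv : v ∈ cyc T f) :
    ∃ p : Fin n → ℂ[X], v = ∑ i, (aeval T (p i)) (f i) := by
  unfold cyc at hv
  induction hv using Submodule.span_induction with
  | mem x hx =>
    obtain ⟨i, l, rfl⟩ := hx
    refine ⟨Pi.single i (Polynomial.X ^ l), ?_⟩
    rw [Finset.sum_eq_single i]
    · simp
    · intro j _ hj
      simp [Pi.single_eq_of_ne hj]
    · intro h; exact absurd (Finset.mem_univ i) h
  | zero => exact ⟨0, by simp⟩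
  | add x y _ _ hx hy =>
    obtain ⟨p, hp⟩ := hx
    obtain ⟨q, hq⟩ := hy
    refine ⟨p + q, ?_⟩
    rw [hp, hq, ← Finset.sum_add_distrib]
    refine Finset.sum_congr rfl fun i _ => ?_
    simp
  | smul a x _ hx =>
    obtain ⟨p, hp⟩ := hx
    refine ⟨a • p, ?_⟩
    rw [hp, Finset.smul_sum]
    refine Finset.sum_congr rfl fun i _ => ?_
    simp

open Polynomial in
theorem bdd_one (T : X →L[ℂ] X) (E : ℝ) (u : X)
    (hb : ∀ l : ℕ, ∃ B : ℝ, ∀ k, qk T E k ((T ^ l) u) ≤ B) (Q : ℂ[X]) :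
    ∃ B : ℝ, ∀ k, qk T E k ((aeval T Q) u) ≤ B := by
  choose B hB using hb
  refine ⟨∑ l ∈ Finset.range (Q.natDegree + 1), ‖Q.coeff l‖ * B l, fun k => ?_⟩
  have h1 : (aeval T Q) u = ∑ l ∈ Finset.range (Q.natDegree + 1), Q.coeff l • (T ^ l) u := by
    rw [aeval_eq_sum_range]
    simp
  rw [h1]
  refine (qk_sum T E k _ _ _).trans (Finset.sum_le_sum fun l _ => ?_)
  exact mul_le_mul_of_nonneg_left (hB l k) (norm_nonneg _)

open Polynomial in
theorem bdd_all (T : X →L[ℂ] X) (E : ℝ) {n : ℕ} (f : Fin n → X)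
    (hb : ∀ (i : Fin n) (l : ℕ), ∃ B : ℝ, ∀ k, qk T E k ((T ^ l) (f i)) ≤ B)
    (Q : Fin n → ℂ[X]) :
    ∃ B : ℝ, ∀ k, qk T E k (∑ i, (aeval T (Q i)) (f i)) ≤ B := by
  have h := fun i => bdd_one T E (f i) (hb i) (Q i)
  choose B hB using h
  refine ⟨∑ i, B i, fun k => ?_⟩
  have h1 : (∑ i, (aeval T (Q i)) (f i)) = ∑ i, (1 : ℂ) • (aeval T (Q i)) (f i) := by simp
  rw [h1]
  refine (qk_sum T E k Finset.univ (fun _ => (1 : ℂ)) _).trans (Finset.sum_le_sum fun i _ => ?_)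
  simpa using hB i k

theorem exists_coeff (n : ℕ) (M : Fin n → Fin (n + 1) → ℂ) :
    ∃ a : Fin (n + 1) → ℂ, ∑ j, ‖a j‖ ^ 2 = 1 ∧ ∀ i, ∑ j, a j * M i j = 0 := by
  let L : (Fin (n + 1) → ℂ) →ₗ[ℂ] (Fin n → ℂ) := (Matrix.of M).mulVecLin
  have hk : LinearMap.ker L ≠ ⊥ := by
    apply LinearMap.ker_ne_bot_of_finrank_lt
    simp
  obtain ⟨b, hb, hb0⟩ := Submodule.exists_mem_ne_zero_of_ne_bot hk
  have hb1 : ∀ i, ∑ j, b j * M i j = 0 := by
    intro i
    have h := congrFun (LinearMap.mem_ker.1 hb) i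
    simp only [L, Matrix.mulVecLin_apply, Matrix.mulVec, dotProduct, Matrix.of_apply,
      Pi.zero_apply] at h
    rw [← h]
    exact Finset.sum_congr rfl fun j _ => mul_comm _ _
  have hs : 0 < ∑ j, ‖b j‖ ^ 2 := by
    obtain ⟨j, hj⟩ := Function.ne_iff.1 hb0
    refine lt_of_lt_of_le (b := ‖b j‖ ^ 2) ?_ ?_
    · have : 0 < ‖b j‖ := norm_pos_iff.2 hj
      positivity
    · exact Finset.single_le_sum (f := fun j => ‖b j‖ ^ 2) (fun j _ => by positivity)
        (Finset.mem_univ j)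
  set s := ∑ j, ‖b j‖ ^ 2 with hsdef
  refine ⟨fun j => ((Real.sqrt s)⁻¹ : ℝ) * b j, ?_, ?_⟩
  · have : ∀ j, ‖(((Real.sqrt s)⁻¹ : ℝ) : ℂ) * b j‖ ^ 2 = s⁻¹ * ‖b j‖ ^ 2 := by
      intro j
      rw [norm_mul, mul_pow, Complex.norm_real, Real.norm_eq_abs, sq_abs, inv_pow,
        Real.sq_sqrt hs.le]
    simp only [this]
    rw [← Finset.mul_sum, ← hsdef]
    exact inv_mul_cancel₀ hs.ne'
  · intro i
    have : ∀ j, (((Real.sqrt s)⁻¹ : ℝ) : ℂ) * b j * M i j =
        (((Real.sqrt s)⁻¹ : ℝ) : ℂ) * (b j * M i j) := fun j => by ring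
    simp only [this]
    rw [← Finset.mul_sum, hb1, mul_zero]

theorem ep_tendsto : Tendsto ep atTop (𝓝 0) := by
  have := tendsto_one_div_add_atTop_nhds_zero_nat (𝕜 := ℝ)
  exact this

end RK1

open Polynomial in
theorem rank_alg (T : X →L[ℂ] X) (hT : IsSelfAdjoint T) (E : ℝ) (n : ℕ) (f : Fin n → X)
    (hb : ∀ (i : Fin n) (l : ℕ), ∃ B : ℝ, ∀ k, qk T E k ((T ^ l) (f i)) ≤ B)
    (g : Fin (n + 1) → X) (hg : ∀ j, g j ∈ cyc T f) :
    ∃ a : Fin (n + 1) → ℂ, ∑ j, ‖a j‖ ^ 2 = 1 ∧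
      Tendsto (fun k => qk T E k (∑ j, a j • g j)) atTop (𝓝 0) := by
  have hp := fun j => RK1.cyc_rep T f (g j) (hg j)
  choose p hp using hp
  obtain ⟨a, ha1, ha0⟩ := RK1.exists_coeff n (fun i j => (p j i).eval (E : ℂ))
  refine ⟨a, ha1, ?_⟩
  have hdvd : ∀ i, ∃ Q : ℂ[X], (∑ j, a j • p j i) = (Polynomial.X - C (E : ℂ)) * Q := by
    intro i
    have : (∑ j, a j • p j i).IsRoot (E : ℂ) := by
      rw [Polynomial.IsRoot, Polynomial.eval_finsetSum]
      rw [← ha0 i]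
      exact Finset.sum_congr rfl fun j _ => by simp
    exact Polynomial.dvd_iff_isRoot.2 this
  choose Q hQ using hdvd
  obtain ⟨B, hB⟩ := RK1.bdd_all T E f hb Q
  set ψ := ∑ i, (aeval T (Q i)) (f i) with hψ
  have key : (∑ j, a j • g j) = T ψ - (E : ℂ) • ψ := by
    have h1 : (∑ j, a j • g j) = ∑ i, (aeval T (∑ j, a j • p j i)) (f i) := by
      have h2 : ∀ j, a j • g j = ∑ i, a j • (aeval T (p j i)) (f i) := by
        intro j
        rw [← Finset.smul_sum, ← hp j]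
      simp only [h2]
      rw [Finset.sum_comm]
      refine Finset.sum_congr rfl fun i _ => ?_
      rw [map_sum]
      simp
    rw [h1, hψ, map_sum, Finset.smul_sum, ← Finset.sum_sub_distrib]
    refine Finset.sum_congr rfl fun i _ => ?_
    rw [hQ i, map_mul, map_sub, aeval_X, aeval_C]
    simp [Algebra.algebraMap_eq_smul_one]
  rw [key]
  have hle : ∀ k, qk T E k (T ψ - (E : ℂ) • ψ) ≤ Real.sqrt (ep k) * ‖ψ‖ + ep k * B := by
    intro k
    refine (qk_mul T hT E k ψ).trans ?_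
    have : 0 ≤ ep k := by unfold ep; positivity
    have := mul_le_mul_of_nonneg_left (hB k) this
    linarith
  refine squeeze_zero (fun k => qk_nonneg T E k _) hle ?_
  have h1 : Tendsto (fun k => Real.sqrt (ep k)) atTop (𝓝 0) := by
    have := (Real.continuous_sqrt.tendsto 0).comp RK1.ep_tendsto
    rw [Real.sqrt_zero] at this
    exact this
  have h2 := (h1.mul_const ‖ψ‖).add (RK1.ep_tendsto.mul_const B)
  simpa using h2

end Pool.Agent.TH369.MU
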