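import Pool.Agent.TH369.MU.Defs
import Pool.Agent.TH369.AN.RES
import Pool.Agent.TH369.MU.QB
import Pool.Agent.TH369.MU.SM
import Pool.Agent.TH369.MU.QA
import Pool.Agent.TH369.MU.QL
import Pool.Agent.TH369.MU.RK1

/-! The rank bound for the closed cyclic space. -/

set_option autoImplicit false
set_option linter.unusedSectionVars false
open MeasureTheory Filter Topology
open scoped InnerProductSpace

namespace Pool.Agent.TH369.MU
open Pool.Agent.TH369.AN
variable {X : Type} [NormedAddCommGroup X] [InnerProductSpace ℂ X] [CompleteSpace X]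

namespace RK2

theorem bdd_ae (T : X →L[ℂ] X) (hT : IsSelfAdjoint T) (φ : X) :
    ∀ᵐ E : ℝ, ∃ B : ℝ, ∀ k, qk T E k φ ≤ B := by
  obtain ⟨m, hm, _⟩ := spm_exists T hT φ
  filter_upwards [qk_ae T hT φ m hm] with E hE
  obtain ⟨B, hB⟩ := hE.bddAbove_range
  refine ⟨B + 1, fun k => ?_⟩
  have h1 : qk T E k φ ^ 2 ≤ B := hB ⟨k, rfl⟩
  nlinarith [sq_nonneg (qk T E k φ - 1), qk_nonneg T E k φ]

theorem approx (S : Submodule ℂ X) (v : X) (hv : v ∈ S.topologicalClosure) (m : ℕ) :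
    ∃ w ∈ S, ‖v - w‖ ≤ 1 * (1 / 2 : ℝ) ^ m := by
  have h1 : v ∈ closure (S : Set X) := by
    rw [← Submodule.topologicalClosure_coe]
    exact hv
  obtain ⟨w, hw, hd⟩ := Metric.mem_closure_iff.1 h1 ((1 / 2 : ℝ) ^ m) (by positivity)
  refine ⟨w, hw, ?_⟩
  rw [one_mul, ← dist_eq_norm]
  exact hd.le

theorem sphere_compact (n : ℕ) : IsCompact {a : Fin (n + 1) → ℂ | ∑ j, ‖a j‖ ^ 2 = 1} := by
  refine Metric.isCompact_of_isClosed_isBounded ?_ ?_
  · refine isClosed_eq ?_ continuous_const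
    fun_prop
  · refine (Metric.isBounded_closedBall (x := (0 : Fin (n + 1) → ℂ)) (r := 1)).subset ?_
    intro a ha
    replace ha : ∑ j, ‖a j‖ ^ 2 = 1 := ha
    rw [mem_closedBall_zero_iff, pi_norm_le_iff_of_nonneg (by norm_num)]
    intro i
    have h1 : ‖a i‖ ^ 2 ≤ 1 := by
      rw [← ha]
      exact Finset.single_le_sum (f := fun j => ‖a j‖ ^ 2) (fun j _ => by positivity)
        (Finset.mem_univ i)
    nlinarith [norm_nonneg (a i)]

theorem le_one {n : ℕ} {a : Fin (n + 1) → ℂ} (ha : ∑ j, ‖a j‖ ^ 2 = 1) (i : Fin (n + 1)) :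
    ‖a i‖ ≤ 1 := by
  have h1 : ‖a i‖ ^ 2 ≤ 1 := by
    rw [← ha]
    exact Finset.single_le_sum (f := fun j => ‖a j‖ ^ 2) (fun j _ => by positivity)
      (Finset.mem_univ i)
  nlinarith [norm_nonneg (a i)]

end RK2

open RK2

theorem rank_ae (T : X →L[ℂ] X) (hT : IsSelfAdjoint T) (n : ℕ) (f : Fin n → X)
    (g : Fin (n + 1) → X) (hg : ∀ j, g j ∈ (cyc T f).topologicalClosure) :
    ∀ᵐ E : ℝ, ∃ a : Fin (n + 1) → ℂ, ∑ j, ‖a j‖ ^ 2 = 1 ∧
      Tendsto (fun k => qk T E k (∑ j, a j • g j)) atTop (𝓝 0) := by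
  choose h hh hn using fun (j : Fin (n + 1)) (m : ℕ) => approx (cyc T f) (g j) (hg j) m
  have A1 : ∀ᵐ E : ℝ, ∀ (i : Fin n) (l : ℕ), ∃ B : ℝ, ∀ k, qk T E k ((T ^ l) (f i)) ≤ B := by
    rw [ae_all_iff]
    intro i
    rw [ae_all_iff]
    intro l
    exact bdd_ae T hT _
  have A2 : ∀ᵐ E : ℝ, ∀ j : Fin (n + 1), ∃ B : ℝ, ∀ k, qk T E k (g j) ≤ B := by
    rw [ae_all_iff]
    intro j
    exact bdd_ae T hT _
  have A3 : ∀ᵐ E : ℝ, ∀ j : Fin (n + 1), ∀ δ > 0, ∃ M, ∀ m ≥ M, ∀ᶠ k in atTop,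
      qk T E k (g j - h j m) ≤ δ := by
    rw [ae_all_iff]
    intro j
    exact qk_lim T hT (fun m => g j - h j m) 1 (hn j)
  filter_upwards [A1, A2, A3] with E h1 h2 h3
  choose B hB using h2
  choose a ha hat using fun m : ℕ => rank_alg T hT E n f h1 (fun j => h j m) (fun j => hh j m)
  obtain ⟨a0, ha0, ψ, hψ, hlim⟩ := (sphere_compact n).tendsto_subseq ha
  refine ⟨a0, ha0, ?_⟩
  refine tendsto_order.2 ⟨fun b hb => Eventually.of_forall fun k => hb.trans_le (qk_nonneg T E k _),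
    fun b hb => ?_⟩
  -- the choice of m
  have hn0 : (0 : ℝ) < (n : ℝ) + 1 := by positivity
  choose M hM using fun j => h3 j (b / (4 * ((n : ℝ) + 1))) (by positivity)
  have C1 : ∀ᶠ s in atTop, ∀ j, M j ≤ ψ s := by
    rw [eventually_all]
    intro j
    exact hψ.tendsto_atTop.eventually_ge_atTop (M j)
  have C2 : Tendsto (fun s => ∑ j, ‖a0 j - a (ψ s) j‖ * B j) atTop (𝓝 0) := by
    have : Tendsto (fun s => ∑ j, ‖a0 j - a (ψ s) j‖ * B j) atTop
        (𝓝 (∑ j, ‖a0 j - a0 j‖ * B j)) := by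
      refine tendsto_finsetSum _ fun j _ => ?_
      refine Tendsto.mul_const _ ?_
      refine (tendsto_const_nhds.sub ?_).norm
      exact (tendsto_pi_nhds.1 hlim) j
    simpa using this
  have C3 := C2.eventually (gt_mem_nhds (show (0 : ℝ) < b / 4 by positivity))
  obtain ⟨s, hs1, hs2⟩ := (C1.and C3).exists
  have D1 : ∀ᶠ k in atTop, ∀ j, qk T E k (g j - h j (ψ s)) ≤ b / (4 * ((n : ℝ) + 1)) := by
    rw [eventually_all]
    intro j
    exact hM j (ψ s) (hs1 j)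
  have D2 := (hat (ψ s)).eventually (gt_mem_nhds (show (0 : ℝ) < b / 4 by positivity))
  filter_upwards [D1, D2] with k k1 k2
  have e : ∑ j, a0 j • g j = ∑ j, (a0 j - a (ψ s) j) • g j +
      (∑ j, a (ψ s) j • (g j - h j (ψ s)) + ∑ j, a (ψ s) j • h j (ψ s)) := by
    rw [← Finset.sum_add_distrib, ← Finset.sum_add_distrib]
    refine Finset.sum_congr rfl fun j _ => ?_
    rw [sub_smul, smul_sub]
    abel
  rw [e]
  have E1 : qk T E k (∑ j, (a0 j - a (ψ s) j) • g j) ≤ ∑ j, ‖a0 j - a (ψ s) j‖ * B j :=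
    (qk_sum T E k _ _ _).trans
      (Finset.sum_le_sum fun j _ => mul_le_mul_of_nonneg_left (hB j k) (norm_nonneg _))
  have E2 : qk T E k (∑ j, a (ψ s) j • (g j - h j (ψ s))) ≤ b / 4 := by
    refine (qk_sum T E k _ _ _).trans ?_
    calc ∑ j, ‖a (ψ s) j‖ * qk T E k (g j - h j (ψ s))
        ≤ ∑ j : Fin (n + 1), 1 * (b / (4 * ((n : ℝ) + 1))) :=
          Finset.sum_le_sum fun j _ =>
            mul_le_mul (le_one (ha (ψ s)) j) (k1 j) (qk_nonneg T E k _) (by norm_num)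
      _ = b / 4 := by
          rw [Finset.sum_const, Finset.card_univ, Fintype.card_fin, nsmul_eq_mul]
          push_cast
          field_simp
  have E3 := qk_add T E k (∑ j, (a0 j - a (ψ s) j) • g j)
    (∑ j, a (ψ s) j • (g j - h j (ψ s)) + ∑ j, a (ψ s) j • h j (ψ s))
  have E4 := qk_add T E k (∑ j, a (ψ s) j • (g j - h j (ψ s))) (∑ j, a (ψ s) j • h j (ψ s))
  linarith

end Pool.Agent.TH369.MU
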