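import Pool.Agent.TH369.MU.Defs
import Pool.Agent.TH369.AN.RES
import Pool.Agent.TH369.MU.QA

/-! Job MU-SN (helper986): singularity of a spectral measure in terms of `qk`. -/

set_option autoImplicit false

open MeasureTheory Filter Topology
open scoped InnerProductSpace

namespace Pool.Agent.TH369.MU

open Pool.Agent.TH369.AN

variable {X : Type} [NormedAddCommGroup X] [InnerProductSpace ℂ X] [CompleteSpace X]

namespace SN

omit [CompleteSpace X] in
lemma nonneg (T : X →L[ℂ] X) (E : ℝ) (k : ℕ) (φ : X) : 0 ≤ qk T E k φ :=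
  mul_nonneg (Real.sqrt_nonneg _) (norm_nonneg _)

/-- a nonnegative sequence tends to zero if and only if its square does -/
lemma sq_zero (u : ℕ → ℝ) (hu : ∀ k, 0 ≤ u k) :
    Tendsto u atTop (𝓝 0) ↔ Tendsto (fun k => u k ^ 2) atTop (𝓝 0) := by
  constructor
  · intro h
    have h1 := h.pow 2
    simpa using h1
  · intro h
    have h1 := h.sqrt
    rw [Real.sqrt_zero] at h1
    refine h1.congr fun k => ?_
    exact Real.sqrt_sq (hu k)

end SN

theorem sing_iff (T : X →L[ℂ] X) (hT : IsSelfAdjoint T) (φ : X) (m : Measure ℝ)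
    (hm : SpM T φ m) (A : Set ℝ) (hA : MeasurableSet A) :
    (m.restrict A) ⟂ₘ (volume : Measure ℝ) ↔
      ∀ᵐ E : ℝ, E ∈ A → Tendsto (fun k => qk T E k φ) atTop (𝓝 0) := by
  have hfin : IsFiniteMeasure m := hm.1
  have h1 := qk_ae T hT φ m hm
  have h2 := Measure.rnDeriv_restrict m (volume : Measure ℝ) hA
  have h3 : ∀ᵐ E : ℝ, m.rnDeriv volume E < ⊤ := Measure.rnDeriv_lt_top m volume
  have key : ∀ᵐ E : ℝ, ((m.restrict A).rnDeriv volume E = 0 ↔
      (E ∈ A → Tendsto (fun k => qk T E k φ) atTop (𝓝 0))) := by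
    filter_upwards [h1, h2, h3] with E e1 e2 e3
    rw [e2, SN.sq_zero _ (fun k => SN.nonneg T E k φ)]
    by_cases hE : E ∈ A
    · rw [Set.indicator_of_mem hE]
      constructor
      · intro h _
        rw [h] at e1
        simpa using e1
      · intro h
        have h4 := tendsto_nhds_unique e1 (h hE)
        have h5 : (m.rnDeriv volume E).toReal = 0 := by
          rcases mul_eq_zero.1 h4 with h6 | h6
          · exact absurd h6 Real.pi_ne_zero
          · exact h6
        rcases (ENNReal.toReal_eq_zero_iff _).1 h5 with h6 | h6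
        · exact h6
        · exact absurd h6 e3.ne
    · rw [Set.indicator_of_notMem hE]
      exact ⟨fun _ h => absurd h hE, fun _ => rfl⟩
  rw [← Measure.rnDeriv_eq_zero]
  constructor
  · intro h
    filter_upwards [h, key] with E e1 e2
    exact e2.1 e1
  · intro h
    filter_upwards [h, key] with E e1 e2
    exact e2.2 e1

end Pool.Agent.TH369.MU
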