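import Pool.Agent.TH369.MU.Defs
import Pool.Agent.TH369.AN.RES
import Pool.Agent.TH369.AN.OP
import Pool.Agent.TH369.MU.QB
import Pool.Agent.TH369.MU.QL

/-!
# Job MU-F2 of helper369 (written by helper767): from the sites to all vectors
-/

set_option autoImplicit false

open MeasureTheory Filter Topology
open scoped InnerProductSpace

namespace Pool.Agent.TH369.MU

open Pool.Agent.TH369.AN

variable {d : ℕ}

namespace F2

lemma single_eq (g : L2 d) (x : Zd d) :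
    lp.single 2 x ((g : Zd d → ℂ) x) = (g : Zd d → ℂ) x • dl x := by
  unfold dl
  rw [← lp.single_smul, smul_eq_mul, mul_one]

lemma approx (g : L2 d) (ε : ℝ) (hε : 0 < ε) :
    ∃ s : Finset (Zd d), ‖g - ∑ x ∈ s, (g : Zd d → ℂ) x • dl x‖ ≤ ε := by
  have h1 : HasSum (fun x : Zd d => (g : Zd d → ℂ) x • dl x) g := by
    have h2 := lp.hasSum_single (p := 2) (by norm_num) g
    have h0 : (fun x : Zd d => (g : Zd d → ℂ) x • dl x) =
        fun x : Zd d => lp.single 2 x ((g : Zd d → ℂ) x) := funext fun x => (single_eq g x).symm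
    rw [h0]
    exact h2
  have h3 := (Metric.tendsto_atTop.1 h1) ε hε
  obtain ⟨s, hs⟩ := h3
  refine ⟨s, ?_⟩
  have h4 := hs s le_rfl
  rw [dist_comm, dist_eq_norm] at h4
  exact h4.le

end F2

theorem all_vectors (c : ℝ) (hc : 0 ≤ c) (ω : Zd d → ℝ) (A : Set ℝ) (hA : MeasurableSet A)
    (h : ∀ x : Zd d, ∀ᵐ E : ℝ, E ∈ A →
      Tendsto (fun k => qk (TT (∅ : Finset (Zd d)) c ω) E k (dl x)) atTop (𝓝 0))
    (g : L2 d) : ∀ᵐ E : ℝ, E ∈ A →
      Tendsto (fun k => qk (TT (∅ : Finset (Zd d)) c ω) E k g) atTop (𝓝 0) := by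
  have _ := hc
  have _ := hA
  choose s hs using fun m : ℕ => F2.approx g ((1 / 2 : ℝ) ^ m) (by positivity)
  have h1 := qk_lim (TT (∅ : Finset (Zd d)) c ω) (TT_sa _ c ω)
    (fun m => g - ∑ x ∈ s m, (g : Zd d → ℂ) x • dl x) 1 (fun m => by
      rw [one_mul]
      exact hs m)
  filter_upwards [h1, ae_all_iff.2 h] with E h2 h3 hE
  rw [Metric.tendsto_atTop]
  intro δ hδ
  obtain ⟨M, hM⟩ := h2 (δ / 2) (by positivity)
  have h4 := hM M le_rfl
  have h5 : Tendsto (fun k => ∑ x ∈ s M, ‖(g : Zd d → ℂ) x‖ *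
      qk (TT (∅ : Finset (Zd d)) c ω) E k (dl x)) atTop (𝓝 0) := by
    have h6 := tendsto_finsetSum (s M) (fun x (_ : x ∈ s M) =>
      (h3 x hE).const_mul ‖(g : Zd d → ℂ) x‖)
    simpa using h6
  have h7 : ∀ᶠ k in atTop, ∑ x ∈ s M, ‖(g : Zd d → ℂ) x‖ *
      qk (TT (∅ : Finset (Zd d)) c ω) E k (dl x) < δ / 2 :=
    h5.eventually_lt_const (by positivity)
  obtain ⟨N, hN⟩ := eventually_atTop.1 (h4.and h7)
  refine ⟨N, fun k hk => ?_⟩
  obtain ⟨h8, h9⟩ := hN k hk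
  rw [Real.dist_eq, sub_zero, abs_of_nonneg (qk_nonneg _ _ _ _)]
  have h10 : g = (g - ∑ x ∈ s M, (g : Zd d → ℂ) x • dl x) +
      ∑ x ∈ s M, (g : Zd d → ℂ) x • dl x := by
    rw [sub_add_cancel]
  have h11 := qk_add (TT (∅ : Finset (Zd d)) c ω) E k
    (g - ∑ x ∈ s M, (g : Zd d → ℂ) x • dl x) (∑ x ∈ s M, (g : Zd d → ℂ) x • dl x)
  rw [← h10] at h11
  have h12 := qk_sum (TT (∅ : Finset (Zd d)) c ω) E k (s M) (fun x => (g : Zd d → ℂ) x) dl
  linarith

end Pool.Agent.TH369.MU
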