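import Pool.Agent.TH369.MU.Defs

/-!
# Real parts converge
-/

set_option autoImplicit false

open MeasureTheory Filter Topology
open scoped InnerProductSpace

namespace Pool.Agent.TH369.MU

open Pool.Agent.TH369.AN

namespace RP

theorem im_add (z : ℂ) : (z / (1 + z)).im = z.im / Complex.normSq (1 + z) := by
  rw [Complex.div_im]
  simp only [Complex.add_re, Complex.add_im, Complex.one_re, Complex.one_im]
  ring

theorem im_sub (z : ℂ) : (z / (1 - z)).im = z.im / Complex.normSq (1 - z) := by
  rw [Complex.div_im]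
  simp only [Complex.sub_re, Complex.sub_im, Complex.one_re, Complex.one_im]
  ring

/-- the denominators converge -/
theorem den (y A : ℕ → ℝ) (hA : ∀ k, 0 < A k) (a b K : ℝ) (ha : 0 < a)
    (h0 : Tendsto y atTop (𝓝 a)) (h1 : Tendsto (fun k => y k / A k) atTop (𝓝 b))
    (h3 : ∃ᶠ k in atTop, A k ≤ K) : Tendsto A atTop (𝓝 (a / b)) := by
  have hb : b ≠ 0 := by
    rintro rfl
    have hK : 0 < K := by
      obtain ⟨k, hk⟩ := h3.exists
      exact (hA k).trans_le hk
    have e1 : ∀ᶠ k in atTop, a / 2 < y k := h0.eventually_const_lt (by linarith)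
    have e2 : ∀ᶠ k in atTop, y k / A k < a / 2 / K := h1.eventually_lt_const (by positivity)
    obtain ⟨k, hk, hk1, hk2⟩ := (h3.and_eventually (e1.and e2)).exists
    rw [div_lt_div_iff₀ (hA k) hK] at hk2
    have := hA k
    nlinarith
  have h4 : Tendsto (fun k => y k / (y k / A k)) atTop (𝓝 (a / b)) := h0.div h1 hb
  refine h4.congr' ?_
  have e1 : ∀ᶠ k in atTop, 0 < y k := h0.eventually_const_lt ha
  filter_upwards [e1] with k hk
  have := (hA k).ne'
  field_simp

end RP

open RP in
theorem re_conv (F : ℕ → ℂ) (hF : ∀ k, 0 < (F k).im) (a b c C : ℝ) (ha : 0 < a)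
    (h0 : Tendsto (fun k => (F k).im) atTop (𝓝 a))
    (h1 : Tendsto (fun k => (F k / (1 + F k)).im) atTop (𝓝 b))
    (h2 : Tendsto (fun k => (F k / (1 - F k)).im) atTop (𝓝 c))
    (h3 : ∃ᶠ k in atTop, ‖F k‖ ≤ C) : ∃ L : ℂ, Tendsto F atTop (𝓝 L) := by
  have hA : ∀ k, 0 < Complex.normSq (1 + F k) := by
    intro k
    rw [Complex.normSq_pos]
    intro h
    have := congrArg Complex.im h
    simp only [Complex.add_im, Complex.one_im, Complex.zero_im, zero_add] at this
    exact (hF k).ne' this
  have hB : ∀ k, 0 < Complex.normSq (1 - F k) := by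
    intro k
    rw [Complex.normSq_pos]
    intro h
    have := congrArg Complex.im h
    simp only [Complex.sub_im, Complex.one_im, Complex.zero_im, zero_sub, neg_eq_zero] at this
    exact (hF k).ne' this
  simp only [im_add] at h1
  simp only [im_sub] at h2
  have h4 : Tendsto (fun k => Complex.normSq (1 + F k)) atTop (𝓝 (a / b)) := by
    refine den (fun k => (F k).im) _ hA a b ((1 + C) ^ 2) ha h0 h1 (h3.mono fun k hk => ?_)
    rw [Complex.normSq_eq_norm_sq]
    refine pow_le_pow_left₀ (norm_nonneg _) ?_ 2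
    refine (norm_add_le _ _).trans ?_
    rw [norm_one]
    linarith
  have h5 : Tendsto (fun k => Complex.normSq (1 - F k)) atTop (𝓝 (a / c)) := by
    refine den (fun k => (F k).im) _ hB a c ((1 + C) ^ 2) ha h0 h2 (h3.mono fun k hk => ?_)
    rw [Complex.normSq_eq_norm_sq]
    refine pow_le_pow_left₀ (norm_nonneg _) ?_ 2
    refine (norm_sub_le _ _).trans ?_
    rw [norm_one]
    linarith
  have h6 : Tendsto (fun k => (F k).re) atTop (𝓝 ((a / b - a / c) / 4)) := by
    refine ((h4.sub h5).div_const 4).congr fun k => ?_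
    simp only [Complex.normSq_apply, Complex.add_re, Complex.add_im, Complex.sub_re,
      Complex.sub_im, Complex.one_re, Complex.one_im]
    ring
  refine ⟨(((a / b - a / c) / 4 : ℝ) : ℂ) + ((a : ℝ) : ℂ) * Complex.I, ?_⟩
  have h7 := ((Complex.continuous_ofReal.tendsto _).comp h6).add
    (((Complex.continuous_ofReal.tendsto _).comp h0).mul_const Complex.I)
  refine h7.congr fun k => ?_
  exact Complex.re_add_im (F k)

end Pool.Agent.TH369.MU
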