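import Pool.Agent.TH369.MU.Defs
set_option autoImplicit false
open MeasureTheory Filter Topology
open scoped InnerProductSpace
namespace Pool.Agent.TH369.MU
open Pool.Agent.TH369.AN

namespace W1

/-- the map of the unit disc to the half plane `Im > ε` -/
noncomputable def phi (ε : ℝ) (w : ℂ) : ℂ :=
  (ε : ℂ) * Complex.I + Complex.I * ((1 + w) / (1 - w))

theorem phi_im (ε : ℝ) (w : ℂ) :
    (phi ε w).im = ε + (1 - ‖w‖ ^ 2) / ‖1 - w‖ ^ 2 := by
  unfold phi
  rw [Complex.sq_norm, Complex.sq_norm, Complex.normSq_apply w, Complex.normSq_apply (1 - w)]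
  simp only [Complex.add_im, Complex.mul_im, Complex.I_re, Complex.I_im, Complex.ofReal_re,
    Complex.ofReal_im, zero_mul, mul_one, add_zero, one_mul, zero_add, Complex.div_re,
    Complex.add_re, Complex.sub_re, Complex.one_re, Complex.sub_im, Complex.one_im, zero_sub,
    Complex.normSq_apply]
  ring

theorem phi_im_pos {ε : ℝ} (hε : 0 < ε) {w : ℂ} (hw : ‖w‖ ≤ 1) : 0 < (phi ε w).im := by
  rw [phi_im]
  have h1 : 0 ≤ (1 - ‖w‖ ^ 2) / ‖1 - w‖ ^ 2 := by
    apply div_nonneg _ (sq_nonneg _)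
    nlinarith [norm_nonneg w]
  linarith

theorem phi_diff (ε : ℝ) {w : ℂ} (hw : w ≠ 1) : DifferentiableAt ℂ (phi ε) w := by
  unfold phi
  have h1 : (1 : ℂ) - w ≠ 0 := sub_ne_zero.2 (Ne.symm hw)
  have h2 : DifferentiableAt ℂ (fun w : ℂ => (1 + w) / (1 - w)) w :=
    DifferentiableAt.div (by fun_prop) (by fun_prop) h1
  exact (differentiableAt_const _).add (h2.const_mul _)

theorem circle_eq (θ : ℝ) : circleMap 0 1 θ =
    ((Real.cos (θ / 2) : ℂ) + (Real.sin (θ / 2) : ℂ) * Complex.I) ^ 2 := by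
  have h1 : ((Real.cos (θ / 2) : ℂ) + (Real.sin (θ / 2) : ℂ) * Complex.I) =
      Complex.exp (((θ / 2 : ℝ) : ℂ) * Complex.I) := by
    rw [Complex.exp_mul_I, Complex.ofReal_cos, Complex.ofReal_sin]
  rw [h1, ← Complex.exp_nat_mul, circleMap, zero_add, Complex.ofReal_one, one_mul]
  congr 1
  push_cast
  ring

theorem phi_circle (ε θ : ℝ) (h0 : 0 < θ) (h1 : θ < 2 * Real.pi) :
    circleMap 0 1 θ ≠ 1 ∧
      phi ε (circleMap 0 1 θ) = (-Real.cot (θ / 2) : ℝ) + (ε : ℂ) * Complex.I := by
  have hs : 0 < Real.sin (θ / 2) := Real.sin_pos_of_pos_of_lt_pi (by linarith) (by linarith)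
  have hs' : ((Real.sin (θ / 2) : ℝ) : ℂ) ≠ 0 := by
    exact_mod_cast hs.ne'
  have hcs : ((Real.cos (θ / 2) : ℝ) : ℂ) ^ 2 + ((Real.sin (θ / 2) : ℝ) : ℂ) ^ 2 = 1 := by
    exact_mod_cast Real.cos_sq_add_sin_sq (θ / 2)
  rw [Real.cot_eq_cos_div_sin]
  rw [circle_eq]
  set c : ℂ := ((Real.cos (θ / 2) : ℝ) : ℂ) with hc
  set s : ℂ := ((Real.sin (θ / 2) : ℝ) : ℂ) with hsd
  have hI : Complex.I ^ 2 = -1 := Complex.I_sq
  have hne : c + s * Complex.I ≠ 0 := by
    intro h
    have h2 : (c + s * Complex.I) * (c - s * Complex.I) = 1 := by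
      have : (c + s * Complex.I) * (c - s * Complex.I) = c ^ 2 - s ^ 2 * Complex.I ^ 2 := by ring
      rw [this, hI]
      linear_combination hcs
    rw [h, zero_mul] at h2
    exact zero_ne_one h2
  have e1 : 1 + (c + s * Complex.I) ^ 2 = 2 * c * (c + s * Complex.I) := by
    linear_combination (-1 : ℂ) * hcs + s ^ 2 * hI
  have e2 : 1 - (c + s * Complex.I) ^ 2 = -(2 * s * Complex.I) * (c + s * Complex.I) := by
    linear_combination (-1 : ℂ) * hcs + s ^ 2 * hI
  have hne2 : -(2 * s * Complex.I) * (c + s * Complex.I) ≠ 0 := by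
    apply mul_ne_zero _ hne
    exact neg_ne_zero.2 (mul_ne_zero (mul_ne_zero two_ne_zero hs') Complex.I_ne_zero)
  constructor
  · intro h
    rw [h, sub_self] at e2
    exact hne2 e2.symm
  · unfold phi
    rw [e1, e2]
    rw [Complex.ofReal_neg, Complex.ofReal_div, ← hc, ← hsd]
    have hI0 := Complex.I_ne_zero
    have e3 : Complex.I * (2 * c * (c + s * Complex.I) / (-(2 * s * Complex.I) *
        (c + s * Complex.I))) = -(c / s) := by
      rw [mul_div_mul_right _ _ hne]
      field_simp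
    rw [e3]
    ring

end W1

open W1 in
theorem circle_le (h : ℂ → ℂ) (hd : ∀ z : ℂ, 0 < z.im → DifferentiableAt ℂ h z)
    (hp : ∀ z : ℂ, 0 < z.im → 0 ≤ (h z).re) (ε : ℝ) (hε : 0 < ε) :
    ∫⁻ θ in Set.Ioo (0 : ℝ) (2 * Real.pi),
      ENNReal.ofReal (h ((-Real.cot (θ / 2) : ℝ) + (ε : ℂ) * Complex.I)).re ≤
      ENNReal.ofReal (2 * Real.pi * (h (((1 + ε : ℝ) : ℂ) * Complex.I)).re) := by
  have hpi : 0 < 2 * Real.pi := by positivity
  set u : ℂ → ℂ := fun w => h (phi ε w) with hu
  have hud : ∀ w : ℂ, ‖w‖ ≤ 1 → w ≠ 1 → DifferentiableAt ℂ u w := by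
    intro w hw hw1
    exact (hd _ (phi_im_pos hε hw)).comp w (phi_diff ε hw1)
  have hur : ∀ w : ℂ, ‖w‖ ≤ 1 → 0 ≤ (u w).re := fun w hw => hp _ (phi_im_pos hε hw)
  have hu0 : u 0 = h (((1 + ε : ℝ) : ℂ) * Complex.I) := by
    simp only [hu, phi]
    congr 1
    push_cast
    ring
  -- the circle averages
  have havg : ∀ r : ℝ, 0 < r → r < 1 →
      ∫⁻ θ in Set.Ioo (0 : ℝ) (2 * Real.pi), ENNReal.ofReal (u (circleMap 0 r θ)).re =
        ENNReal.ofReal (2 * Real.pi * (h (((1 + ε : ℝ) : ℂ) * Complex.I)).re) := by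
    intro r hr0 hr1
    have hnorm : ∀ θ, ‖circleMap 0 r θ‖ = r := by
      intro θ
      rw [norm_circleMap_zero, abs_of_pos hr0]
    have hdc : DiffContOnCl ℂ u (Metric.ball 0 |r|) := by
      rw [abs_of_pos hr0]
      apply DifferentiableOn.diffContOnCl
      rw [closure_ball _ hr0.ne']
      intro w hw
      rw [Metric.mem_closedBall, dist_zero_right] at hw
      apply (hud w (hw.trans hr1.le) _).differentiableWithinAt
      rintro rfl
      rw [norm_one] at hw
      linarith
    have h1 := hdc.circleAverage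
    have hcont : Continuous fun θ : ℝ => u (circleMap 0 r θ) := by
      rw [continuous_iff_continuousAt]
      intro θ
      have h2 : circleMap 0 r θ ≠ 1 := by
        intro h3
        have := hnorm θ
        rw [h3, norm_one] at this
        linarith
      exact ((hud _ (by rw [hnorm]; exact hr1.le) h2).continuousAt).comp
        (continuous_circleMap 0 r).continuousAt
    rw [Real.circleAverage_def] at h1
    have h2 : ∫ θ in (0 : ℝ)..(2 * Real.pi), u (circleMap 0 r θ) = (2 * Real.pi : ℝ) • u 0 := by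
      rw [← h1, smul_smul, mul_inv_cancel₀ hpi.ne', one_smul]
    have h3 : ∫ θ in (0 : ℝ)..(2 * Real.pi), (u (circleMap 0 r θ)).re =
        2 * Real.pi * (u 0).re := by
      have h4 := Complex.reCLM.intervalIntegral_comp_comm
        (hcont.intervalIntegrable (μ := volume) 0 (2 * Real.pi))
      simp only [Complex.reCLM_apply] at h4
      rw [h4, h2, Complex.real_smul, Complex.re_ofReal_mul]
    rw [intervalIntegral.integral_of_le hpi.le, integral_Ioc_eq_integral_Ioo] at h3
    have hint : IntegrableOn (fun θ => (u (circleMap 0 r θ)).re) (Set.Ioo 0 (2 * Real.pi)) := by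
      have h4 : Continuous fun θ : ℝ => (u (circleMap 0 r θ)).re :=
        Complex.continuous_re.comp hcont
      exact (h4.integrableOn_Icc (a := 0) (b := 2 * Real.pi)).mono_set Set.Ioo_subset_Icc_self
    rw [← hu0, ← h3]
    rw [ofReal_integral_eq_lintegral_ofReal hint]
    exact Eventually.of_forall fun θ => hur _ (by rw [hnorm]; exact hr1.le)
  -- the limit
  set r : ℕ → ℝ := fun n => 1 - 1 / ((n : ℝ) + 2) with hr
  have hrn : ∀ n, 0 < r n ∧ r n < 1 := by
    intro n
    have h1 : (0 : ℝ) < (n : ℝ) + 2 := by positivity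
    constructor
    · simp only [hr]
      rw [sub_pos, div_lt_one h1]
      have : (0 : ℝ) ≤ n := Nat.cast_nonneg n
      linarith
    · simp only [hr]
      have : 0 < 1 / ((n : ℝ) + 2) := by positivity
      linarith
  have hrl : Tendsto r atTop (𝓝 1) := by
    have h1 : Tendsto (fun n : ℕ => 1 / ((n : ℝ) + 2)) atTop (𝓝 0) := by
      have h2 : Tendsto (fun n : ℕ => (n : ℝ) + 2) atTop atTop :=
        tendsto_atTop_add_const_right _ _ tendsto_natCast_atTop_atTop
      have h3 := h2.inv_tendsto_atTop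
      refine h3.congr fun n => ?_
      rw [Pi.inv_apply, one_div]
    have h4 := h1.const_sub 1
    rw [sub_zero] at h4
    exact h4
  have hlim : ∀ θ ∈ Set.Ioo (0 : ℝ) (2 * Real.pi),
      Tendsto (fun n => ENNReal.ofReal (u (circleMap 0 (r n) θ)).re) atTop
        (𝓝 (ENNReal.ofReal (h ((-Real.cot (θ / 2) : ℝ) + (ε : ℂ) * Complex.I)).re)) := by
    intro θ hθ
    obtain ⟨h1, h2⟩ := phi_circle ε θ hθ.1 hθ.2
    have h3 : ContinuousAt u (circleMap 0 1 θ) :=
      (hud _ (by rw [norm_circleMap_zero, abs_one]) h1).continuousAt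
    have h4 : Tendsto (fun n => circleMap 0 (r n) θ) atTop (𝓝 (circleMap 0 1 θ)) := by
      have h5 : Continuous fun s : ℝ => circleMap 0 s θ := by
        unfold circleMap
        fun_prop
      exact (h5.tendsto 1).comp hrl
    have h6 := h3.tendsto.comp h4
    rw [← h2]
    exact ENNReal.tendsto_ofReal ((Complex.continuous_re.tendsto _).comp h6)
  calc ∫⁻ θ in Set.Ioo (0 : ℝ) (2 * Real.pi),
      ENNReal.ofReal (h ((-Real.cot (θ / 2) : ℝ) + (ε : ℂ) * Complex.I)).re
      = ∫⁻ θ in Set.Ioo (0 : ℝ) (2 * Real.pi),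
        liminf (fun n => ENNReal.ofReal (u (circleMap 0 (r n) θ)).re) atTop := by
        refine setLIntegral_congr_fun measurableSet_Ioo fun θ hθ => ?_
        exact (hlim θ hθ).liminf_eq.symm
    _ ≤ liminf (fun n => ∫⁻ θ in Set.Ioo (0 : ℝ) (2 * Real.pi),
        ENNReal.ofReal (u (circleMap 0 (r n) θ)).re) atTop := by
        apply lintegral_liminf_le
        intro n
        apply ENNReal.measurable_ofReal.comp
        apply Complex.measurable_re.comp
        apply Continuous.measurable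
        rw [continuous_iff_continuousAt]
        intro θ
        have h2 : circleMap 0 (r n) θ ≠ 1 := by
          intro h3
          have h4 : ‖circleMap 0 (r n) θ‖ = r n := by
            rw [norm_circleMap_zero, abs_of_pos (hrn n).1]
          rw [h3, norm_one] at h4
          linarith [(hrn n).2]
        exact ((hud _ (by rw [norm_circleMap_zero, abs_of_pos (hrn n).1]; exact (hrn n).2.le)
          h2).continuousAt).comp (continuous_circleMap 0 (r n)).continuousAt
    _ = ENNReal.ofReal (2 * Real.pi * (h (((1 + ε : ℝ) : ℂ) * Complex.I)).re) := by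
        simp_rw [fun n => havg (r n) (hrn n).1 (hrn n).2]
        exact liminf_const _

end Pool.Agent.TH369.MU
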