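import Pool.Agent.TH369.MU.Defs

/-! MU-W2: the square root of a Herglotz function. -/

set_option autoImplicit false

open MeasureTheory Filter Topology
open scoped InnerProductSpace

namespace Pool.Agent.TH369.MU

open Pool.Agent.TH369.AN

theorem root (F : ℂ → ℂ) (hd : ∀ z : ℂ, 0 < z.im → DifferentiableAt ℂ F z)
    (hp : ∀ z : ℂ, 0 < z.im → 0 < (F z).im) :
    ∃ h : ℂ → ℂ, (∀ z : ℂ, 0 < z.im → DifferentiableAt ℂ h z) ∧
      ∀ z : ℂ, 0 < z.im → Real.sqrt ‖F z‖ ≤ 2 * (h z).re ∧ (h z).re ≤ Real.sqrt ‖F z‖ := by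
  refine ⟨fun z => Complex.exp (Complex.log (-Complex.I * F z) / 2), ?_, ?_⟩
  · intro z hz
    have h1 : 0 < (-Complex.I * F z).re := by
      have := hp z hz
      simpa using this
    have h2 : DifferentiableAt ℂ (fun z => -Complex.I * F z) z := (hd z hz).const_mul _
    exact ((h2.clog (Complex.mem_slitPlane_iff.2 (Or.inl h1))).div_const 2).cexp
  · intro z hz
    have h1 : 0 < (-Complex.I * F z).re := by
      have := hp z hz
      simpa using this
    have hne : -Complex.I * F z ≠ 0 := by
      intro h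
      rw [h] at h1
      simp at h1
    have hn : ‖-Complex.I * F z‖ = ‖F z‖ := by simp
    have hpos : 0 < ‖F z‖ := by rw [← hn]; exact norm_pos_iff.2 hne
    have e1 : (Complex.exp (Complex.log (-Complex.I * F z) / 2)).re =
        Real.sqrt ‖F z‖ * Real.cos (Complex.arg (-Complex.I * F z) / 2) := by
      rw [Complex.exp_re]
      have h3 : (Complex.log (-Complex.I * F z) / 2).re = Real.log ‖F z‖ / 2 := by
        rw [Complex.div_ofNat_re, Complex.log_re, hn]
      have h4 : (Complex.log (-Complex.I * F z) / 2).im = Complex.arg (-Complex.I * F z) / 2 := by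
        rw [Complex.div_ofNat_im, Complex.log_im]
      rw [h3, h4, Real.exp_half, Real.exp_log hpos]
    have h5 : |Complex.arg (-Complex.I * F z)| < Real.pi / 2 :=
      Complex.abs_arg_lt_pi_div_two_iff.2 (Or.inl h1)
    have h6 : |Complex.arg (-Complex.I * F z) / 2| ≤ Real.pi / 3 := by
      rw [abs_div, abs_two]
      have := Real.pi_pos
      linarith
    have h7 : 1 / 2 ≤ Real.cos (Complex.arg (-Complex.I * F z) / 2) := by
      rw [← Real.cos_pi_div_three, ← Real.cos_abs (Complex.arg (-Complex.I * F z) / 2)]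
      exact Real.cos_le_cos_of_nonneg_of_le_pi (abs_nonneg _)
        (by have := Real.pi_pos; linarith) h6
    have h8 : 0 ≤ Real.sqrt ‖F z‖ := Real.sqrt_nonneg _
    simp only
    rw [e1]
    constructor
    · nlinarith
    · have := Real.cos_le_one (Complex.arg (-Complex.I * F z) / 2)
      nlinarith

end Pool.Agent.TH369.MU
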