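import Pool.Agent.TH369.MU.Defs
import Pool.Agent.TH369.MU.W1
import Pool.Agent.TH369.MU.W2
import Pool.Agent.TH369.AN.BO

/-!
# Borel transforms do not tend to infinity (team MU of helper369, job 4187, helper570)
-/

set_option autoImplicit false

open MeasureTheory Filter Topology
open scoped InnerProductSpace

namespace Pool.Agent.TH369.MU

open Pool.Agent.TH369.AN

namespace W3

lemma ep_pos (k : ℕ) : 0 < ep k := by
  unfold ep
  positivity

/-- the Borel transform -/
noncomputable def FF (m : Measure ℝ) (z : ℂ) : ℂ := ∫ x : ℝ, ((x : ℂ) - z)⁻¹ ∂m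

lemma ne_zero {z : ℂ} (hz : 0 < z.im) (x : ℝ) : (x : ℂ) - z ≠ 0 := by
  intro h
  have h1 := congrArg Complex.im h
  simp at h1
  linarith

lemma im_le {z : ℂ} (x : ℝ) (hz : 0 < z.im) : z.im ≤ ‖(x : ℂ) - z‖ := by
  have h1 := Complex.abs_im_le_norm ((x : ℂ) - z)
  rw [Complex.sub_im, Complex.ofReal_im, zero_sub, abs_neg, abs_of_pos hz] at h1
  exact h1

lemma norm_le {z : ℂ} (x : ℝ) (hz : 0 < z.im) : ‖((x : ℂ) - z)⁻¹‖ ≤ (z.im)⁻¹ := by
  rw [norm_inv]
  exact inv_anti₀ hz (im_le x hz)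

lemma integrable (m : Measure ℝ) [IsFiniteMeasure m] {z : ℂ} (hz : 0 < z.im) :
    Integrable (fun x : ℝ => ((x : ℂ) - z)⁻¹) m :=
  Integrable.of_bound (C := (z.im)⁻¹) (BO.meas m z)
    (Filter.Eventually.of_forall fun x => norm_le x hz)

lemma diffFF (m : Measure ℝ) [IsFiniteMeasure m] (z : ℂ) (hz : 0 < z.im) :
    DifferentiableAt ℂ (FF m) z :=
  BO.diff m 0 0 (by simp) (Or.inl hz.ne')

lemma im_pos {z : ℂ} (hz : 0 < z.im) (x : ℝ) : 0 < (((x : ℂ) - z)⁻¹).im := by
  rw [Complex.inv_im]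
  apply div_pos
  · simpa using hz
  · exact Complex.normSq_pos.2 (ne_zero hz x)

lemma posFF (m : Measure ℝ) [IsFiniteMeasure m] (hm : m ≠ 0) (z : ℂ) (hz : 0 < z.im) :
    0 < (FF m z).im := by
  have h1 : (FF m z).im = ∫ x : ℝ, (((x : ℂ) - z)⁻¹).im ∂m :=
    (Complex.imCLM.integral_comp_comm (integrable m hz)).symm
  rw [h1, integral_pos_iff_support_of_nonneg (fun x => (im_pos hz x).le) ?_]
  · have h2 : Function.support (fun x : ℝ => (((x : ℂ) - z)⁻¹).im) = Set.univ := by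
      ext x
      simp only [Function.mem_support, Set.mem_univ, iff_true]
      exact (im_pos hz x).ne'
    rw [h2]
    exact Measure.measure_univ_pos.2 hm
  · exact Complex.imCLM.integrable_comp (integrable m hz)

lemma normFF (m : Measure ℝ) [IsFiniteMeasure m] (z : ℂ) (hz : 1 ≤ z.im) :
    ‖FF m z‖ ≤ m.real Set.univ := by
  have h1 := norm_integral_le_of_norm_le_const (μ := m) (C := (1 : ℝ))
    (f := fun x : ℝ => ((x : ℂ) - z)⁻¹) (Filter.Eventually.of_forall fun x =>
      (norm_le x (by linarith)).trans (inv_le_one_of_one_le₀ hz))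
  rw [one_mul] at h1
  exact h1

/-- the parametrisation of the line by the circle -/
noncomputable def par (θ : ℝ) : ℝ := -Real.cot (θ / 2)

lemma sin_pos {θ : ℝ} (hθ : θ ∈ Set.Ioo (0 : ℝ) (2 * Real.pi)) : 0 < Real.sin (θ / 2) :=
  Real.sin_pos_of_pos_of_lt_pi (by linarith [hθ.1]) (by linarith [hθ.2])

lemma par_diff : DifferentiableOn ℝ par (Set.Ioo (0 : ℝ) (2 * Real.pi)) := by
  have h1 : DifferentiableOn ℝ (fun θ : ℝ => -(Real.cos (θ / 2) / Real.sin (θ / 2)))
      (Set.Ioo (0 : ℝ) (2 * Real.pi)) := by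
    intro θ hθ
    have h2 := sin_pos hθ
    apply DifferentiableAt.differentiableWithinAt
    have h3 : DifferentiableAt ℝ (fun θ : ℝ => Real.cos (θ / 2)) θ := by fun_prop
    have h4 : DifferentiableAt ℝ (fun θ : ℝ => Real.sin (θ / 2)) θ := by fun_prop
    exact (h3.div h4 h2.ne').neg
  refine h1.congr fun θ _ => ?_
  unfold par
  rw [Real.cot_eq_cos_div_sin]

lemma par_onto (E : ℝ) : ∃ θ ∈ Set.Ioo (0 : ℝ) (2 * Real.pi), par θ = E := by
  refine ⟨2 * Real.arctan E + Real.pi, ⟨?_, ?_⟩, ?_⟩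
  · linarith [Real.neg_pi_div_two_lt_arctan E]
  · linarith [Real.arctan_lt_pi_div_two E]
  · unfold par
    have e : (2 * Real.arctan E + Real.pi) / 2 = Real.arctan E + Real.pi / 2 := by ring
    rw [e, Real.cot_eq_cos_div_sin, Real.cos_add_pi_div_two, Real.sin_add_pi_div_two, neg_div,
      neg_neg, ← Real.tan_eq_sin_div_cos, Real.tan_arctan]

end W3

open W3 in
theorem liminf_ae (m : Measure ℝ) [IsFiniteMeasure m] :
    ∀ᵐ E : ℝ, ∃ C : ℝ, ∃ᶠ k in atTop, ‖∫ x : ℝ, ((x : ℂ) - zk E k)⁻¹ ∂m‖ ≤ C := by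
  by_cases hm : m = 0
  · refine Filter.Eventually.of_forall fun E => ⟨0, Filter.Frequently.of_forall fun k => ?_⟩
    rw [hm, integral_zero_measure, norm_zero]
  obtain ⟨h, hhd, hh⟩ := root (FF m) (diffFF m) (posFF m hm)
  have hp : ∀ z : ℂ, 0 < z.im → 0 ≤ (h z).re := by
    intro z hz
    have h1 := (hh z hz).1
    have h2 := Real.sqrt_nonneg ‖FF m z‖
    linarith
  set S : Set ℝ := Set.Ioo (0 : ℝ) (2 * Real.pi) with hS
  set u : ℕ → ℝ → ENNReal := fun k θ =>
    ENNReal.ofReal (h ((par θ : ℝ) + (ep k : ℂ) * Complex.I)).re with hu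
  have hmeas : ∀ k, AEMeasurable (u k) (volume.restrict S) := by
    intro k
    apply ContinuousOn.aemeasurable _ measurableSet_Ioo
    have h1 : ContinuousOn (fun θ : ℝ => ((par θ : ℝ) + (ep k : ℂ) * Complex.I : ℂ)) S := by
      apply ContinuousOn.add _ continuousOn_const
      exact Complex.continuous_ofReal.comp_continuousOn par_diff.continuousOn
    have h2 : ContinuousOn h {z : ℂ | 0 < z.im} := fun z hz =>
      (hhd z hz).continuousAt.continuousWithinAt
    have h3 : ContinuousOn (fun θ : ℝ => h ((par θ : ℝ) + (ep k : ℂ) * Complex.I)) S := by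
      refine h2.comp h1 fun θ _ => ?_
      show 0 < ((par θ : ℂ) + (ep k : ℂ) * Complex.I).im
      simpa using ep_pos k
    exact ENNReal.continuous_ofReal.comp_continuousOn (Complex.continuous_re.comp_continuousOn h3)
  have hbound : ∀ k, ∫⁻ θ in S, u k θ ≤
      ENNReal.ofReal (2 * Real.pi * Real.sqrt (m.real Set.univ)) := by
    intro k
    refine (circle_le h hhd hp (ep k) (ep_pos k)).trans ?_
    apply ENNReal.ofReal_le_ofReal
    apply mul_le_mul_of_nonneg_left _ (by positivity)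
    have h1 : 1 ≤ ((((1 + ep k : ℝ) : ℂ) * Complex.I)).im := by
      simpa using (ep_pos k).le
    refine (hh _ (by linarith)).2.trans ?_
    exact Real.sqrt_le_sqrt (normFF m _ h1)
  have hfat : ∫⁻ θ in S, liminf (fun k => u k θ) atTop ≤
      ENNReal.ofReal (2 * Real.pi * Real.sqrt (m.real Set.univ)) := by
    refine (lintegral_liminf_le' hmeas).trans ?_
    refine (liminf_le_liminf (Filter.Eventually.of_forall hbound)).trans ?_
    simp
  have hae : ∀ᵐ θ ∂(volume.restrict S), liminf (fun k => u k θ) atTop < ⊤ := by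
    have h1 : AEMeasurable (fun θ => liminf (fun k => u k θ) atTop) (volume.restrict S) := by
      simp only [liminf_eq_iSup_iInf_of_nat']
      exact AEMeasurable.iSup fun n => AEMeasurable.iInf fun i => hmeas (i + n)
    apply ae_lt_top' h1
    exact (hfat.trans_lt ENNReal.ofReal_lt_top).ne
  set P : ℝ → Prop := fun E =>
    ∃ C : ℝ, ∃ᶠ k in atTop, ‖∫ x : ℝ, ((x : ℂ) - zk E k)⁻¹ ∂m‖ ≤ C with hP
  have key : ∀ θ : ℝ, liminf (fun k => u k θ) atTop < ⊤ → P (par θ) := by
    intro θ hθ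
    obtain ⟨c, hc1, hc2⟩ := ENNReal.lt_iff_exists_nnreal_btwn.1 hθ
    have h1 := Filter.frequently_lt_of_liminf_lt (by isBoundedDefault) hc1
    refine ⟨(2 * (c : ℝ)) ^ 2, h1.mono fun k hk => ?_⟩
    have h2 : (h ((par θ : ℝ) + (ep k : ℂ) * Complex.I)).re < c := by
      have h3 : ENNReal.ofReal (h ((par θ : ℝ) + (ep k : ℂ) * Complex.I)).re <
          ENNReal.ofReal (c : ℝ) := by
        rw [ENNReal.ofReal_coe_nnreal]
        exact hk
      exact lt_of_not_ge fun h4 => absurd h3 (not_lt.2 (ENNReal.ofReal_le_ofReal h4))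
    have him : 0 < ((par θ : ℂ) + (ep k : ℂ) * Complex.I).im := by
      simpa using ep_pos k
    have h4 := (hh _ him).1
    have h5 : Real.sqrt ‖FF m ((par θ : ℂ) + (ep k : ℂ) * Complex.I)‖ ≤ 2 * (c : ℝ) := by
      linarith
    have h6 := (Real.sqrt_le_left (by positivity)).1 h5
    exact h6
  have hnull : volume ({θ : ℝ | ¬ liminf (fun k => u k θ) atTop < ⊤} ∩ S) = 0 := by
    have h1 := ae_iff.1 hae
    rw [Measure.restrict_apply_eq_zero' measurableSet_Ioo] at h1
    exact h1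
  have himg := addHaar_image_eq_zero_of_differentiableOn_of_addHaar_eq_zero volume
    (par_diff.mono (Set.inter_subset_right
      (s := {θ : ℝ | ¬ liminf (fun k => u k θ) atTop < ⊤}) (t := S))) hnull
  rw [ae_iff]
  refine measure_mono_null ?_ himg
  intro E hE
  obtain ⟨θ, hθ, hθE⟩ := par_onto E
  refine ⟨θ, ⟨?_, hθ⟩, hθE⟩
  intro h1
  apply hE
  rw [← hθE]
  exact key θ h1

end Pool.Agent.TH369.MU
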