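import Pool.Agent.TH369.MU.Defs
import Pool.Agent.TH369.AN.RES
import Pool.Agent.TH369.AN.RO
import Pool.Agent.TH369.MU.QB
import Pool.Agent.TH369.MU.SM
import Pool.Agent.TH369.MU.QA
import Pool.Agent.TH369.MU.W3
import Pool.Agent.TH369.MU.RP

/-!
# The diagonal Green function converges where the density is positive
(team MU, helper369; file by helper267)
-/

set_option autoImplicit false

open MeasureTheory Filter Topology
open scoped InnerProductSpace

namespace Pool.Agent.TH369.MU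

open Pool.Agent.TH369.AN

variable {X : Type} [NormedAddCommGroup X] [InnerProductSpace ℂ X] [CompleteSpace X]

namespace RS

lemma zk_im (E : ℝ) (k : ℕ) : (zk E k).im = ep k := by
  unfold zk
  simp

lemma ep_pos (k : ℕ) : 0 < ep k := by
  unfold ep
  positivity

lemma zk_im_ne (E : ℝ) (k : ℕ) : (zk E k).im ≠ 0 := by
  rw [zk_im]
  exact (ep_pos k).ne'

lemma fk_pos (T : X →L[ℂ] X) (hT : IsSelfAdjoint T) {φ : X} (hφ : φ ≠ 0) (E : ℝ) (k : ℕ) :
    0 < (Fk T E k φ).im := by
  rw [← qk_sq T hT E k φ]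
  have h1 : Rz T (zk E k) φ ≠ 0 := by
    intro h
    have h2 := rz_eq T hT (zk E k) (zk_im_ne E k) φ
    rw [h, map_zero, smul_zero, sub_zero] at h2
    exact hφ h2.symm
  have h3 : 0 < qk T E k φ :=
    mul_pos (Real.sqrt_pos.2 (ep_pos k)) (norm_pos_iff.2 h1)
  exact pow_pos h3 2

omit [CompleteSpace X] in
lemma pt_zero (T : X →L[ℂ] X) (φ : X) : pt T φ 0 = T := by
  unfold pt
  rw [Complex.ofReal_zero, zero_smul, add_zero]

lemma fk_pt (T : X →L[ℂ] X) (hT : IsSelfAdjoint T) (φ : X) (s E : ℝ) (k : ℕ) :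
    Fk (pt T φ s) E k φ * (1 + s * Fk T E k φ) = Fk T E k φ := by
  have h1 := rank_one T hT φ φ 0 s (zk E k) (zk_im_ne E k)
  rw [pt_zero, sub_zero] at h1
  have h2 := congrArg (fun v => ⟪φ, v⟫_ℂ) h1
  simp only [inner_sub_right, inner_smul_right] at h2
  change Fk (pt T φ s) E k φ = Fk T E k φ - (s * Fk T E k φ) * Fk (pt T φ s) E k φ at h2
  linear_combination h2

end RS

open RS

theorem fk_conv (T : X →L[ℂ] X) (hT : IsSelfAdjoint T) (φ : X) :
    ∀ᵐ E : ℝ, ∀ l : ℝ, 0 < l → Tendsto (fun k => (Fk T E k φ).im) atTop (𝓝 l) →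
      ∃ L : ℂ, Tendsto (fun k => Fk T E k φ) atTop (𝓝 L) := by
  by_cases hφ : φ = 0
  · refine Filter.Eventually.of_forall fun E l _ _ => ⟨0, ?_⟩
    have h : (fun k => Fk T E k φ) = fun _ => 0 := by
      funext k
      unfold Fk
      rw [hφ, inner_zero_left]
    rw [h]
    exact tendsto_const_nhds
  · obtain ⟨m, hm, _⟩ := spm_exists T hT φ
    obtain ⟨m1, hm1, _⟩ := spm_exists (pt T φ 1) (pt_sa T hT φ 1) φ
    obtain ⟨m2, hm2, _⟩ := spm_exists (pt T φ (-1)) (pt_sa T hT φ (-1)) φ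
    have := hm.1
    filter_upwards [liminf_ae m, qk_ae (pt T φ 1) (pt_sa T hT φ 1) φ m1 hm1,
      qk_ae (pt T φ (-1)) (pt_sa T hT φ (-1)) φ m2 hm2] with E hE h1 h2 l hl h0
    obtain ⟨C, hC⟩ := hE
    have hpos := fun k => fk_pos T hT hφ E k
    have e1 : ∀ k, qk (pt T φ 1) E k φ ^ 2 = (Fk T E k φ / (1 + Fk T E k φ)).im := by
      intro k
      rw [qk_sq (pt T φ 1) (pt_sa T hT φ 1)]
      have h3 := fk_pt T hT φ 1 E k
      rw [Complex.ofReal_one, one_mul] at h3
      have h4 : 1 + Fk T E k φ ≠ 0 := by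
        intro h
        have h5 := congrArg Complex.im h
        simp only [Complex.add_im, Complex.one_im, zero_add, Complex.zero_im] at h5
        exact (hpos k).ne' h5
      rw [eq_div_of_mul_eq h4 h3]
    have e2 : ∀ k, qk (pt T φ (-1)) E k φ ^ 2 = (Fk T E k φ / (1 - Fk T E k φ)).im := by
      intro k
      rw [qk_sq (pt T φ (-1)) (pt_sa T hT φ (-1))]
      have h3 := fk_pt T hT φ (-1) E k
      rw [Complex.ofReal_neg, Complex.ofReal_one, neg_one_mul, ← sub_eq_add_neg] at h3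
      have h4 : 1 - Fk T E k φ ≠ 0 := by
        intro h
        have h5 := congrArg Complex.im h
        simp only [Complex.sub_im, Complex.one_im, zero_sub, Complex.zero_im] at h5
        exact (hpos k).ne' (neg_eq_zero.1 h5)
      rw [eq_div_of_mul_eq h4 h3]
    simp only [e1] at h1
    simp only [e2] at h2
    refine re_conv (fun k => Fk T E k φ) hpos l _ _ C hl h0 h1 h2 ?_
    refine hC.mono fun k hk => ?_
    rw [← hm.2 (zk E k) (zk_im_ne E k)] at hk
    exact hk

end Pool.Agent.TH369.MU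

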