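import Pool.Agent.TH369.MU.Defs
import Pool.Agent.TH369.AN.OP
import Pool.Agent.TH369.MU.QB
import Pool.Agent.TH369.MU.SM
import Pool.Agent.TH369.MU.QA
import Pool.Agent.TH369.MU.RS
import Pool.Agent.TH369.MU.MJ
set_option autoImplicit false
open MeasureTheory Filter Topology
open scoped InnerProductSpace
namespace Pool.Agent.TH369.MU
open Pool.Agent.TH369.AN
variable {d : ℕ}

namespace GA

/-- for a fixed environment boundary values exist for almost every energy -/
theorem good_fixed (c : ℝ) (ω : Zd d → ℝ) : ∀ᵐ E : ℝ, Good c E ω := by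
  have hT := TT_sa (∅ : Finset (Zd d)) c ω
  have key : ∀ x : Zd d, ∀ᵐ E : ℝ,
      (∃ l : ℝ, Tendsto (fun k => (Gk c ω E k x x).im) atTop (𝓝 l)) ∧
      (0 < kap c E x ω → ∃ L : ℂ, Tendsto (fun k => Gk c ω E k x x) atTop (𝓝 L)) := by
    intro x
    obtain ⟨m, hm, -⟩ := spm_exists (TT (∅ : Finset (Zd d)) c ω) hT (dl x)
    filter_upwards [qk_ae _ hT (dl x) m hm, fk_conv (TT (∅ : Finset (Zd d)) c ω) hT (dl x)]
      with E h1 h2
    have h3 : Tendsto (fun k => (Gk c ω E k x x).im) atTop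
        (𝓝 (Real.pi * (m.rnDeriv volume E).toReal)) := by
      refine h1.congr fun k => ?_
      rw [qk_sq _ hT]
      rfl
    refine ⟨⟨_, h3⟩, fun hk => ?_⟩
    have h4 : kap c E x ω = ENNReal.ofReal (Real.pi * (m.rnDeriv volume E).toReal) :=
      ((ENNReal.continuous_ofReal.tendsto _).comp h3).liminf_eq
    rw [h4, ENNReal.ofReal_pos] at hk
    exact h2 _ hk h3
  have := ae_all_iff.2 key
  filter_upwards [this] with E hE
  exact hE

theorem meas_im (c : ℝ) (hc : 0 ≤ c) (k : ℕ) (x : Zd d) :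
    Measurable fun p : (Zd d → ℝ) × ℝ => (Gk c p.1 p.2 k x x).im :=
  Complex.measurable_im.comp (gk_meas2 c hc k x x)

theorem meas_kap (c : ℝ) (hc : 0 ≤ c) (x : Zd d) :
    Measurable fun p : (Zd d → ℝ) × ℝ => kap c p.2 x p.1 := by
  unfold kap
  exact Measurable.liminf fun k => (meas_im c hc k x).ennreal_ofReal

theorem meas_good (c : ℝ) (hc : 0 ≤ c) :
    MeasurableSet {p : (Zd d → ℝ) × ℝ | Good c p.2 p.1} := by
  have h0 : {p : (Zd d → ℝ) × ℝ | Good c p.2 p.1} = ⋂ x : Zd d,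
      {p : (Zd d → ℝ) × ℝ | ∃ l : ℝ, Tendsto (fun k => (Gk c p.1 p.2 k x x).im) atTop (𝓝 l)} ∩
      ({p : (Zd d → ℝ) × ℝ | 0 < kap c p.2 x p.1}ᶜ ∪
        {p : (Zd d → ℝ) × ℝ | ∃ L : ℂ, Tendsto (fun k => Gk c p.1 p.2 k x x) atTop (𝓝 L)}) := by
    ext p
    simp only [Good, Set.mem_setOf_eq, Set.mem_iInter, Set.mem_inter_iff, Set.mem_union,
      Set.mem_compl_iff, imp_iff_not_or]
  rw [h0]
  refine MeasurableSet.iInter fun x => ?_
  refine (measurableSet_exists_tendsto fun k => meas_im c hc k x).inter ?_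
  refine MeasurableSet.union ?_ (measurableSet_exists_tendsto fun k => gk_meas2 c hc k x x)
  exact (measurableSet_lt measurable_const (meas_kap c hc x)).compl

end GA

theorem good_ae (c : ℝ) (hc : 0 ≤ c) (μ : Measure ℝ) [IsProbabilityMeasure μ] :
    ∀ᵐ E : ℝ, ∀ᵐ ω ∂(iid d μ), Good c E ω := by
  haveI : IsProbabilityMeasure (iid d μ) := by unfold iid; infer_instance
  exact (Measure.ae_ae_comm (μ := iid d μ) (ν := (volume : Measure ℝ))
    (p := fun ω E => Good c E ω) (GA.meas_good c hc)).1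
    (Eventually.of_forall fun ω => GA.good_fixed c ω)

end Pool.Agent.TH369.MU
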