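import Pool.Agent.TH369.MU.Defs
import Pool.Agent.TH369.MU.CY
import Pool.Agent.TH369.MU.SH

/-!
# Zero-one law for shift invariant events (team MU, part ZO)
-/

set_option autoImplicit false

open MeasureTheory Filter Topology
open scoped InnerProductSpace

namespace Pool.Agent.TH369.MU

open Pool.Agent.TH369.AN

variable {d : ℕ}

namespace ZO

/-- events of finitely many coordinates come from the restriction -/
theorem of_restrict {B : Finset (Zd d)} {C : Set (Zd d → ℝ)} (hC : MeasurableSet C)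
    (hB : ∀ ω ω' : Zd d → ℝ, (∀ x ∈ B, ω x = ω' x) → (ω ∈ C ↔ ω' ∈ C)) :
    ∃ C' : Set ((i : B) → ℝ), MeasurableSet C' ∧
      C = (fun (ω : Zd d → ℝ) (i : B) => ω i) ⁻¹' C' := by
  classical
  refine ⟨(fun (v : (i : B) → ℝ) (x : Zd d) => if h : x ∈ B then v ⟨x, h⟩ else 0) ⁻¹' C, ?_, ?_⟩
  · refine hC.preimage ?_
    rw [measurable_pi_iff]
    intro x
    by_cases h : x ∈ B
    · simp only [h, dif_pos]
      exact measurable_pi_apply _
    · simp only [h, dif_neg, not_false_iff]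
      exact measurable_const
  · ext ω
    rw [Set.mem_preimage, Set.mem_preimage]
    refine hB _ _ fun x hx => ?_
    simp only [hx, dif_pos]

/-- events of disjoint blocks are independent -/
theorem indep (μ : Measure ℝ) [IsProbabilityMeasure μ] {B B' : Finset (Zd d)} (hd : Disjoint B B')
    {C C' : Set (Zd d → ℝ)} (hC : MeasurableSet C) (hC' : MeasurableSet C')
    (hB : ∀ ω ω' : Zd d → ℝ, (∀ x ∈ B, ω x = ω' x) → (ω ∈ C ↔ ω' ∈ C))
    (hB' : ∀ ω ω' : Zd d → ℝ, (∀ x ∈ B', ω x = ω' x) → (ω ∈ C' ↔ ω' ∈ C')) :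
    iid d μ (C ∩ C') = iid d μ C * iid d μ C' := by
  obtain ⟨S, hS, rfl⟩ := of_restrict hC hB
  obtain ⟨S', hS', rfl⟩ := of_restrict hC' hB'
  have h1 : ProbabilityTheory.iIndepFun (fun (i : Zd d) (ω : Zd d → ℝ) => ω i) (iid d μ) :=
    ProbabilityTheory.iIndepFun_infinitePi (P := fun _ : Zd d => μ)
      (X := fun (_ : Zd d) (x : ℝ) => x) (fun _ => measurable_id)
  have h2 := h1.indepFun_finset B B' hd (fun i => measurable_pi_apply i)
  exact h2.measure_inter_preimage_eq_mul _ _ hS hS'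

theorem exists_shift (hd : 0 < d) (B : Finset (Zd d)) :
    ∃ a : Zd d, Disjoint B (B.image fun x => x + a) := by
  classical
  obtain ⟨S, hS⟩ : ∃ S : ℤ, S = ∑ x ∈ B, |x ⟨0, hd⟩| := ⟨_, rfl⟩
  have hle : ∀ x ∈ B, |x ⟨0, hd⟩| ≤ S := by
    intro x hx
    rw [hS]
    exact Finset.single_le_sum (f := fun x : Zd d => |x ⟨0, hd⟩|) (fun _ _ => abs_nonneg _) hx
  refine ⟨fun _ => 2 * S + 1, ?_⟩
  rw [Finset.disjoint_left]
  intro y hy hy'
  obtain ⟨x, hx, hxy⟩ := Finset.mem_image.1 hy'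
  have h1 := hle x hx
  have h2 := hle y hy
  have h3 : x ⟨0, hd⟩ + (2 * S + 1) = y ⟨0, hd⟩ := congrFun hxy ⟨0, hd⟩
  have h4 := abs_le.1 h1
  have h5 := abs_le.1 h2
  omega

end ZO

open ZO

theorem zero_one (hd : 0 < d) (μ : Measure ℝ) [IsProbabilityMeasure μ] (A : Set (Zd d → ℝ))
    (hA : MeasurableSet A) (hinv : ∀ a : Zd d, sh a ⁻¹' A = A) :
    iid d μ A = 0 ∨ iid d μ A = 1 := by
  classical
  have hP : IsProbabilityMeasure (iid d μ) := by
    unfold iid
    infer_instance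
  obtain ⟨P, hPd⟩ : ∃ P : Measure (Zd d → ℝ), P = iid d μ := ⟨_, rfl⟩
  rw [← hPd] at hP
  rw [← hPd]
  obtain ⟨p, hp⟩ : ∃ p : ℝ, p = P.real A := ⟨_, rfl⟩
  have hp1 : p ≤ 1 := by rw [hp]; exact measureReal_le_one
  have hp0 : 0 ≤ p := by rw [hp]; exact measureReal_nonneg
  have key : ∀ δ : ℝ, 0 < δ → |p - p ^ 2| ≤ 5 * δ := by
    intro δ hδ
    obtain ⟨B, C, hC, hBC, hAC⟩ := cyl μ A hA δ hδ
    rw [← hPd] at hAC
    obtain ⟨a, ha⟩ := exists_shift hd B
    have hmp := sh_mp μ a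
    rw [← hPd] at hmp
    have hD : MeasurableSet (sh a ⁻¹' C) := hmp.measurable hC
    have hAC' : P.real (symmDiff A C) ≤ δ := by
      rw [Measure.real]
      exact ENNReal.toReal_le_of_le_ofReal hδ.le hAC
    have hAD' : P.real (symmDiff A (sh a ⁻¹' C)) ≤ δ := by
      have h1 : symmDiff A (sh a ⁻¹' C) = sh a ⁻¹' (symmDiff A C) := by
        rw [Set.preimage_symmDiff, hinv a]
      rw [h1, Measure.real, hmp.measure_preimage (hA.symmDiff hC).nullMeasurableSet]
      exact hAC'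
    have hind : P.real (C ∩ sh a ⁻¹' C) = P.real C ^ 2 := by
      have h1 := indep μ ha hC hD hBC (by
        intro ω ω' h
        refine hBC _ _ fun x hx => ?_
        exact h (x + a) (Finset.mem_image_of_mem (fun x => x + a) hx))
      rw [← hPd] at h1
      rw [Measure.real, h1, hmp.measure_preimage hC.nullMeasurableSet, ENNReal.toReal_mul,
        Measure.real, pow_two]
    have e1 : |p - P.real C| ≤ δ := by
      rw [hp]
      exact (abs_measureReal_sub_le_measureReal_symmDiff hA.nullMeasurableSet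
        hC.nullMeasurableSet).trans hAC'
    have e2 : |p - P.real (C ∩ sh a ⁻¹' C)| ≤ 2 * δ := by
      rw [hp]
      refine (abs_measureReal_sub_le_measureReal_symmDiff hA.nullMeasurableSet
        (hC.inter hD).nullMeasurableSet).trans ?_
      have h2 : symmDiff A (C ∩ sh a ⁻¹' C) ⊆ symmDiff A C ∪ symmDiff A (sh a ⁻¹' C) := by
        intro ω hω
        rw [Set.mem_symmDiff] at hω
        rw [Set.mem_union, Set.mem_symmDiff, Set.mem_symmDiff]
        rcases hω with ⟨h3, h4⟩ | ⟨h3, h4⟩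
        · by_cases h5 : ω ∈ C
          · exact Or.inr (Or.inl ⟨h3, fun h6 => h4 ⟨h5, h6⟩⟩)
          · exact Or.inl (Or.inl ⟨h3, h5⟩)
        · exact Or.inl (Or.inr ⟨h3.1, h4⟩)
      refine (measureReal_mono h2).trans ((measureReal_union_le _ _).trans ?_)
      linarith
    rw [hind] at e2
    obtain ⟨c, hc⟩ : ∃ c : ℝ, c = P.real C := ⟨_, rfl⟩
    rw [← hc] at e1 e2
    have hc1 : c ≤ 1 := by rw [hc]; exact measureReal_le_one
    have hc0 : 0 ≤ c := by rw [hc]; exact measureReal_nonneg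
    have e3 : |c ^ 2 - p ^ 2| ≤ 2 * δ := by
      have h1 : c ^ 2 - p ^ 2 = -(p - c) * (c + p) := by ring
      rw [h1, abs_mul, abs_neg]
      have h2 : |c + p| ≤ 2 := by
        rw [abs_of_nonneg (by linarith)]
        linarith
      calc |p - c| * |c + p| ≤ δ * 2 := mul_le_mul e1 h2 (abs_nonneg _) hδ.le
        _ = 2 * δ := by ring
    calc |p - p ^ 2| = |(p - c ^ 2) + (c ^ 2 - p ^ 2)| := by ring_nf
      _ ≤ |p - c ^ 2| + |c ^ 2 - p ^ 2| := abs_add_le _ _
      _ ≤ 5 * δ := by linarith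
  have hz : p - p ^ 2 = 0 := by
    by_contra hne
    have h1 : 0 < |p - p ^ 2| := abs_pos.2 hne
    have h2 := key (|p - p ^ 2| / 10) (by positivity)
    linarith
  have hz' : p * (1 - p) = 0 := by linear_combination hz
  rcases mul_eq_zero.1 hz' with h | h
  · left
    rw [hp, measureReal_eq_zero_iff] at h
    exact h
  · right
    have h1 : P.real A = 1 := by rw [← hp]; linarith
    rw [Measure.real] at h1
    rw [← ENNReal.toReal_eq_one_iff]
    exact h1

end Pool.Agent.TH369.MU
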