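import Pool.Agent.TH369.MU.Defs
import Pool.Agent.TH369.MU.SH
import Pool.Agent.TH369.MU.MJ
import Pool.Agent.TH369.MU.ZO
import Pool.Agent.TH369.MU.DE

/-!
# Far apart sites with almost diagonal imaginary part (job MU-SE)
-/

set_option autoImplicit false
open MeasureTheory Filter Topology
open scoped InnerProductSpace

namespace Pool.Agent.TH369.MU
open Pool.Agent.TH369.AN

variable {d : ℕ}

namespace SE

theorem iid_prob (μ : Measure ℝ) [IsProbabilityMeasure μ] : IsProbabilityMeasure (iid d μ) := by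
  unfold iid; infer_instance

theorem ep_pos (m : ℕ) : 0 < ep m := by unfold ep; positivity

theorem kap_shift (c E : ℝ) (a x : Zd d) (ω : Zd d → ℝ) :
    kap c E x (sh a ω) = kap c E (x + a) ω := by
  unfold kap
  simp only [gk_shift]

theorem kap_meas (c : ℝ) (hc : 0 ≤ c) (E : ℝ) (x : Zd d) :
    Measurable fun ω : Zd d → ℝ => kap c E x ω := by
  unfold kap
  exact Measurable.liminf fun k =>
    (Complex.measurable_im.comp (gk_meas c hc E k x x)).ennreal_ofReal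

theorem shift_le (μ : Measure ℝ) [IsProbabilityMeasure μ] (a : Zd d) (S : Set (Zd d → ℝ)) :
    iid d μ (sh a ⁻¹' S) ≤ iid d μ S := by
  have h := sh_mp (d := d) μ a
  calc iid d μ (sh a ⁻¹' S) ≤ (iid d μ).map (sh a) S :=
        Measure.le_map_apply h.measurable.aemeasurable S
    _ = iid d μ S := by rw [h.map_eq]

/-- almost surely some site has a density above the threshold -/
theorem thr (hd : 0 < d) (c : ℝ) (hc : 0 ≤ c) (μ : Measure ℝ) [IsProbabilityMeasure μ] (E : ℝ)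
    (h : iid d μ {ω | 0 < kap c E 0 ω} ≠ 0) :
    ∃ m : ℕ, iid d μ {ω | ∃ x : Zd d, ENNReal.ofReal (2 * ep m) < kap c E x ω}ᶜ = 0 := by
  have := iid_prob (d := d) μ
  have h1 : {ω : Zd d → ℝ | 0 < kap c E 0 ω} =
      ⋃ m : ℕ, {ω : Zd d → ℝ | ENNReal.ofReal (2 * ep m) < kap c E 0 ω} := by
    ext ω
    simp only [Set.mem_iUnion, Set.mem_ofPred_eq]
    constructor
    · intro hω
      have hlim : Tendsto (fun m : ℕ => ENNReal.ofReal (2 * ep m)) atTop (𝓝 0) := by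
        have h2 : Tendsto (fun m : ℕ => 2 * ep m) atTop (𝓝 (2 * 0)) := by
          unfold ep
          exact tendsto_one_div_add_atTop_nhds_zero_nat.const_mul 2
        rw [mul_zero] at h2
        have h3 := (ENNReal.continuous_ofReal.tendsto 0).comp h2
        rwa [ENNReal.ofReal_zero] at h3
      exact (hlim.eventually (gt_mem_nhds hω)).exists
    · rintro ⟨m, hm⟩
      exact lt_of_le_of_lt bot_le hm
  have h2 : ∃ m : ℕ, iid d μ {ω : Zd d → ℝ | ENNReal.ofReal (2 * ep m) < kap c E 0 ω} ≠ 0 := by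
    by_contra hcon
    push Not at hcon
    apply h
    rw [h1]
    exact measure_iUnion_null hcon
  obtain ⟨m, hm⟩ := h2
  refine ⟨m, ?_⟩
  set D : Set (Zd d → ℝ) := {ω | ∃ x : Zd d, ENNReal.ofReal (2 * ep m) < kap c E x ω} with hD
  have hDm : MeasurableSet D := by
    have : D = ⋃ x : Zd d, {ω | ENNReal.ofReal (2 * ep m) < kap c E x ω} := by
      ext ω; simp [hD]
    rw [this]
    exact MeasurableSet.iUnion fun x => measurableSet_lt measurable_const (kap_meas c hc E x)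
  have hinv : ∀ a : Zd d, sh a ⁻¹' D = D := by
    intro a
    ext ω
    simp only [hD, Set.mem_preimage, Set.mem_ofPred_eq, kap_shift]
    constructor
    · rintro ⟨x, hx⟩; exact ⟨x + a, hx⟩
    · rintro ⟨x, hx⟩; exact ⟨x - a, by rwa [sub_add_cancel]⟩
  have hD0 : iid d μ D ≠ 0 := by
    intro h0
    exact hm (measure_mono_null (fun ω (hω : ENNReal.ofReal (2 * ep m) < kap c E 0 ω) =>
      (⟨0, hω⟩ : ∃ x : Zd d, ENNReal.ofReal (2 * ep m) < kap c E x ω)) h0)
  have hD1 : iid d μ D = 1 := (zero_one hd μ D hDm hinv).resolve_left hD0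
  exact (prob_compl_eq_zero_iff hDm).2 hD1

/-- finitely many sites suffice up to a small probability -/
theorem fin_sites (c : ℝ) (hc : 0 ≤ c) (μ : Measure ℝ) [IsProbabilityMeasure μ] (E t : ℝ)
    (h : iid d μ {ω | ∃ x : Zd d, ENNReal.ofReal t < kap c E x ω}ᶜ = 0) (η : ℝ) (hη : 0 < η) :
    ∃ Y : Finset (Zd d), iid d μ {ω | ∀ x ∈ Y, ¬ ENNReal.ofReal t < kap c E x ω} ≤
      ENNReal.ofReal η := by
  have := iid_prob (d := d) μ
  classical
  obtain ⟨s, hs⟩ := exists_surjective_nat (Zd d)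
  set A : ℕ → Set (Zd d → ℝ) := fun N => {ω | ∀ j < N, ¬ ENNReal.ofReal t < kap c E (s j) ω}
    with hA
  have hAm : ∀ N, MeasurableSet (A N) := by
    intro N
    have : A N = ⋂ j : ℕ, ⋂ _ : j < N, {ω | ENNReal.ofReal t < kap c E (s j) ω}ᶜ := by
      ext ω; simp [hA]
    rw [this]
    exact MeasurableSet.iInter fun j => MeasurableSet.iInter fun _ =>
      (measurableSet_lt measurable_const (kap_meas c hc E (s j))).compl
  have hanti : Antitone A := fun a b hab ω hω j hj => hω j (hj.trans_le hab)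
  have hinter : ⋂ N, A N = {ω | ∃ x : Zd d, ENNReal.ofReal t < kap c E x ω}ᶜ := by
    ext ω
    simp only [hA, Set.mem_iInter, Set.mem_ofPred_eq, Set.mem_compl_iff, not_exists]
    constructor
    · intro hω x
      obtain ⟨j, rfl⟩ := hs x
      exact hω (j + 1) j (Nat.lt_succ_self j)
    · intro hω N j _
      exact hω (s j)
  have hlim : Tendsto (fun N => iid d μ (A N)) atTop (𝓝 0) := by
    have := tendsto_measure_iInter_atTop (μ := iid d μ) (s := A)
      (fun N => (hAm N).nullMeasurableSet) hanti ⟨0, measure_ne_top _ _⟩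
    rwa [hinter, h] at this
  obtain ⟨N, hN⟩ := (hlim.eventually (gt_mem_nhds (ENNReal.ofReal_pos.2 hη))).exists
  refine ⟨(Finset.range N).image s, ?_⟩
  refine le_trans (measure_mono ?_) hN.le
  intro ω hω j hj
  exact hω (s j) (Finset.mem_image_of_mem s (Finset.mem_range.2 hj))

/-- far apart translations -/
theorem far (hd : 0 < d) (B Y : Finset (Zd d)) (n : ℕ) :
    ∃ a : Fin n → Zd d, ∀ i j, i ≠ j → ∀ u ∈ Y, ∀ v ∈ Y, (v + a j) - (u + a i) ∉ B := by
  classical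
  set i0 : Fin d := ⟨0, hd⟩
  set R : ℤ := (∑ b ∈ B, |b i0|) + ∑ u ∈ Y, |u i0| with hR
  have hB : ∀ b ∈ B, |b i0| ≤ R := by
    intro b hb
    have h1 : |b i0| ≤ ∑ b ∈ B, |b i0| :=
      Finset.single_le_sum (f := fun b : Zd d => |b i0|) (fun _ _ => abs_nonneg _) hb
    have h2 : 0 ≤ ∑ u ∈ Y, |u i0| := Finset.sum_nonneg fun _ _ => abs_nonneg _
    linarith
  have hY : ∀ u ∈ Y, |u i0| ≤ R := by
    intro b hb
    have h1 : |b i0| ≤ ∑ b ∈ Y, |b i0| :=
      Finset.single_le_sum (f := fun b : Zd d => |b i0|) (fun _ _ => abs_nonneg _) hb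
    have h2 : 0 ≤ ∑ u ∈ B, |u i0| := Finset.sum_nonneg fun _ _ => abs_nonneg _
    linarith
  refine ⟨fun i => Pi.single i0 ((i : ℤ) * (3 * R + 1)), fun i j hij u hu v hv hmem => ?_⟩
  have h1 := hB _ hmem
  have h2 := hY u hu
  have h3 := hY v hv
  simp only [Pi.sub_apply, Pi.add_apply, Pi.single_eq_same] at h1
  have hR0 : 0 ≤ R := (abs_nonneg _).trans h2
  have hne : (i : ℤ) ≠ (j : ℤ) := by
    intro h; exact hij (Fin.ext (by exact_mod_cast h))
  rw [abs_le] at h1 h2 h3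
  rcases lt_or_gt_of_ne hne with h | h
  · have h4 : ((i : ℤ) + 1) * (3 * R + 1) ≤ (j : ℤ) * (3 * R + 1) :=
      mul_le_mul_of_nonneg_right (by omega) (by linarith)
    nlinarith
  · have h4 : ((j : ℤ) + 1) * (3 * R + 1) ≤ (i : ℤ) * (3 * R + 1) :=
      mul_le_mul_of_nonneg_right (by omega) (by linarith)
    nlinarith

/-- the decay estimate for a pair of sites -/
theorem decay_pair (c : ℝ) (μ : Measure ℝ) [IsProbabilityMeasure μ] (E δ : ℝ)
    (B : Finset (Zd d))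
    (hB : ∀ y : Zd d, y ∉ B → iid d μ {ω | 0 < kap c E 0 ω ∧ 0 < kap c E y ω ∧
        ¬ ∀ᶠ k in atTop, ‖Gk c ω E k 0 y‖ ≤ δ} ≤ ENNReal.ofReal δ)
    (y y' : Zd d) (hy : y' - y ∉ B) :
    iid d μ {ω | 0 < kap c E y ω ∧ 0 < kap c E y' ω ∧
        ¬ ∀ᶠ k in atTop, ‖Gk c ω E k y y'‖ ≤ δ} ≤ ENNReal.ofReal δ := by
  have h1 : {ω : Zd d → ℝ | 0 < kap c E y ω ∧ 0 < kap c E y' ω ∧
        ¬ ∀ᶠ k in atTop, ‖Gk c ω E k y y'‖ ≤ δ} =
      sh y ⁻¹' {ω | 0 < kap c E 0 ω ∧ 0 < kap c E (y' - y) ω ∧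
        ¬ ∀ᶠ k in atTop, ‖Gk c ω E k 0 (y' - y)‖ ≤ δ} := by
    ext ω
    simp only [Set.mem_preimage, Set.mem_ofPred_eq, kap_shift, gk_shift, zero_add, sub_add_cancel]
  rw [h1]
  exact (shift_le μ y _).trans (hB _ hy)

theorem main (hd : 0 < d) (c : ℝ) (hc : 0 ≤ c) (μ : Measure ℝ) [IsProbabilityMeasure μ]
    (hμ : μ (Set.Icc (-c) c)ᶜ = 0) (hnd : ∀ x : ℝ, μ {x} ≠ 1) (E : ℝ)
    (hE : ∀ᵐ ω ∂(iid d μ), Good c E ω) (m : ℕ)
    (hm : iid d μ {ω | ∃ x : Zd d, ENNReal.ofReal (2 * ep m) < kap c E x ω}ᶜ = 0)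
    (n : ℕ) (η : ℝ) (hη : 0 < η) :
    iid d μ {ω | ¬ ∃ x : Fin n → Zd d, ∀ᶠ k in atTop,
      (∀ i, ep m ≤ (Gk c ω E k (x i) (x i)).im) ∧
      ∀ i j, i ≠ j → ‖Gk c ω E k (x i) (x j)‖ ≤ ep m / (2 * ((n : ℝ) + 1))} ≤
    ENNReal.ofReal (((n : ℝ) + 1) * η) := by
  classical
  have := iid_prob (d := d) μ
  have hep := ep_pos m
  obtain ⟨Y, hY⟩ := fin_sites c hc μ E (2 * ep m) hm η hη
  set K : ℝ := (n : ℝ) ^ 2 * (Y.card : ℝ) ^ 2 with hK
  have hK0 : 0 ≤ K := by positivity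
  set δ : ℝ := min (ep m / (2 * ((n : ℝ) + 1))) (η / (K + 1)) with hδ
  have hδ0 : 0 < δ := lt_min (by positivity) (by positivity)
  obtain ⟨B, hB⟩ := decay c hc μ hμ hnd E hE δ hδ0
  obtain ⟨a, ha⟩ := far hd B Y n
  set S1 : Fin n → Set (Zd d → ℝ) := fun i =>
    {ω | ∀ u ∈ Y, ¬ ENNReal.ofReal (2 * ep m) < kap c E (u + a i) ω} with hS1
  set S2 : (Fin n × Fin n) × (Zd d × Zd d) → Set (Zd d → ℝ) := fun q =>
    {ω | 0 < kap c E (q.2.1 + a q.1.1) ω ∧ 0 < kap c E (q.2.2 + a q.1.2) ω ∧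
      ¬ ∀ᶠ k in atTop, ‖Gk c ω E k (q.2.1 + a q.1.1) (q.2.2 + a q.1.2)‖ ≤ δ} with hS2
  set I : Finset ((Fin n × Fin n) × (Zd d × Zd d)) :=
    (Finset.univ.filter fun q : Fin n × Fin n => q.1 ≠ q.2) ×ˢ (Y ×ˢ Y) with hI
  have h1 : ∀ i, iid d μ (S1 i) ≤ ENNReal.ofReal η := by
    intro i
    have : S1 i = sh (a i) ⁻¹' {ω | ∀ x ∈ Y, ¬ ENNReal.ofReal (2 * ep m) < kap c E x ω} := by
      ext ω
      simp only [hS1, Set.mem_preimage, Set.mem_ofPred_eq, kap_shift]
    rw [this]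
    exact (shift_le μ (a i) _).trans hY
  have h2 : ∀ q ∈ I, iid d μ (S2 q) ≤ ENNReal.ofReal δ := by
    intro q hq
    rw [hI, Finset.mem_product, Finset.mem_filter, Finset.mem_product] at hq
    exact decay_pair c μ E δ B hB _ _ (ha _ _ hq.1.2 _ hq.2.1 _ hq.2.2)
  have hsub : {ω : Zd d → ℝ | ¬ ∃ x : Fin n → Zd d, ∀ᶠ k in atTop,
      (∀ i, ep m ≤ (Gk c ω E k (x i) (x i)).im) ∧
      ∀ i j, i ≠ j → ‖Gk c ω E k (x i) (x j)‖ ≤ ep m / (2 * ((n : ℝ) + 1))} ⊆
      (⋃ i ∈ (Finset.univ : Finset (Fin n)), S1 i) ∪ ⋃ q ∈ I, S2 q := by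
    intro ω hω
    by_contra hcon
    apply hω
    rw [Set.mem_union, not_or] at hcon
    obtain ⟨hc1, hc2⟩ := hcon
    simp only [Set.mem_iUnion, not_exists] at hc1 hc2
    have hx : ∀ i, ∃ u ∈ Y, ENNReal.ofReal (2 * ep m) < kap c E (u + a i) ω := by
      intro i
      have := hc1 i (Finset.mem_univ i)
      simp only [hS1, Set.mem_ofPred_eq, not_forall, not_not] at this
      obtain ⟨u, hu, h⟩ := this
      exact ⟨u, hu, h⟩
    choose u hu hk using hx
    refine ⟨fun i => u i + a i, ?_⟩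
    refine Filter.Eventually.and ?_ ?_
    · rw [eventually_all]
      intro i
      have h3 := eventually_lt_of_lt_liminf (hk i)
      filter_upwards [h3] with k hk3
      have h4 := (ENNReal.ofReal_lt_ofReal_iff_of_nonneg (by positivity)).1 hk3
      linarith
    · rw [eventually_all]
      intro i
      rw [eventually_all]
      intro j
      rw [eventually_imp_distrib_left]
      intro hij
      have h5 := hc2 ((i, j), (u i, u j)) (by
        rw [hI, Finset.mem_product, Finset.mem_filter, Finset.mem_product]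
        exact ⟨⟨Finset.mem_univ _, hij⟩, hu i, hu j⟩)
      simp only [hS2, Set.mem_ofPred_eq, not_and, not_not] at h5
      have h6 := h5 (lt_of_le_of_lt bot_le (hk i)) (lt_of_le_of_lt bot_le (hk j))
      filter_upwards [h6] with k hk6
      exact hk6.trans (min_le_left _ _)
  refine (measure_mono hsub).trans ((measure_union_le _ _).trans ?_)
  have hA : iid d μ (⋃ i ∈ (Finset.univ : Finset (Fin n)), S1 i) ≤ ENNReal.ofReal (n * η) := by
    refine (measure_biUnion_finset_le _ _).trans ?_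
    refine (Finset.sum_le_sum fun i _ => h1 i).trans ?_
    rw [Finset.sum_const, Finset.card_univ, Fintype.card_fin, nsmul_eq_mul,
      ENNReal.ofReal_mul (by positivity), ENNReal.ofReal_natCast]
  have hBd : iid d μ (⋃ q ∈ I, S2 q) ≤ ENNReal.ofReal η := by
    refine (measure_biUnion_finset_le _ _).trans ?_
    refine (Finset.sum_le_sum h2).trans ?_
    rw [Finset.sum_const, nsmul_eq_mul, ← ENNReal.ofReal_natCast, ← ENNReal.ofReal_mul
      (by positivity)]
    apply ENNReal.ofReal_le_ofReal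
    have hcard : (I.card : ℝ) ≤ K := by
      have h7 : I.card ≤ n ^ 2 * Y.card ^ 2 := by
        rw [hI, Finset.card_product, Finset.card_product, sq, sq]
        refine Nat.mul_le_mul ((Finset.card_filter_le _ _).trans ?_) le_rfl
        simp
      rw [hK]
      exact_mod_cast h7
    calc (I.card : ℝ) * δ ≤ K * (η / (K + 1)) :=
          mul_le_mul hcard (min_le_right _ _) hδ0.le hK0
      _ ≤ η := by
          rw [mul_div_assoc', div_le_iff₀ (by positivity)]
          nlinarith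
  calc _ ≤ ENNReal.ofReal (n * η) + ENNReal.ofReal η := add_le_add hA hBd
    _ = ENNReal.ofReal (((n : ℝ) + 1) * η) := by
        rw [← ENNReal.ofReal_add (by positivity) hη.le]; congr 1; ring

end SE

theorem star_one (hd : 0 < d) (c : ℝ) (hc : 0 ≤ c) (μ : Measure ℝ) [IsProbabilityMeasure μ]
    (hμ : μ (Set.Icc (-c) c)ᶜ = 0) (hnd : ∀ x : ℝ, μ {x} ≠ 1) (E : ℝ)
    (hE : ∀ᵐ ω ∂(iid d μ), Good c E ω) : ∀ᵐ ω ∂(iid d μ), Star c E ω := by
  have := SE.iid_prob (d := d) μ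
  by_cases h : iid d μ {ω | 0 < kap c E 0 ω} = 0
  · have h1 : ∀ x : Zd d, ∀ᵐ ω ∂(iid d μ), ¬ 0 < kap c E x ω := by
      intro x
      rw [ae_iff]
      refine measure_mono_null (t := sh x ⁻¹' {ω | 0 < kap c E 0 ω}) (fun ω hω => ?_)
        (le_antisymm ((SE.shift_le μ x _).trans h.le) bot_le)
      simp only [Set.mem_preimage, Set.mem_ofPred_eq, SE.kap_shift, zero_add]
      exact not_not.1 hω
    filter_upwards [ae_all_iff.2 h1] with ω hω
    rintro ⟨x, hx⟩
    exact absurd hx (hω x)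
  · obtain ⟨m, hm⟩ := SE.thr hd c hc μ E h
    have h2 : ∀ n : ℕ, ∀ᵐ ω ∂(iid d μ), ∃ x : Fin n → Zd d, ∀ᶠ k in atTop,
        (∀ i, ep m ≤ (Gk c ω E k (x i) (x i)).im) ∧
        ∀ i j, i ≠ j → ‖Gk c ω E k (x i) (x j)‖ ≤ ep m / (2 * ((n : ℝ) + 1)) := by
      intro n
      rw [ae_iff]
      refine le_antisymm ?_ bot_le
      refine ENNReal.le_of_forall_pos_le_add fun ε hε _ => ?_
      have h3 := SE.main hd c hc μ hμ hnd E hE m hm n ((ε : ℝ) / ((n : ℝ) + 1)) (by positivity)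
      rw [mul_div_cancel₀ _ (by positivity : ((n : ℝ) + 1) ≠ 0), ENNReal.ofReal_coe_nnreal] at h3
      rw [zero_add]
      exact h3
    filter_upwards [ae_all_iff.2 h2] with ω hω _ n
    obtain ⟨x, hx⟩ := hω n
    exact ⟨x, m, hx⟩

end Pool.Agent.TH369.MU
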