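import Pool.Agent.TH369.MU.Defs
import Pool.Agent.TH369.AN.OP
import Pool.Agent.TH369.MU.SA
import Pool.Agent.TH369.MU.F1
import Pool.Agent.TH369.MU.F2
import Pool.Agent.TH369.MU.SN

/-!
# Final assembly: finitely many vectors never generate the absolutely continuous part
-/

set_option autoImplicit false
open MeasureTheory Filter Topology
open scoped InnerProductSpace
namespace Pool.Agent.TH369.MU
open Pool.Agent.TH369.AN
variable {d : ℕ}

theorem fin_mult (hd : 0 < d) (c : ℝ) (hc : 0 ≤ c) (μ : Measure ℝ) [IsProbabilityMeasure μ]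
    (hμ : μ (Set.Icc (-c) c)ᶜ = 0) (hnd : ∀ x : ℝ, μ {x} ≠ 1) :
    ∀ᵐ ω ∂(iid d μ), ∀ (n : ℕ) (f : Fin n → L2 d) (A : Set ℝ), MeasurableSet A →
      (∀ g : L2 d, (∀ (i : Fin n) (l : ℕ), ⟪g, (TT (∅ : Finset (Zd d)) c ω ^ l) (f i)⟫_ℂ = 0) →
        ∀ m : Measure ℝ, SpM (TT (∅ : Finset (Zd d)) c ω) g m → (m.restrict A) ⟂ₘ volume) →
      ∀ (g : L2 d) (m : Measure ℝ), SpM (TT (∅ : Finset (Zd d)) c ω) g m →
        (m.restrict A) ⟂ₘ volume := by
  filter_upwards [star_ae hd c hc μ hμ hnd] with ω hω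
  intro n f A hA h g m hm
  exact (sing_iff _ (TT_sa _ c ω) g m hm A hA).2
    (all_vectors c hc ω A hA (sites c hc ω hω n f A hA h) g)

end Pool.Agent.TH369.MU
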